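import Pool.Agent.H87T.Defs

/-!
Selberg's weights, indexed by finite sets.

PROOF PLAN.  `h p = g p/(1 - g p)`, `G = ∑_{B ∈ F} h(B)`, `F = {B ⊆ P : ∏_B p <= R}` (closed under subsets, `∅ ∈ F`,
`G >= 1`), `h(B) = ∏_{p ∈ B} h p`.  `ρ A = (-1)^|A|/(g(A) G) ∑_{B ∈ F, A ⊆ B} h(B)`.
(1) `ρ ∅ = 1`; `ρ A = 0` if `∏_A p > R`.
(2) `|ρ A| <= 1`: `B = A ∪ B'` with `B'` disjoint from `A`, `h(A)/g(A) = ∏_A 1/(1 - g p) = ∏_A (1 + h p)
= ∑_{C ⊆ A} h(C)`, and `C ∪ B' ∈ F`, the map `(C, B') ↦ C ∪ B'` is injective: so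
`(h(A)/g(A)) ∑_{B'} h(B') <= G`.
(3) `g(A ∪ B) = g(A) g(B)/g(A ∩ B)` and `1/g(D) = ∏_D (1 + 1/h p) = ∑_{E ⊆ D} 1/h(E)`; so the quadratic
form is `∑_E (1/h(E)) (∑_{A ⊇ E} g(A) ρ A)^2`, and `∑_{A ⊇ E} g(A) ρ A = (1/G) ∑_{B ∈ F, B ⊇ E} h(B)
∑_{E ⊆ A ⊆ B} (-1)^|A| = (-1)^|E| h(E)/G` for `E ∈ F` and `0` otherwise.  So it is
`∑_{E ∈ F} h(E)/G^2 = 1/G`.  (Compare `Pool.Agent.H91.PT.Sel` for the case `g p = 1/p`.)
-/

namespace Pool.Agent.H87T

open Finset

private theorem SelW_interval {E B : Finset ℕ} :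
    ∑ A ∈ B.powerset, (if E ⊆ A then (-1 : ℝ) ^ A.card else 0) =
      if B = E then (-1 : ℝ) ^ E.card else 0 := by
  classical
  rw [← sum_filter]
  by_cases hEB : E ⊆ B
  · have h1 : B.powerset.filter (fun A => E ⊆ A) = (B \ E).powerset.image (fun C => E ∪ C) := by
      ext A
      rw [mem_filter, mem_powerset, mem_image]
      constructor
      · rintro ⟨h1, h2⟩
        refine ⟨A \ E, ?_, ?_⟩
        · rw [mem_powerset]
          exact sdiff_subset_sdiff h1 le_rfl
        · exact union_sdiff_of_subset h2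
      · rintro ⟨C, hC, rfl⟩
        rw [mem_powerset] at hC
        exact ⟨union_subset hEB (hC.trans sdiff_subset), subset_union_left⟩
    rw [h1, sum_image]
    · have h2 : ∀ C ∈ (B \ E).powerset, (-1 : ℝ) ^ (E ∪ C).card = (-1) ^ E.card * (-1) ^ C.card := by
        intro C hC
        rw [mem_powerset] at hC
        rw [card_union_of_disjoint, pow_add]
        exact (disjoint_sdiff).mono_right hC
      rw [sum_congr rfl h2, ← mul_sum]
      have h3 : ∑ C ∈ (B \ E).powerset, (-1 : ℝ) ^ C.card = if B \ E = ∅ then 1 else 0 := by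
        have h4 := sum_powerset_neg_one_pow_card (x := B \ E)
        have h5 := congrArg (fun z : ℤ => (z : ℝ)) h4
        push_cast at h5
        exact h5
      rw [h3]
      by_cases hBE : B = E
      · rw [if_pos hBE, if_pos (by rw [hBE, Finset.sdiff_self]), mul_one]
      · rw [if_neg hBE, if_neg, mul_zero]
        intro h4
        exact hBE (le_antisymm (sdiff_eq_empty_iff_subset.mp h4) hEB)
    · intro C hC D hD hCD
      rw [mem_coe, mem_powerset] at hC hD
      have hC' : Disjoint E C := disjoint_sdiff.mono_right hC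
      have hD' : Disjoint E D := disjoint_sdiff.mono_right hD
      have h2 := congrArg (fun z => z \ E) hCD
      simp only [union_sdiff_left] at h2
      rwa [sdiff_eq_self_of_disjoint hC'.symm, sdiff_eq_self_of_disjoint hD'.symm] at h2
  · rw [if_neg (fun h => hEB (by rw [h]))]
    refine sum_eq_zero fun A hA => ?_
    rw [mem_filter, mem_powerset] at hA
    exact absurd (hA.2.trans hA.1) hEB

theorem sel_weights (P : Finset ℕ) (hP : ∀ p ∈ P, 1 ≤ p) (g : ℕ → ℝ)
    (hg : ∀ p ∈ P, 0 < g p ∧ g p < 1) (R : ℕ) (hR : 1 ≤ R) :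
    ∃ ρ : Finset ℕ → ℝ, ρ ∅ = 1 ∧ (∀ A ⊆ P, |ρ A| ≤ 1) ∧
      (∀ A ⊆ P, R < ∏ p ∈ A, p → ρ A = 0) ∧
      (∑ A ∈ P.powerset, ∑ B ∈ P.powerset, ρ A * ρ B * ∏ p ∈ A ∪ B, g p) *
        (∑ A ∈ P.powerset.filter (fun A => ∏ p ∈ A, p ≤ R), ∏ p ∈ A, (g p / (1 - g p))) = 1 := by
  classical
  set h : ℕ → ℝ := fun p => g p / (1 - g p) with hh
  have hpos : ∀ p ∈ P, 0 < h p := fun p hp => div_pos (hg p hp).1 (by linarith [(hg p hp).2])
  set H : Finset ℕ → ℝ := fun B => ∏ p ∈ B, h p with hH
  have Hpos : ∀ B ⊆ P, 0 < H B := fun B hB => prod_pos fun p hp => hpos p (hB hp)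
  set q : Finset ℕ → ℝ := fun B => ∏ p ∈ B, g p with hq
  have qpos : ∀ B ⊆ P, 0 < q B := fun B hB => prod_pos fun p hp => (hg p (hB hp)).1
  set F : Finset (Finset ℕ) := P.powerset.filter (fun A => ∏ p ∈ A, p ≤ R) with hF
  have hFP : ∀ B ∈ F, B ⊆ P := fun B hB => mem_powerset.mp (mem_filter.mp hB).1
  have hmono : ∀ A B : Finset ℕ, A ⊆ B → B ⊆ P → ∏ p ∈ A, p ≤ ∏ p ∈ B, p := by
    intro A B hAB hBP
    refine prod_le_prod_of_subset_of_one_le' hAB fun p hp _ => hP p (hBP hp)
  have hdown : ∀ A B : Finset ℕ, A ⊆ B → B ∈ F → A ∈ F := by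
    intro A B hAB hB
    have hBP := hFP B hB
    rw [hF, mem_filter, mem_powerset] at hB ⊢
    exact ⟨hAB.trans hBP, (hmono A B hAB hBP).trans hB.2⟩
  have hemp : ∅ ∈ F := by
    rw [hF, mem_filter, mem_powerset]
    exact ⟨empty_subset _, by simpa using hR⟩
  set G : ℝ := ∑ B ∈ F, H B with hG
  have hG1 : 1 ≤ G := by
    calc (1 : ℝ) = H ∅ := by rw [hH]; simp
      _ ≤ G := single_le_sum (f := H) (fun B hB => (Hpos B (hFP B hB)).le) hemp
  have hG0 : 0 < G := by linarith
  set T : Finset ℕ → ℝ := fun A => ∑ B ∈ F, if A ⊆ B then H B else 0 with hT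
  have hT0 : ∀ A, 0 ≤ T A := by
    intro A
    refine sum_nonneg fun B hB => ?_
    split_ifs
    · exact (Hpos B (hFP B hB)).le
    · exact le_rfl
  -- expansions
  have e1 : ∀ D ⊆ P, (q D)⁻¹ = ∑ E ∈ D.powerset, (H E)⁻¹ := by
    intro D hD
    have h1 : (q D)⁻¹ = ∏ p ∈ D, (1 + (h p)⁻¹) := by
      rw [hq]
      simp only
      rw [← prod_inv_distrib]
      refine prod_congr rfl fun p hp => ?_
      obtain ⟨h2, h3⟩ := hg p (hD hp)
      rw [hh]
      simp only
      have h4 : 1 - g p ≠ 0 := by linarith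
      field_simp
      ring
    rw [h1, prod_one_add]
    refine sum_congr rfl fun E _ => ?_
    rw [prod_inv_distrib]
  have e2 : ∀ A ⊆ P, H A / q A = ∑ C ∈ A.powerset, H C := by
    intro A hA
    have h1 : H A / q A = ∏ p ∈ A, (1 + h p) := by
      rw [hH, hq]
      simp only
      rw [← prod_div_distrib]
      refine prod_congr rfl fun p hp => ?_
      obtain ⟨h2, h3⟩ := hg p (hA hp)
      rw [hh]
      simp only
      have h4 : 1 - g p ≠ 0 := by linarith
      field_simp
      ring
    rw [h1, prod_one_add]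
  set ρ : Finset ℕ → ℝ := fun A => (-1) ^ A.card / (q A * G) * T A with hρ
  refine ⟨ρ, ?_, ?_, ?_, ?_⟩
  · -- `ρ ∅ = 1`
    have h1 : T ∅ = G := by
      rw [hT, hG]
      exact sum_congr rfl fun B _ => if_pos (empty_subset B)
    have h2 : q ∅ = 1 := by rw [hq]; simp
    show (-1 : ℝ) ^ (∅ : Finset ℕ).card / (q ∅ * G) * T ∅ = 1
    rw [h1, h2, card_empty, pow_zero, one_mul]
    field_simp
  · -- `|ρ A| ≤ 1`
    intro A hA
    have hqA := qpos A hA
    have key : T A / q A ≤ G := by
      -- pairs `(B, C)` with `A ⊆ B ∈ F`, `C ⊆ A`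
      have h1 : T A / q A = ∑ x ∈ (F.filter (fun B => A ⊆ B)) ×ˢ A.powerset, H (x.2 ∪ (x.1 \ A)) := by
        rw [sum_product, hT]
        simp only
        rw [← sum_filter, sum_div]
        refine sum_congr rfl fun B hB => ?_
        rw [mem_filter] at hB
        have h2 : H B = H A * H (B \ A) := by
          rw [hH]
          simp only
          rw [mul_comm]
          exact (prod_sdiff hB.2).symm
        rw [h2, mul_div_right_comm, e2 A hA, sum_mul]
        refine sum_congr rfl fun C hC => ?_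
        rw [mem_powerset] at hC
        rw [hH]
        simp only
        rw [prod_union]
        exact disjoint_sdiff.mono_left hC
      rw [h1, hG]
      have hinj : Set.InjOn (fun x : Finset ℕ × Finset ℕ => x.2 ∪ (x.1 \ A))
          ((F.filter (fun B => A ⊆ B)) ×ˢ A.powerset : Finset _) := by
        rintro ⟨B, C⟩ hx ⟨B', C'⟩ hx' heq
        rw [mem_coe, mem_product, mem_filter, mem_powerset] at hx hx'
        simp only at hx hx' heq
        have h9 : ∀ a, (a ∈ C ∨ a ∈ B ∧ a ∉ A) ↔ (a ∈ C' ∨ a ∈ B' ∧ a ∉ A) := by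
          intro a
          have := Finset.ext_iff.mp heq a
          rwa [mem_union, mem_union, mem_sdiff, mem_sdiff] at this
        have t1 : C = C' := by
          ext a
          constructor
          · intro ha
            rcases (h9 a).mp (Or.inl ha) with h | h
            · exact h
            · exact absurd (hx.2 ha) h.2
          · intro ha
            rcases (h9 a).mpr (Or.inl ha) with h | h
            · exact h
            · exact absurd (hx'.2 ha) h.2
        have t3 : B = B' := by
          ext a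
          by_cases haA : a ∈ A
          · exact ⟨fun _ => hx'.1.2 haA, fun _ => hx.1.2 haA⟩
          · constructor
            · intro ha
              rcases (h9 a).mp (Or.inr ⟨ha, haA⟩) with h | h
              · exact absurd (hx'.2 h) haA
              · exact h.1
            · intro ha
              rcases (h9 a).mpr (Or.inr ⟨ha, haA⟩) with h | h
              · exact absurd (hx.2 h) haA
              · exact h.1
        rw [t1, t3]
      rw [← sum_image (f := H) hinj]
      refine sum_le_sum_of_subset_of_nonneg ?_ fun B hB _ => (Hpos B (hFP B hB)).le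
      intro D hD
      rw [mem_image] at hD
      obtain ⟨⟨B, C⟩, hx, rfl⟩ := hD
      rw [mem_product, mem_filter, mem_powerset] at hx
      exact hdown _ B (union_subset (hx.2.trans hx.1.2) sdiff_subset) hx.1.1
    have h5 : |ρ A| = T A / q A / G := by
      rw [hρ]
      simp only
      rw [abs_mul, abs_div, abs_pow, abs_neg, abs_one, one_pow, abs_of_pos (mul_pos hqA hG0),
        abs_of_nonneg (hT0 A)]
      field_simp
    rw [h5, div_le_one hG0]
    exact key
  · -- support
    intro A hA hR'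
    have h1 : T A = 0 := by
      rw [hT]
      refine sum_eq_zero fun B hB => ?_
      rw [if_neg]
      intro hAB
      have h2 := hmono A B hAB (hFP B hB)
      have h3 := (mem_filter.mp hB).2
      omega
    rw [hρ]
    simp only
    rw [h1, mul_zero]
  · -- the quadratic form
    set u : Finset ℕ → Finset ℕ → ℝ := fun A E => if E ⊆ A then ρ A * q A else 0 with hu
    have h1 : ∀ A ∈ P.powerset, ∀ B ∈ P.powerset, ρ A * ρ B * ∏ p ∈ A ∪ B, g p =
        ∑ E ∈ P.powerset, u A E * u B E * (H E)⁻¹ := by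
      intro A hA B hB
      rw [mem_powerset] at hA hB
      have hAB : A ∩ B ⊆ P := inter_subset_left.trans hA
      have h2 : (∏ p ∈ A ∪ B, g p) = q A * q B * (q (A ∩ B))⁻¹ := by
        have h3 : (∏ p ∈ A ∪ B, g p) * q (A ∩ B) = q A * q B := prod_union_inter
        have h4 := (qpos _ hAB).ne'
        rw [← h3, mul_assoc, mul_inv_cancel₀ h4, mul_one]
      rw [h2, e1 _ hAB]
      have h5 : ∑ E ∈ (A ∩ B).powerset, (H E)⁻¹ =
          ∑ E ∈ P.powerset, if E ⊆ A ∧ E ⊆ B then (H E)⁻¹ else 0 := by
        rw [← sum_filter]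
        refine sum_congr ?_ fun _ _ => rfl
        ext E
        rw [mem_powerset, mem_filter, mem_powerset, subset_inter_iff]
        exact ⟨fun h => ⟨h.1.trans hA, h⟩, fun h => h.2⟩
      rw [h5, mul_sum, mul_sum]
      refine sum_congr rfl fun E _ => ?_
      rw [hu]
      simp only
      by_cases hEA : E ⊆ A
      · by_cases hEB : E ⊆ B
        · rw [if_pos ⟨hEA, hEB⟩, if_pos hEA, if_pos hEB]
          ring
        · rw [if_neg (fun h => hEB h.2), if_neg hEB]
          ring
      · rw [if_neg (fun h => hEA h.1), if_neg hEA]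
        ring
    have h2 : ∑ A ∈ P.powerset, ∑ B ∈ P.powerset, ρ A * ρ B * ∏ p ∈ A ∪ B, g p =
        ∑ E ∈ P.powerset, (∑ A ∈ P.powerset, u A E) ^ 2 * (H E)⁻¹ := by
      rw [sum_congr rfl fun A hA => sum_congr rfl fun B hB => h1 A hA B hB]
      rw [sum_congr rfl fun A _ => sum_comm (s := P.powerset) (t := P.powerset)
        (f := fun B E => u A E * u B E * (H E)⁻¹)]
      rw [sum_comm]
      refine sum_congr rfl fun E _ => ?_
      rw [sq, sum_mul_sum, sum_mul]
      refine sum_congr rfl fun A _ => ?_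
      rw [sum_mul]
    have h3 : ∀ E ∈ P.powerset, ∑ A ∈ P.powerset, u A E =
        if E ∈ F then (-1) ^ E.card * H E / G else 0 := by
      intro E hE
      have h4 : ∀ A ∈ P.powerset, u A E =
          ∑ B ∈ F, H B / G * (if A ⊆ B then (if E ⊆ A then (-1 : ℝ) ^ A.card else 0) else 0) := by
        intro A hA
        rw [mem_powerset] at hA
        have hqA := (qpos A hA).ne'
        rw [hu]
        simp only
        by_cases hEA : E ⊆ A
        · rw [if_pos hEA, hρ]
          simp only
          have h5 : (-1 : ℝ) ^ A.card / (q A * G) * T A * q A = (-1) ^ A.card / G * T A := by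
            field_simp
          rw [h5, hT]
          simp only
          rw [mul_sum]
          refine sum_congr rfl fun B _ => ?_
          rw [if_pos hEA]
          by_cases hAB : A ⊆ B
          · rw [if_pos hAB, if_pos hAB]
            ring
          · rw [if_neg hAB, if_neg hAB, mul_zero, mul_zero]
        · rw [if_neg hEA]
          refine (sum_eq_zero fun B _ => ?_).symm
          rw [if_neg hEA, ite_self, mul_zero]
      rw [sum_congr rfl h4, sum_comm]
      have h6 : ∀ B ∈ F, ∑ A ∈ P.powerset,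
          H B / G * (if A ⊆ B then (if E ⊆ A then (-1 : ℝ) ^ A.card else 0) else 0) =
          if B = E then (-1) ^ E.card * H E / G else 0 := by
        intro B hB
        rw [← mul_sum, ← sum_filter]
        have h7 : P.powerset.filter (fun A => A ⊆ B) = B.powerset := by
          ext A
          rw [mem_filter, mem_powerset, mem_powerset]
          exact ⟨fun h => h.2, fun h => ⟨h.trans (hFP B hB), h⟩⟩
        rw [h7, SelW_interval]
        by_cases hBE : B = E
        · rw [if_pos hBE, if_pos hBE, hBE]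
          ring
        · rw [if_neg hBE, if_neg hBE, mul_zero]
      rw [sum_congr rfl h6, sum_ite_eq']
    have h4 : ∑ E ∈ P.powerset, (∑ A ∈ P.powerset, u A E) ^ 2 * (H E)⁻¹ = 1 / G := by
      have h5 : ∀ E ∈ P.powerset, (∑ A ∈ P.powerset, u A E) ^ 2 * (H E)⁻¹ =
          if E ∈ F then H E / G ^ 2 else 0 := by
        intro E hE
        rw [h3 E hE]
        have hE' := (Hpos E (mem_powerset.mp hE)).ne'
        by_cases hEF : E ∈ F
        · rw [if_pos hEF, if_pos hEF, div_pow, mul_pow, ← pow_mul, mul_comm E.card 2, pow_mul]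
          norm_num
          field_simp
        · rw [if_neg hEF, if_neg hEF]
          ring
      rw [sum_congr rfl h5, ← sum_filter]
      have h6 : P.powerset.filter (fun E => E ∈ F) = F := by
        ext E
        rw [mem_filter, mem_powerset]
        exact ⟨fun h => h.2, fun h => ⟨hFP E h, h⟩⟩
      rw [h6, ← sum_div, ← hG]
      field_simp
    rw [h2, h4]
    show 1 / G * G = 1
    field_simp

end Pool.Agent.H87T
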