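import Pool.Agent.H87T.Kusmin

/-!
The second difference test of van der Corput (discrete form).

PROOF PLAN.  `dif 2 φ n = (φ (n+2) - φ (n+1)) - (φ (n+1) - φ n)`, so `d n = φ (n+1) - φ n` is
increasing with increments in `[lam, α lam]`.  `θ = √lam <= 1 <= π`.  For an integer `m` let
`J_m = {n : n + 1 < I, 2πm - θ <= d n < 2π(m+1) - θ}`: consecutive integers (`d` monotone); nonempty for
at most `α lam I/(2π) + 2` values `m`.  In `J_m` the `n` with `d n < 2πm + θ` are at most `2θ/lam + 1` many
consecutive ones (trivial bound), on the others `kusmin` (applied to `n ↦ φ (n + n0)`) gives `9/θ` (the sum in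
`kusmin` has one more term; or apply it to the block itself).  Total at most
`(α lam I + 3) (2/√lam + 1 + 9/√lam + 1) + 1 <= 100 (α I √lam + 1/√lam)`.
-/

namespace Pool.Agent.H87T

open Finset

private theorem VdcTwo_norm (φ : ℕ → ℝ) (I : ℕ) : ‖∑ n ∈ range I, ei (φ n)‖ ≤ I := by
  refine (norm_sum_le _ _).trans ?_
  have h1 : ∀ n ∈ range I, ‖ei (φ n)‖ = 1 := by
    intro n _
    unfold ei
    exact Complex.norm_exp_ofReal_mul_I _
  rw [sum_congr rfl h1]
  simp

private theorem VdcTwo_mono {lam : ℝ} {φ : ℕ → ℝ} {I : ℕ}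
    (h : ∀ n, n + 2 < I → lam ≤ (φ (n + 2) - φ (n + 1)) - (φ (n + 1) - φ n)) {i j : ℕ}
    (hij : i ≤ j) (hj : j + 1 < I) :
    lam * ((j : ℝ) - i) ≤ (φ (j + 1) - φ j) - (φ (i + 1) - φ i) := by
  induction j, hij using Nat.le_induction with
  | base => simp
  | succ j hij ih =>
    have h1 := ih (by omega)
    have h2 := h j (by omega)
    push_cast
    have h3 : j + 1 + 1 = j + 2 := rfl
    rw [h3]
    linarith

private theorem VdcTwo_ind {θ lam : ℝ} (hθ : 0 < θ) (hθ1 : θ ≤ Real.pi) (hlam : 0 < lam) :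
    ∀ (k : ℕ) (φ : ℕ → ℝ) (I : ℕ) (m : ℤ),
      (∀ n, n + 2 < I → lam ≤ (φ (n + 2) - φ (n + 1)) - (φ (n + 1) - φ n)) →
      (∀ n, n + 1 < I → 2 * Real.pi * m - θ ≤ φ (n + 1) - φ n) →
      (∀ n, n + 1 < I → φ (n + 1) - φ n < 2 * Real.pi * (m + k) - θ) →
      ‖∑ n ∈ range I, ei (φ n)‖ ≤ k * (2 * θ / lam + 1 + 9 / θ) + 1 := by
  intro k
  induction k with
  | zero =>
    intro φ I m _ h1 h2
    have hI : I ≤ 1 := by
      by_contra hcon
      have e1 := h1 0 (by omega)
      have e2 := h2 0 (by omega)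
      push_cast at e2
      rw [add_zero] at e2
      linarith
    have e3 := VdcTwo_norm φ I
    have e4 : (I : ℝ) ≤ 1 := by exact_mod_cast hI
    push_cast
    linarith
  | succ k ih =>
    intro φ I m h h1 h2
    -- end of the first block
    have hex : ∃ n, ¬ (n + 1 < I ∧ φ (n + 1) - φ n < 2 * Real.pi * (m + 1) - θ) :=
      ⟨I, fun hh => by omega⟩
    classical
    set b := Nat.find hex with hb
    have hb1 : ∀ n, n < b → n + 1 < I ∧ φ (n + 1) - φ n < 2 * Real.pi * (m + 1) - θ := by
      intro n hn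
      exact not_not.mp (Nat.find_min hex hn)
    have hb2 : ¬ (b + 1 < I ∧ φ (b + 1) - φ b < 2 * Real.pi * (m + 1) - θ) := Nat.find_spec hex
    have hbI : b ≤ I := by
      by_contra hcon
      have := (hb1 I (by omega)).1
      omega
    -- the bad part of the first block
    have hex2 : ∃ n, ¬ (n < b ∧ φ (n + 1) - φ n < 2 * Real.pi * m + θ) :=
      ⟨b, fun hh => by omega⟩
    set a := Nat.find hex2 with ha
    have ha1 : ∀ n, n < a → n < b ∧ φ (n + 1) - φ n < 2 * Real.pi * m + θ := by
      intro n hn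
      exact not_not.mp (Nat.find_min hex2 hn)
    have ha2 : ¬ (a < b ∧ φ (a + 1) - φ a < 2 * Real.pi * m + θ) := Nat.find_spec hex2
    have hab : a ≤ b := by
      by_contra hcon
      have := (ha1 b (by omega)).1
      omega
    have haB : (a : ℝ) ≤ 2 * θ / lam + 1 := by
      rcases Nat.eq_zero_or_pos a with h0 | h0
      · rw [h0]
        push_cast
        positivity
      · have e1 := ha1 (a - 1) (by omega)
        have e2 := (hb1 (a - 1) e1.1).1
        have e3 := h1 0 (by omega)
        have e4 := VdcTwo_mono h (Nat.zero_le (a - 1)) e2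
        have e5 : ((a - 1 : ℕ) : ℝ) = (a : ℝ) - 1 := by
          rw [Nat.cast_sub h0]
          norm_num
        rw [e5] at e4
        push_cast at e4
        rw [sub_zero] at e4
        have e6 : lam * ((a : ℝ) - 1) ≤ 2 * θ := by
          have := e1.2
          linarith
        have e7 : (a : ℝ) - 1 ≤ 2 * θ / lam := by
          rw [le_div_iff₀ hlam]
          linarith
        linarith
    have hsplit1 : ∑ n ∈ range I, ei (φ n) =
        ∑ n ∈ range b, ei (φ n) + ∑ n ∈ range (I - b), ei (φ (b + n)) := by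
      rw [← sum_range_add (fun n => ei (φ n)) b (I - b)]
      congr 2
      omega
    have hsplit2 : ∑ n ∈ range b, ei (φ n) =
        ∑ n ∈ range a, ei (φ n) + ∑ n ∈ range (b - a), ei (φ (a + n)) := by
      rw [← sum_range_add (fun n => ei (φ n)) a (b - a)]
      congr 2
      omega
    have hp1 := VdcTwo_norm φ a
    have hp2 : ‖∑ n ∈ range (b - a), ei (φ (a + n))‖ ≤ 9 / θ := by
      apply kusmin (fun n => φ (a + n)) (b - a) m θ hθ hθ1
      · intro n hn
        show 2 * Real.pi * m + θ ≤ φ (a + (n + 1)) - φ (a + n) ∧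
          φ (a + (n + 1)) - φ (a + n) ≤ 2 * Real.pi * (m + 1) - θ
        rw [← add_assoc]
        have e1 := hb1 (a + n) (by omega)
        refine ⟨?_, e1.2.le⟩
        have e2 : 2 * Real.pi * m + θ ≤ φ (a + 1) - φ a := by
          by_contra hcon
          exact ha2 ⟨by omega, not_le.mp hcon⟩
        have e3 := VdcTwo_mono h (Nat.le_add_right a n) e1.1
        have e4 : 0 ≤ lam * (((a + n : ℕ) : ℝ) - a) := by
          push_cast
          rw [add_sub_cancel_left]
          positivity
        linarith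
      · intro n hn
        show φ (a + (n + 1)) - φ (a + n) ≤ φ (a + (n + 2)) - φ (a + (n + 1))
        have e1 := hb1 (a + n + 1) (by omega)
        have e2 := h (a + n) (by omega)
        have e3 : a + (n + 1) = a + n + 1 := by ring
        have e4 : a + (n + 2) = a + n + 2 := by ring
        rw [e3, e4]
        linarith
    have hp3 : ‖∑ n ∈ range (I - b), ei (φ (b + n))‖ ≤
        k * (2 * θ / lam + 1 + 9 / θ) + 1 := by
      apply ih (fun n => φ (b + n)) (I - b) (m + 1)
      · intro n hn
        have e2 := h (b + n) (by omega)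
        exact e2
      · intro n hn
        show 2 * Real.pi * ((m + 1 : ℤ) : ℝ) - θ ≤ φ (b + (n + 1)) - φ (b + n)
        rw [← add_assoc]
        have e1 : 2 * Real.pi * (m + 1) - θ ≤ φ (b + 1) - φ b := by
          by_contra hcon
          exact hb2 ⟨by omega, not_le.mp hcon⟩
        have e3 := VdcTwo_mono h (Nat.le_add_right b n) (by omega)
        have e4 : 0 ≤ lam * (((b + n : ℕ) : ℝ) - b) := by
          push_cast
          rw [add_sub_cancel_left]
          positivity
        push_cast
        linarith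
      · intro n hn
        show φ (b + (n + 1)) - φ (b + n) < 2 * Real.pi * (((m + 1 : ℤ) : ℝ) + k) - θ
        rw [← add_assoc]
        have e1 := h2 (b + n) (by omega)
        push_cast at e1 ⊢
        have e2 : (m : ℝ) + 1 + k = m + (k + 1) := by ring
        rw [e2]
        exact e1
    rw [hsplit1, hsplit2]
    have hn1 := norm_add_le (∑ n ∈ range a, ei (φ n) + ∑ n ∈ range (b - a), ei (φ (a + n)))
      (∑ n ∈ range (I - b), ei (φ (b + n)))
    have hn2 := norm_add_le (∑ n ∈ range a, ei (φ n)) (∑ n ∈ range (b - a), ei (φ (a + n)))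
    push_cast
    linarith

theorem vdc_two (φ : ℕ → ℝ) (I : ℕ) (lam α : ℝ) (hlam : 0 < lam) (hlam1 : lam ≤ 1) (hα : 1 ≤ α)
    (h : ∀ n, n + 2 < I → lam ≤ dif 2 φ n ∧ dif 2 φ n ≤ α * lam) :
    ‖∑ n ∈ range I, ei (φ n)‖ ≤ 100 * (α * I * Real.sqrt lam + 1 / Real.sqrt lam) := by
  have hdif : ∀ n, dif 2 φ n = (φ (n + 2) - φ (n + 1)) - (φ (n + 1) - φ n) := fun n => rfl
  have hpi := Real.pi_gt_three
  set θ := Real.sqrt lam with hθd
  have hθ : 0 < θ := Real.sqrt_pos.mpr hlam
  have hθ1 : θ ≤ 1 := Real.sqrt_le_one.mpr hlam1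
  have hθ2 : θ * θ = lam := Real.mul_self_sqrt hlam.le
  set d0 := φ 1 - φ 0 with hd0
  set m : ℤ := ⌊(d0 + θ) / (2 * Real.pi)⌋ with hm
  have h2pi : 0 < 2 * Real.pi := by positivity
  have hm1 : 2 * Real.pi * m - θ ≤ d0 := by
    have e1 : (m : ℝ) ≤ (d0 + θ) / (2 * Real.pi) := Int.floor_le _
    rw [le_div_iff₀ h2pi] at e1
    linarith
  have hm2 : d0 < 2 * Real.pi * (m + 1) - θ := by
    have e1 : (d0 + θ) / (2 * Real.pi) < (m : ℝ) + 1 := Int.lt_floor_add_one _
    rw [div_lt_iff₀ h2pi] at e1
    linarith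
  have hlo : ∀ n, n + 2 < I → lam ≤ (φ (n + 2) - φ (n + 1)) - (φ (n + 1) - φ n) := by
    intro n hn
    rw [← hdif]
    exact (h n hn).1
  have hup : ∀ n, n + 1 < I → φ (n + 1) - φ n ≤ d0 + α * lam * n := by
    intro n
    induction n with
    | zero => intro _; simp [hd0]
    | succ n ih =>
      intro hn
      have e1 := ih (by omega)
      have e2 := (h n (by omega)).2
      rw [hdif] at e2
      push_cast
      have e3 : n + 1 + 1 = n + 2 := rfl
      rw [e3]
      linarith
  set x := α * lam * I / (2 * Real.pi) with hx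
  have hαl : 0 < α * lam := by positivity
  have hx0 : 0 ≤ x := by positivity
  set k := 1 + ⌈x⌉₊ with hk
  have hk1 : (k : ℝ) ≤ 2 + x := by
    have := (Nat.ceil_lt_add_one hx0).le
    rw [hk]
    push_cast
    linarith
  have hk2 : 1 + x ≤ (k : ℝ) := by
    have := Nat.le_ceil x
    rw [hk]
    push_cast
    linarith
  have key := VdcTwo_ind hθ (by linarith) hlam k φ I m hlo
    (by
      intro n hn
      have e1 := VdcTwo_mono hlo (Nat.zero_le n) hn
      have e2 : 0 ≤ lam * ((n : ℝ) - ((0 : ℕ) : ℝ)) := by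
        push_cast
        rw [sub_zero]
        positivity
      have e3 : φ (0 + 1) - φ 0 = d0 := rfl
      rw [e3] at e1
      linarith)
    (by
      intro n hn
      have e1 := hup n hn
      have e2 : α * lam * n ≤ α * lam * I := by
        apply mul_le_mul_of_nonneg_left _ hαl.le
        exact_mod_cast (by omega : n ≤ I)
      have e3 : 2 * Real.pi * x = α * lam * I := by
        rw [hx]
        field_simp
      have e4 : 2 * Real.pi * (m + (1 + x)) ≤ 2 * Real.pi * (m + k) :=
        mul_le_mul_of_nonneg_left (by linarith) h2pi.le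
      have e5 : 2 * Real.pi * (m + (1 + x)) = 2 * Real.pi * (m + 1) + 2 * Real.pi * x := by ring
      linarith)
  have hθinv : 1 ≤ 1 / θ := by
    rw [le_div_iff₀ hθ]
    linarith
  have hB : 2 * θ / lam + 1 + 9 / θ ≤ 12 * (1 / θ) := by
    have e1 : 2 * θ / lam = 2 * (1 / θ) := by
      rw [← hθ2]
      field_simp
    have e2 : 9 / θ = 9 * (1 / θ) := by ring
    rw [e1, e2]
    linarith
  have hxθ : x * (1 / θ) ≤ α * I * θ / 6 := by
    have e1 : x * (1 / θ) = α * I * θ / (2 * Real.pi) := by
      rw [hx, ← hθ2]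
      field_simp
    rw [e1]
    apply div_le_div_of_nonneg_left (by positivity) (by norm_num)
    linarith
  have hB0 : 0 ≤ 2 * θ / lam + 1 + 9 / θ := by positivity
  have e1 : (k : ℝ) * (2 * θ / lam + 1 + 9 / θ) ≤ (2 + x) * (12 * (1 / θ)) :=
    mul_le_mul hk1 hB hB0 (by linarith)
  have e2 : (2 + x) * (12 * (1 / θ)) = 24 * (1 / θ) + 12 * (x * (1 / θ)) := by ring
  have e3 : 0 ≤ α * I * θ := by positivity
  linarith

end Pool.Agent.H87T
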