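import Pool.Agent.H87T.Defs

/-!
Mean value theorem for iterated differences.

PROOF PLAN.  Induction on `K`.  `dif (K+1) φ = dif K (Δφ)`, `Δφ i = F 0 (a + m i)` with
`F k x = G k (x + m) - G k x`; `F k` has the derivative `F (k+1)`, and `F K x = m G (K+1) ξ`,
`x < ξ < x + m`, lies in `[m L, m U]` for `a + m n <= x <= a + m (n + K)`.
-/

namespace Pool.Agent.H87T

open Finset

theorem iter_diff (K : ℕ) : ∀ (G : ℕ → ℝ → ℝ) (a m : ℝ), 0 < a → 0 < m →
    (∀ k < K, ∀ x : ℝ, 0 < x → HasDerivAt (G k) (G (k + 1) x) x) →
    ∀ (n : ℕ) (L U : ℝ),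
      (∀ x : ℝ, a + m * n ≤ x → x ≤ a + m * (n + K) → L ≤ G K x ∧ G K x ≤ U) →
    m ^ K * L ≤ dif K (fun i : ℕ => G 0 (a + m * i)) n ∧
      dif K (fun i : ℕ => G 0 (a + m * i)) n ≤ m ^ K * U := by
  induction K with
  | zero =>
    intro G a m ha hm _ n L U h
    have := h (a + m * n) le_rfl (by simp)
    simpa [dif] using this
  | succ K ih =>
    intro G a m ha hm hG n L U h
    have h1 : dif (K + 1) (fun i : ℕ => G 0 (a + m * i)) n =
        dif K (fun i : ℕ => (fun k x => G k (x + m) - G k x) 0 (a + m * i)) n := by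
      show dif K (fun i : ℕ => G 0 (a + m * ((i + 1 : ℕ) : ℝ)) - G 0 (a + m * i)) n = _
      congr 1
      funext i
      have : a + m * ((i + 1 : ℕ) : ℝ) = a + m * i + m := by push_cast; ring
      simp only [this]
    have h2 := ih (fun k x => G k (x + m) - G k x) a m ha hm (by
        intro k hk x hx
        have h3 : HasDerivAt (fun y => G k (y + m)) (G (k + 1) (x + m)) x := by
          have := (hG k (by omega) (x + m) (by linarith)).comp_add_const x m
          exact this
        exact h3.sub (hG k (by omega) x hx)) n (m * L) (m * U) (by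
        intro x hx1 hx2
        have hx0 : 0 < x := by
          have : 0 ≤ m * (n : ℝ) := by positivity
          linarith
        obtain ⟨ξ, hξ, he⟩ := exists_hasDerivAt_eq_slope (G K) (fun y => G (K + 1) y)
          (show x < x + m by linarith)
          (fun y hy => (hG K (by omega) y (by linarith [hy.1])).continuousAt.continuousWithinAt)
          (fun y hy => hG K (by omega) y (by linarith [hy.1]))
        have he' : G K (x + m) - G K x = m * G (K + 1) ξ := by
          rw [he, add_sub_cancel_left, mul_div_cancel₀ _ hm.ne']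
        have hb := h ξ (by linarith [hξ.1]) (by
          push_cast
          have : x + m ≤ a + m * (n + (K + 1)) := by linarith
          linarith [hξ.2])
        show m * L ≤ G K (x + m) - G K x ∧ G K (x + m) - G K x ≤ m * U
        rw [he']
        exact ⟨mul_le_mul_of_nonneg_left hb.1 hm.le, mul_le_mul_of_nonneg_left hb.2 hm.le⟩)
    rw [h1]
    constructor
    · calc m ^ (K + 1) * L = m ^ K * (m * L) := by ring
        _ ≤ _ := h2.1
    · calc _ ≤ m ^ K * (m * U) := h2.2
        _ = m ^ (K + 1) * U := by ring

end Pool.Agent.H87T
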