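import Pool.Agent.H87T.Defs

/-!
Weyl - van der Corput inequality.

PROOF PLAN.  Extend `a` by `0` outside `range I` (to the integers, or shift).  `Hs ∑ a = ∑_m ∑_{h < Hs} a (m + h)`,
`m` running over an interval of length `I + Hs`; Cauchy-Schwarz:
`Hs^2 |∑ a|^2 <= (I + Hs) ∑_m |∑_{h < Hs} a (m+h)|^2`, and expanding the square gives
`Hs ∑ |a n|^2 + 2 Re ∑_{1 <= h < Hs} (Hs - h) ∑_n a (n+h) conj (a n)`.
-/

namespace Pool.Agent.H87T

open Finset

/-- The shifted sequence, extended by zero. -/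
private noncomputable def AProc_c (a : ℕ → ℂ) (I h m : ℕ) : ℂ :=
  if h ≤ m ∧ m - h < I then a (m - h) else 0

private theorem AProc_sum (a : ℕ → ℂ) (I Hs h : ℕ) (hh : h < Hs) :
    ∑ m ∈ range (I + Hs), AProc_c a I h m = ∑ n ∈ range I, a n := by
  unfold AProc_c
  rw [← Finset.sum_filter]
  refine Finset.sum_nbij' (fun m => m - h) (fun n => n + h) ?_ ?_ ?_ ?_ ?_
  · intro m hm
    rw [mem_filter] at hm
    exact mem_range.2 hm.2.2
  · intro n hn
    rw [mem_range] at hn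
    rw [mem_filter, mem_range]
    refine ⟨by omega, by omega, by omega⟩
  · intro m hm
    rw [mem_filter] at hm
    try dsimp only
    omega
  · intro n _
    try dsimp only
    omega
  · intro m _
    rfl

private theorem AProc_corr (a : ℕ → ℂ) (I Hs h h' : ℕ) (hh : h ≤ h') (hh' : h' < Hs) :
    ∑ m ∈ range (I + Hs), AProc_c a I h m * (starRingEnd ℂ) (AProc_c a I h' m) =
      ∑ n ∈ range (I - (h' - h)), a (n + (h' - h)) * (starRingEnd ℂ) (a n) := by
  have h1 : ∀ m, AProc_c a I h m * (starRingEnd ℂ) (AProc_c a I h' m) =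
      if h' ≤ m ∧ m - h < I then a (m - h) * (starRingEnd ℂ) (a (m - h')) else 0 := by
    intro m
    unfold AProc_c
    by_cases c1 : h' ≤ m ∧ m - h < I
    · rw [if_pos c1, if_pos ⟨by omega, c1.2⟩, if_pos ⟨c1.1, by omega⟩]
    · rw [if_neg c1]
      by_cases c2 : h ≤ m ∧ m - h < I
      · rw [if_neg (fun c3 : h' ≤ m ∧ m - h' < I => c1 ⟨c3.1, c2.2⟩), map_zero, mul_zero]
      · rw [if_neg c2, zero_mul]
  rw [Finset.sum_congr rfl fun m _ => h1 m, ← Finset.sum_filter]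
  refine Finset.sum_nbij' (fun m => m - h') (fun n => n + h') ?_ ?_ ?_ ?_ ?_
  · intro m hm
    rw [mem_filter] at hm
    rw [mem_range]
    try dsimp only
    omega
  · intro n hn
    rw [mem_range] at hn
    rw [mem_filter, mem_range]
    refine ⟨by omega, by omega, by omega⟩
  · intro m hm
    rw [mem_filter] at hm
    try dsimp only
    omega
  · intro n _
    try dsimp only
    omega
  · intro m hm
    rw [mem_filter] at hm
    try dsimp only
    have e : m - h' + (h' - h) = m - h := by omega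
    rw [e]

private theorem AProc_norm (a : ℕ → ℂ) (I Hs h h' : ℕ) (hh : h < Hs) (hh' : h' < Hs) :
    ‖∑ m ∈ range (I + Hs), AProc_c a I h m * (starRingEnd ℂ) (AProc_c a I h' m)‖ =
      ‖∑ n ∈ range (I - (h' - h + (h - h'))),
        a (n + (h' - h + (h - h'))) * (starRingEnd ℂ) (a n)‖ := by
  rcases le_total h h' with hl | hl
  · rw [AProc_corr a I Hs h h' hl hh']
    have e : h - h' = 0 := by omega
    rw [e, add_zero]
  · have e : h' - h = 0 := by omega
    rw [e, zero_add, ← AProc_corr a I Hs h' h hl hh, ← RCLike.norm_conj, map_sum]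
    congr 1
    refine Finset.sum_congr rfl fun m _ => ?_
    rw [map_mul, Complex.conj_conj, mul_comm]

/-- `h' ↦ |h - h'|` takes every value at most twice. -/
private theorem AProc_two (T : ℕ → ℝ) (hT : ∀ k, 0 ≤ T k) (Hs h : ℕ) (hh : h < Hs) :
    ∑ h' ∈ range Hs, T (h' - h + (h - h')) ≤ 2 * ∑ k ∈ range Hs, T k := by
  rw [← Finset.sum_filter_add_sum_filter_not (range Hs) (fun h' => h ≤ h'), two_mul]
  refine add_le_add ?_ ?_
  · have h1 : ∑ h' ∈ range Hs with h ≤ h', T (h' - h + (h - h')) =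
        ∑ k ∈ ((range Hs).filter fun h' => h ≤ h').image (fun h' => h' - h), T k := by
      rw [Finset.sum_image]
      · refine Finset.sum_congr rfl fun x hx => ?_
        rw [mem_filter] at hx
        have e : h - x = 0 := by omega
        rw [e, add_zero]
      · intro x hx y hy hxy
        have hx2 := (mem_filter.1 (Finset.mem_coe.1 hx)).2
        have hy2 := (mem_filter.1 (Finset.mem_coe.1 hy)).2
        dsimp only at hxy
        omega
    rw [h1]
    refine Finset.sum_le_sum_of_subset_of_nonneg ?_ fun k _ _ => hT k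
    intro k hk
    obtain ⟨x, hx, rfl⟩ := mem_image.1 hk
    rw [mem_filter, mem_range] at hx
    exact mem_range.2 (by omega)
  · have h1 : ∑ h' ∈ range Hs with ¬ h ≤ h', T (h' - h + (h - h')) =
        ∑ k ∈ ((range Hs).filter fun h' => ¬ h ≤ h').image (fun h' => h - h'), T k := by
      rw [Finset.sum_image]
      · refine Finset.sum_congr rfl fun x hx => ?_
        rw [mem_filter] at hx
        have e : x - h = 0 := by omega
        rw [e, zero_add]
      · intro x hx y hy hxy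
        have hx2 := (mem_filter.1 (Finset.mem_coe.1 hx)).2
        have hy2 := (mem_filter.1 (Finset.mem_coe.1 hy)).2
        dsimp only at hxy
        omega
    rw [h1]
    refine Finset.sum_le_sum_of_subset_of_nonneg ?_ fun k _ _ => hT k
    intro k hk
    obtain ⟨x, hx, rfl⟩ := mem_image.1 hk
    exact mem_range.2 (by omega)

private theorem AProc_sq (a : ℕ → ℂ) (I Hs : ℕ) :
    ∑ m ∈ range (I + Hs), ‖∑ h ∈ range Hs, AProc_c a I h m‖ ^ 2 ≤
      ∑ h ∈ range Hs, ∑ h' ∈ range Hs, ‖∑ n ∈ range (I - (h' - h + (h - h'))),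
        a (n + (h' - h + (h - h'))) * (starRingEnd ℂ) (a n)‖ := by
  have h1 : ((∑ m ∈ range (I + Hs), ‖∑ h ∈ range Hs, AProc_c a I h m‖ ^ 2 : ℝ) : ℂ) =
      ∑ h ∈ range Hs, ∑ h' ∈ range Hs,
        ∑ m ∈ range (I + Hs), AProc_c a I h m * (starRingEnd ℂ) (AProc_c a I h' m) := by
    push_cast
    rw [Finset.sum_congr rfl fun h _ => Finset.sum_comm, Finset.sum_comm]
    refine Finset.sum_congr rfl fun m _ => ?_
    have h2 := RCLike.mul_conj (K := ℂ) (∑ h ∈ range Hs, AProc_c a I h m)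
    rw [map_sum, Finset.sum_mul_sum] at h2
    exact h2.symm
  have h2 : ‖((∑ m ∈ range (I + Hs), ‖∑ h ∈ range Hs, AProc_c a I h m‖ ^ 2 : ℝ) : ℂ)‖ =
      ∑ m ∈ range (I + Hs), ‖∑ h ∈ range Hs, AProc_c a I h m‖ ^ 2 := by
    rw [Complex.norm_real, Real.norm_eq_abs, abs_of_nonneg]
    exact Finset.sum_nonneg fun m _ => by positivity
  rw [← h2, h1]
  refine (norm_sum_le _ _).trans (Finset.sum_le_sum fun h hh => ?_)
  refine (norm_sum_le _ _).trans (Finset.sum_le_sum fun h' hh' => ?_)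
  exact (AProc_norm a I Hs h h' (mem_range.1 hh) (mem_range.1 hh')).le

theorem a_process (a : ℕ → ℂ) (I Hs : ℕ) (hH : 1 ≤ Hs) (ha : ∀ n < I, ‖a n‖ ≤ 1) :
    ‖∑ n ∈ range I, a n‖ ^ 2 ≤ 2 * ((I : ℝ) + Hs) / Hs *
      (I + ∑ h ∈ Ico 1 Hs, ‖∑ n ∈ range (I - h), a (n + h) * (starRingEnd ℂ) (a n)‖) := by
  obtain ⟨T, hT⟩ : ∃ T : ℕ → ℝ, T = fun k =>
    ‖∑ n ∈ range (I - k), a (n + k) * (starRingEnd ℂ) (a n)‖ := ⟨_, rfl⟩
  have hT0 : ∀ k, 0 ≤ T k := fun k => by rw [hT]; exact norm_nonneg _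
  have hTI : T 0 ≤ I := by
    rw [hT]
    dsimp only
    refine (norm_sum_le _ _).trans ?_
    calc ∑ n ∈ range (I - 0), ‖a (n + 0) * (starRingEnd ℂ) (a n)‖
        ≤ ∑ n ∈ range (I - 0), (1 : ℝ) := by
          refine Finset.sum_le_sum fun n hn => ?_
          have hn' : n < I := by simpa using hn
          rw [norm_mul, RCLike.norm_conj, add_zero]
          exact mul_le_one₀ (ha n hn') (norm_nonneg _) (ha n hn')
      _ = I := by simp
  have hH0 : (0 : ℝ) < Hs := by exact_mod_cast hH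
  have hsum : ∑ k ∈ range Hs, T k = T 0 + ∑ k ∈ Ico 1 Hs, T k := by
    rw [Finset.range_eq_Ico, Finset.sum_eq_sum_Ico_succ_bot (by omega)]
  have key : ∑ m ∈ range (I + Hs), ‖∑ h ∈ range Hs, AProc_c a I h m‖ ^ 2 ≤
      Hs * (2 * (I + ∑ k ∈ Ico 1 Hs, T k)) := by
    refine (AProc_sq a I Hs).trans ?_
    calc ∑ h ∈ range Hs, ∑ h' ∈ range Hs, ‖∑ n ∈ range (I - (h' - h + (h - h'))),
          a (n + (h' - h + (h - h'))) * (starRingEnd ℂ) (a n)‖
        = ∑ h ∈ range Hs, ∑ h' ∈ range Hs, T (h' - h + (h - h')) := by rw [hT]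
      _ ≤ ∑ h ∈ range Hs, 2 * ∑ k ∈ range Hs, T k :=
          Finset.sum_le_sum fun h hh => AProc_two T hT0 Hs h (mem_range.1 hh)
      _ = Hs * (2 * ∑ k ∈ range Hs, T k) := by
          rw [Finset.sum_const, card_range, nsmul_eq_mul]
      _ ≤ Hs * (2 * (I + ∑ k ∈ Ico 1 Hs, T k)) := by
          rw [hsum]
          refine mul_le_mul_of_nonneg_left ?_ hH0.le
          linarith
  -- the sum of all shifts
  have h1 : (Hs : ℂ) * ∑ n ∈ range I, a n =
      ∑ m ∈ range (I + Hs), ∑ h ∈ range Hs, AProc_c a I h m := by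
    rw [Finset.sum_comm, Finset.sum_congr rfl fun h hh => AProc_sum a I Hs h (mem_range.1 hh),
      Finset.sum_const, card_range, nsmul_eq_mul]
  have h2 : (Hs : ℝ) * ‖∑ n ∈ range I, a n‖ ≤
      ∑ m ∈ range (I + Hs), ‖∑ h ∈ range Hs, AProc_c a I h m‖ := by
    have e : (Hs : ℝ) * ‖∑ n ∈ range I, a n‖ = ‖(Hs : ℂ) * ∑ n ∈ range I, a n‖ := by
      rw [norm_mul, Complex.norm_natCast]
    rw [e, h1]
    exact norm_sum_le _ _
  have h3 : ((Hs : ℝ) * ‖∑ n ∈ range I, a n‖) ^ 2 ≤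
      ((I : ℝ) + Hs) * (Hs * (2 * (I + ∑ k ∈ Ico 1 Hs, T k))) := by
    have e1 := pow_le_pow_left₀ (by positivity) h2 2
    have e2 : (∑ m ∈ range (I + Hs), ‖∑ h ∈ range Hs, AProc_c a I h m‖) ^ 2 ≤
        ((range (I + Hs)).card : ℝ) *
          ∑ m ∈ range (I + Hs), ‖∑ h ∈ range Hs, AProc_c a I h m‖ ^ 2 :=
      sq_sum_le_card_mul_sum_sq
    rw [card_range] at e2
    push_cast at e2
    exact e1.trans (e2.trans (mul_le_mul_of_nonneg_left key (by positivity)))
  have h4 : ∑ h ∈ Ico 1 Hs, ‖∑ n ∈ range (I - h), a (n + h) * (starRingEnd ℂ) (a n)‖ =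
      ∑ k ∈ Ico 1 Hs, T k := by rw [hT]
  rw [h4]
  have h5 : 2 * ((I : ℝ) + Hs) / Hs * (I + ∑ k ∈ Ico 1 Hs, T k) =
      (((I : ℝ) + Hs) * (Hs * (2 * (I + ∑ k ∈ Ico 1 Hs, T k)))) / (Hs : ℝ) ^ 2 := by
    field_simp
  rw [h5, le_div_iff₀ (by positivity)]
  calc ‖∑ n ∈ range I, a n‖ ^ 2 * (Hs : ℝ) ^ 2 = ((Hs : ℝ) * ‖∑ n ∈ range I, a n‖) ^ 2 := by ring
    _ ≤ _ := h3

end Pool.Agent.H87T
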