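import Pool.Agent.H87T.VdcTwo
import Pool.Agent.H87T.AProc

/-!
The `K`-th difference test, with a power saving.

PROOF PLAN.  Induction on `K >= 2`.  `K = 2`: `vdc_two` gives
`100 (α I I^(-A2/2) + I^(A1/2)) <= 200 α I^(1-c)`, `c = min (A2/2) (1 - A1/2)`.
`K → K + 1`: use the case `K` with `A1`, `A2/2`, `α`.  For `I = 1` trivial; for `I >= 2`,
`I^(-A1) <= lam <= I^(-A2)` forces `A2 <= A1 < 2`.  `Hs = ⌈I^(A2/2)⌉₊ <= I`.  For `1 <= h < Hs`
(so `h <= I^(A2/2)`) put `φ_h n = φ (n+h) - φ n`: `dif K φ_h n = ∑_{s < h} dif (K+1) φ (n+s)` lies in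
`[h lam, α h lam]` for `n + K < I' - h`, and `I^(-A1) <= h lam <= I^(-A2/2)`.  So `a_process` (for `I'`)
gives `|∑|^2 <= (4 I/Hs) (I + Hs C' I^(1-c')) <= 4 I^(2 - A2/2) + 4 C' I^(2 - c')`
(if `I' < Hs` use the trivial bound `I' <= Hs <= 2 I^(A2/2)`, or note that `a_process` is fine as
`I' + Hs <= 2 I`).
-/

namespace Pool.Agent.H87T

open Finset

private theorem VdcK_norm (θ : ℝ) : ‖ei θ‖ = 1 := by
  unfold ei
  exact Complex.norm_exp_ofReal_mul_I θ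

private theorem VdcK_mul (a b : ℝ) : ei a * (starRingEnd ℂ) (ei b) = ei (a - b) := by
  unfold ei
  rw [← Complex.exp_conj, map_mul, Complex.conj_ofReal, Complex.conj_I, ← Complex.exp_add]
  congr 1
  push_cast
  ring

private theorem VdcK_triv (φ : ℕ → ℝ) (I : ℕ) : ‖∑ n ∈ range I, ei (φ n)‖ ≤ I := by
  refine (norm_sum_le _ _).trans ?_
  rw [sum_congr rfl fun n _ => VdcK_norm (φ n)]
  simp

private theorem VdcK_dif_sum : ∀ (K : ℕ) (ψ : ℕ → ℝ) (h n : ℕ),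
    dif K (fun n => ∑ s ∈ range h, ψ (n + s)) n = ∑ s ∈ range h, dif K ψ (n + s)
  | 0, _, _, _ => rfl
  | K + 1, ψ, h, n => by
    have e1 : (fun n => ∑ s ∈ range h, ψ (n + 1 + s) - ∑ s ∈ range h, ψ (n + s)) =
        fun n => ∑ s ∈ range h, (fun m => ψ (m + 1) - ψ m) (n + s) := by
      funext n
      rw [← sum_sub_distrib]
      refine sum_congr rfl fun s _ => ?_
      show ψ (n + 1 + s) - ψ (n + s) = ψ (n + s + 1) - ψ (n + s)
      rw [show n + 1 + s = n + s + 1 by ring]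
    show dif K (fun n => ∑ s ∈ range h, ψ (n + 1 + s) - ∑ s ∈ range h, ψ (n + s)) n =
      ∑ s ∈ range h, dif K (fun m => ψ (m + 1) - ψ m) (n + s)
    rw [e1]
    exact VdcK_dif_sum K (fun m => ψ (m + 1) - ψ m) h n

private theorem VdcK_dif (K : ℕ) (φ : ℕ → ℝ) (h n : ℕ) :
    dif K (fun n => φ (n + h) - φ n) n = ∑ s ∈ range h, dif (K + 1) φ (n + s) := by
  have e1 : (fun n => φ (n + h) - φ n) =
      fun n => ∑ s ∈ range h, (fun m => φ (m + 1) - φ m) (n + s) := by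
    funext n
    have h1 := sum_range_sub (fun s => φ (n + s)) h
    rw [add_zero] at h1
    rw [← h1]
    rfl
  rw [e1, VdcK_dif_sum K (fun m => φ (m + 1) - φ m) h n]
  rfl

private theorem VdcK_two (A1 A2 α : ℝ) (hA1 : A1 < 2) (hA2 : 0 < A2) (hα : 1 ≤ α) :
    ∃ C c : ℝ, 0 < C ∧ 0 < c ∧ ∀ (I I' : ℕ) (lam : ℝ) (φ : ℕ → ℝ), 1 ≤ I → I' ≤ I →
      (I : ℝ) ^ (-A1) ≤ lam → lam ≤ (I : ℝ) ^ (-A2) →
      (∀ n, n + 2 < I' → lam ≤ dif 2 φ n ∧ dif 2 φ n ≤ α * lam) →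
      ‖∑ n ∈ range I', ei (φ n)‖ ≤ C * (I : ℝ) ^ (1 - c) := by
  refine ⟨100 * (α + 1), min (A2 / 2) (1 - A1 / 2), by linarith,
    lt_min (by linarith) (by linarith), ?_⟩
  intro I I' lam φ hI hI' h1 h2 h3
  have hI1 : (1 : ℝ) ≤ I := by exact_mod_cast hI
  have hI0 : (0 : ℝ) < I := by linarith
  have hlam : 0 < lam := lt_of_lt_of_le (Real.rpow_pos_of_pos hI0 _) h1
  have hlam1 : lam ≤ 1 := h2.trans (Real.rpow_le_one_of_one_le_of_nonpos hI1 (by linarith))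
  refine (vdc_two φ I' lam α hlam hlam1 hα h3).trans ?_
  have hs1 : Real.sqrt lam ≤ (I : ℝ) ^ (-(A2 / 2)) := by
    have e1 : (I : ℝ) ^ (-(A2 / 2)) = Real.sqrt ((I : ℝ) ^ (-A2)) := by
      rw [Real.sqrt_eq_rpow, ← Real.rpow_mul hI0.le]
      congr 1
      ring
    rw [e1]
    exact Real.sqrt_le_sqrt h2
  have hs2 : 1 / Real.sqrt lam ≤ (I : ℝ) ^ (A1 / 2) := by
    have e1 : (I : ℝ) ^ (A1 / 2) = 1 / Real.sqrt ((I : ℝ) ^ (-A1)) := by
      rw [Real.sqrt_eq_rpow, ← Real.rpow_mul hI0.le, one_div, ← Real.rpow_neg hI0.le]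
      congr 1
      ring
    rw [e1]
    exact one_div_le_one_div_of_le (Real.sqrt_pos.2 (Real.rpow_pos_of_pos hI0 _))
      (Real.sqrt_le_sqrt h1)
  have hI'' : (I' : ℝ) ≤ I := by exact_mod_cast hI'
  have e2 : α * I' * Real.sqrt lam ≤ α * (I : ℝ) ^ (1 - min (A2 / 2) (1 - A1 / 2)) := by
    have e3 : (I' : ℝ) * Real.sqrt lam ≤ (I : ℝ) ^ (1 - min (A2 / 2) (1 - A1 / 2)) := by
      refine (mul_le_mul hI'' hs1 (Real.sqrt_nonneg _) hI0.le).trans ?_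
      have e4 : (I : ℝ) * (I : ℝ) ^ (-(A2 / 2)) = (I : ℝ) ^ (1 - A2 / 2) := by
        rw [sub_eq_add_neg, Real.rpow_add hI0, Real.rpow_one]
      rw [e4]
      refine Real.rpow_le_rpow_of_exponent_le hI1 ?_
      have := min_le_left (A2 / 2) (1 - A1 / 2)
      linarith
    rw [mul_assoc]
    exact mul_le_mul_of_nonneg_left e3 (by linarith)
  have e5 : 1 / Real.sqrt lam ≤ (I : ℝ) ^ (1 - min (A2 / 2) (1 - A1 / 2)) := by
    refine hs2.trans (Real.rpow_le_rpow_of_exponent_le hI1 ?_)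
    have := min_le_right (A2 / 2) (1 - A1 / 2)
    linarith
  have e6 : 100 * (α + 1) * (I : ℝ) ^ (1 - min (A2 / 2) (1 - A1 / 2)) =
      100 * (α * (I : ℝ) ^ (1 - min (A2 / 2) (1 - A1 / 2)) +
        (I : ℝ) ^ (1 - min (A2 / 2) (1 - A1 / 2))) := by ring
  rw [e6]
  linarith

private theorem VdcK_step (K : ℕ) (A1 A2 α C' c' : ℝ) (hA1 : A1 < 2) (hA2 : 0 < A2)
    (hC' : 0 < C')
    (ih : ∀ (I I' : ℕ) (lam : ℝ) (φ : ℕ → ℝ), 1 ≤ I → I' ≤ I →
      (I : ℝ) ^ (-A1) ≤ lam → lam ≤ (I : ℝ) ^ (-(A2 / 2)) →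
      (∀ n, n + K < I' → lam ≤ dif K φ n ∧ dif K φ n ≤ α * lam) →
      ‖∑ n ∈ range I', ei (φ n)‖ ≤ C' * (I : ℝ) ^ (1 - c'))
    (I I' : ℕ) (lam : ℝ) (φ : ℕ → ℝ) (hI : 1 ≤ I) (hI' : I' ≤ I)
    (h1 : (I : ℝ) ^ (-A1) ≤ lam) (h2 : lam ≤ (I : ℝ) ^ (-A2))
    (h3 : ∀ n, n + (K + 1) < I' → lam ≤ dif (K + 1) φ n ∧ dif (K + 1) φ n ≤ α * lam) :
    ‖∑ n ∈ range I', ei (φ n)‖ ≤
      2 * (1 + C') * (I : ℝ) ^ (1 - min (A2 / 4) (c' / 2)) := by
  have hI1 : (1 : ℝ) ≤ I := by exact_mod_cast hI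
  have hI0 : (0 : ℝ) < I := by linarith
  have hI'' : (I' : ℝ) ≤ I := by exact_mod_cast hI'
  have hlam : 0 < lam := lt_of_lt_of_le (Real.rpow_pos_of_pos hI0 _) h1
  rcases hI.eq_or_lt with hI2 | hI2
  · have e1 := VdcK_triv φ I'
    rw [← hI2, Nat.cast_one, Real.one_rpow, mul_one]
    rw [← hI2, Nat.cast_one] at hI''
    linarith
  · have hI2' : (1 : ℝ) < I := by exact_mod_cast hI2
    have hA : A2 ≤ A1 := by
      have e1 := (Real.rpow_le_rpow_left_iff hI2').1 (h1.trans h2)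
      linarith
    obtain ⟨Hs, hHs⟩ : ∃ Hs : ℕ, Hs = ⌈(I : ℝ) ^ (A2 / 2)⌉₊ := ⟨_, rfl⟩
    have hx1 : (1 : ℝ) ≤ (I : ℝ) ^ (A2 / 2) := Real.one_le_rpow hI1 (by linarith)
    have hH1 : (I : ℝ) ^ (A2 / 2) ≤ Hs := by
      rw [hHs]
      exact Nat.le_ceil _
    have hH2 : 1 ≤ Hs := by
      have e1 : (1 : ℝ) ≤ Hs := hx1.trans hH1
      exact_mod_cast e1
    have hH3 : Hs ≤ I := by
      rw [hHs]
      refine Nat.ceil_le.2 ?_
      calc (I : ℝ) ^ (A2 / 2) ≤ (I : ℝ) ^ (1 : ℝ) :=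
            Real.rpow_le_rpow_of_exponent_le hI1 (by linarith)
        _ = I := Real.rpow_one _
    have hH0 : (0 : ℝ) < Hs := by linarith
    have hH3' : (Hs : ℝ) ≤ I := by exact_mod_cast hH3
    have hX : 0 ≤ (I : ℝ) ^ (1 - c') := (Real.rpow_pos_of_pos hI0 _).le
    have hterm : ∀ h ∈ Ico 1 Hs, ‖∑ n ∈ range (I' - h), ei (φ (n + h)) *
        (starRingEnd ℂ) (ei (φ n))‖ ≤ C' * (I : ℝ) ^ (1 - c') := by
      intro h hh
      rw [mem_Ico] at hh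
      have hh1 : (1 : ℝ) ≤ h := by exact_mod_cast hh.1
      have hh2 : (h : ℝ) < (I : ℝ) ^ (A2 / 2) := by
        have e1 := hh.2
        rw [hHs] at e1
        exact Nat.lt_ceil.1 e1
      rw [sum_congr rfl fun n _ => VdcK_mul (φ (n + h)) (φ n)]
      refine ih I (I' - h) (h * lam) (fun n => φ (n + h) - φ n) hI ((Nat.sub_le _ _).trans hI')
        ?_ ?_ ?_
      · refine h1.trans ?_
        have e1 := mul_le_mul_of_nonneg_right hh1 hlam.le
        rw [one_mul] at e1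
        exact e1
      · have e1 : (h : ℝ) * lam ≤ (I : ℝ) ^ (A2 / 2) * (I : ℝ) ^ (-A2) :=
          mul_le_mul hh2.le h2 hlam.le (by linarith)
        refine e1.trans ?_
        rw [← Real.rpow_add hI0]
        refine le_of_eq ?_
        congr 1
        ring
      · intro n hn
        rw [VdcK_dif]
        have e1 : ∀ s ∈ range h, lam ≤ dif (K + 1) φ (n + s) ∧
            dif (K + 1) φ (n + s) ≤ α * lam := by
          intro s hs
          rw [mem_range] at hs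
          exact h3 (n + s) (by omega)
        constructor
        · have e2 := card_nsmul_le_sum (range h) (fun s => dif (K + 1) φ (n + s)) lam
            fun s hs => (e1 s hs).1
          rw [card_range, nsmul_eq_mul] at e2
          exact e2
        · have e2 := sum_le_card_nsmul (range h) (fun s => dif (K + 1) φ (n + s)) (α * lam)
            fun s hs => (e1 s hs).2
          rw [card_range, nsmul_eq_mul] at e2
          calc ∑ s ∈ range h, dif (K + 1) φ (n + s) ≤ h * (α * lam) := e2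
            _ = α * (h * lam) := by ring
    have hsum : ∑ h ∈ Ico 1 Hs, ‖∑ n ∈ range (I' - h), ei (φ (n + h)) *
        (starRingEnd ℂ) (ei (φ n))‖ ≤ Hs * (C' * (I : ℝ) ^ (1 - c')) := by
      refine (sum_le_card_nsmul _ _ _ hterm).trans ?_
      rw [Nat.card_Ico, nsmul_eq_mul]
      refine mul_le_mul_of_nonneg_right ?_ (mul_nonneg hC'.le hX)
      exact_mod_cast Nat.sub_le Hs 1
    have hap := a_process (fun n => ei (φ n)) I' Hs hH2 fun n _ => (VdcK_norm (φ n)).le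
    have hY : (0 : ℝ) ≤ I' := Nat.cast_nonneg _
    have hb1 : 2 * ((I' : ℝ) + Hs) / Hs ≤ 4 * I / Hs := by
      refine div_le_div_of_nonneg_right ?_ hH0.le
      linarith
    have hb2 : (I' : ℝ) + ∑ h ∈ Ico 1 Hs, ‖∑ n ∈ range (I' - h), ei (φ (n + h)) *
        (starRingEnd ℂ) (ei (φ n))‖ ≤ I + Hs * (C' * (I : ℝ) ^ (1 - c')) := add_le_add hI'' hsum
    have hb3 : ‖∑ n ∈ range I', ei (φ n)‖ ^ 2 ≤
        4 * I / Hs * (I + Hs * (C' * (I : ℝ) ^ (1 - c'))) := by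
      refine hap.trans (mul_le_mul hb1 hb2 ?_ ?_)
      · exact add_nonneg hY (sum_nonneg fun _ _ => norm_nonneg _)
      · positivity
    have hb4 : 4 * I / Hs * (I + Hs * (C' * (I : ℝ) ^ (1 - c'))) =
        4 * (I * I / Hs) + 4 * C' * (I * (I : ℝ) ^ (1 - c')) := by
      field_simp
    have hc1 := min_le_left (A2 / 4) (c' / 2)
    have hc2 := min_le_right (A2 / 4) (c' / 2)
    obtain ⟨c, hc⟩ : ∃ c, c = min (A2 / 4) (c' / 2) := ⟨_, rfl⟩
    rw [← hc] at hc1 hc2 ⊢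
    have hsq : ((I : ℝ) ^ (1 - c)) ^ 2 = (I : ℝ) ^ (2 - 2 * c) := by
      rw [← Real.rpow_natCast, ← Real.rpow_mul hI0.le]
      congr 1
      push_cast
      ring
    have hb5 : (I : ℝ) * I / Hs ≤ ((I : ℝ) ^ (1 - c)) ^ 2 := by
      have e1 : (I : ℝ) * I / Hs ≤ I * I / (I : ℝ) ^ (A2 / 2) :=
        div_le_div_of_nonneg_left (by positivity) (by linarith) hH1
      refine e1.trans ?_
      have e2 : (I : ℝ) * I / (I : ℝ) ^ (A2 / 2) = (I : ℝ) ^ (2 - A2 / 2) := by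
        rw [Real.rpow_sub hI0]
        congr 1
        rw [Real.rpow_two]
        ring
      rw [e2, hsq]
      exact Real.rpow_le_rpow_of_exponent_le hI1 (by linarith)
    have hb6 : (I : ℝ) * (I : ℝ) ^ (1 - c') ≤ ((I : ℝ) ^ (1 - c)) ^ 2 := by
      have e2 : (I : ℝ) * (I : ℝ) ^ (1 - c') = (I : ℝ) ^ (2 - c') := by
        have e3 : (2 : ℝ) - c' = 1 + (1 - c') := by ring
        rw [e3, Real.rpow_add hI0, Real.rpow_one]
      rw [e2, hsq]
      exact Real.rpow_le_rpow_of_exponent_le hI1 (by linarith)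
    have hZ : 0 ≤ (I : ℝ) ^ (1 - c) := (Real.rpow_pos_of_pos hI0 _).le
    have hb7 : ‖∑ n ∈ range I', ei (φ n)‖ ^ 2 ≤ (2 * (1 + C') * (I : ℝ) ^ (1 - c)) ^ 2 := by
      refine hb3.trans ?_
      rw [hb4]
      have e1 := mul_le_mul_of_nonneg_left hb6 (by linarith : (0 : ℝ) ≤ 4 * C')
      have e2 : (2 * (1 + C') * (I : ℝ) ^ (1 - c)) ^ 2 =
          4 * (1 + C') ^ 2 * ((I : ℝ) ^ (1 - c)) ^ 2 := by ring
      rw [e2]
      have e3 : (4 + 4 * C') * ((I : ℝ) ^ (1 - c)) ^ 2 ≤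
          4 * (1 + C') ^ 2 * ((I : ℝ) ^ (1 - c)) ^ 2 := by
        refine mul_le_mul_of_nonneg_right ?_ (sq_nonneg _)
        nlinarith
      linarith
    exact (pow_le_pow_iff_left₀ (norm_nonneg _) (by positivity) two_ne_zero).1 hb7

theorem vdc_K (K : ℕ) (hK : 2 ≤ K) : ∀ A1 A2 α : ℝ, A1 < 2 → 0 < A2 → 1 ≤ α →
    ∃ C c : ℝ, 0 < C ∧ 0 < c ∧ ∀ (I I' : ℕ) (lam : ℝ) (φ : ℕ → ℝ), 1 ≤ I → I' ≤ I →
      (I : ℝ) ^ (-A1) ≤ lam → lam ≤ (I : ℝ) ^ (-A2) →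
      (∀ n, n + K < I' → lam ≤ dif K φ n ∧ dif K φ n ≤ α * lam) →
      ‖∑ n ∈ range I', ei (φ n)‖ ≤ C * (I : ℝ) ^ (1 - c) := by
  induction K, hK using Nat.le_induction with
  | base => exact VdcK_two
  | succ K _ ih =>
    intro A1 A2 α hA1 hA2 hα
    obtain ⟨C', c', hC', hc', h⟩ := ih A1 (A2 / 2) α hA1 (by linarith) hα
    refine ⟨2 * (1 + C'), min (A2 / 4) (c' / 2), by linarith,
      lt_min (by linarith) (by linarith), ?_⟩
    intro I I' lam φ hI hI' h1 h2 h3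
    exact VdcK_step K A1 A2 α C' c' hA1 hA2 hC' h I I' lam φ hI hI' h1 h2 h3

end Pool.Agent.H87T
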