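import Pool.Agent.H87T.Defs

/-!
The inequality of Kusmin and Landau (discrete form).

PROOF PLAN.  `d n = φ (n+1) - φ n`, `w n = 1/(ei (d n) - 1)`: `|ei d - 1| = 2 |sin (d/2)| >= 2θ/π` because
`d/2` is at distance at least `θ/2` from the multiples of `π` and `|sin| >= (2/π) dist`.  For `n + 1 < I`:
`ei (φ n) = w n (ei (φ (n+1)) - ei (φ n))`; partial summation: the sum over `n + 1 < I` is
`w (I-2) ei (φ (I-1)) - w 0 ei (φ 0) - ∑_{1 <= n <= I-2} (w n - w (n-1)) ei (φ n)`.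
`w n = -1/2 - (i/2) cot (d n/2)`, `d n/2 ∈ [π m + θ/2, π (m+1) - θ/2]` increasing, so `cot (d n/2)` is
decreasing and `∑ |w n - w (n-1)| <= (1/2) (cot (θ/2) + cot (θ/2)) <= 2/θ`.  Total:
`π/θ + 2/θ + 1 <= 9/θ`.
-/

namespace Pool.Agent.H87T

open Finset

private theorem Kusmin_norm (x : ℝ) : ‖ei x‖ = 1 := by
  unfold ei
  exact Complex.norm_exp_ofReal_mul_I x

private theorem Kusmin_ei (y : ℝ) :
    ei y = ((Real.cos y : ℝ) : ℂ) + ((Real.sin y : ℝ) : ℂ) * Complex.I := by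
  unfold ei
  rw [Complex.exp_mul_I, Complex.ofReal_cos, Complex.ofReal_sin]

private theorem Kusmin_add (x y : ℝ) : ei (x + y) = ei x * ei y := by
  unfold ei
  rw [← Complex.exp_add]
  congr 1
  push_cast
  ring

private theorem Kusmin_two_pi (m : ℤ) : ei (2 * Real.pi * m) = 1 := by
  unfold ei
  rw [Complex.exp_eq_one_iff]
  refine ⟨m, ?_⟩
  push_cast
  ring

/-- the weight `1 / (ei (2 x) - 1)` -/
private noncomputable def Kusmin_W (x : ℝ) : ℂ :=
  -(1 / 2) - Complex.I / 2 * ((Real.cos x / Real.sin x : ℝ) : ℂ)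

private theorem Kusmin_key {x : ℝ} (hx : Real.sin x ≠ 0) : Kusmin_W x * (ei (2 * x) - 1) = 1 := by
  have h1 : ei (2 * x) - 1 = -2 * ((Real.sin x : ℝ) : ℂ) ^ 2 +
      2 * ((Real.sin x : ℝ) : ℂ) * ((Real.cos x : ℝ) : ℂ) * Complex.I := by
    rw [Kusmin_ei, Real.cos_two_mul, Real.sin_two_mul]
    have h2 : ((Real.cos x : ℝ) : ℂ) ^ 2 = 1 - ((Real.sin x : ℝ) : ℂ) ^ 2 := by
      rw [← Complex.ofReal_pow, Real.cos_sq']
      push_cast
      ring
    push_cast
    push_cast at h2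
    linear_combination 2 * h2
  have hs : ((Real.sin x : ℝ) : ℂ) ≠ 0 := Complex.ofReal_ne_zero.2 hx
  have h3 : ((Real.sin x : ℝ) : ℂ) ^ 2 + ((Real.cos x : ℝ) : ℂ) ^ 2 = 1 := by
    rw [← Complex.ofReal_pow, ← Complex.ofReal_pow, ← Complex.ofReal_add,
      Real.sin_sq_add_cos_sq, Complex.ofReal_one]
  rw [h1]
  unfold Kusmin_W
  rw [Complex.ofReal_div]
  generalize ((Real.sin x : ℝ) : ℂ) = s at hs h3
  generalize ((Real.cos x : ℝ) : ℂ) = c at h3
  have h4 : (-(1 / 2) - Complex.I / 2 * (c / s)) * (-2 * s ^ 2 + 2 * s * c * Complex.I) =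
      s ^ 2 + c ^ 2 := by
    have h5 : (-(1 / 2) - Complex.I / 2 * (c / s)) * (-2 * s ^ 2 + 2 * s * c * Complex.I) =
        s ^ 2 - s * c * Complex.I + Complex.I * c * (s * (s / s)) -
          Complex.I ^ 2 * c ^ 2 * (s / s) := by ring
    rw [h5, div_self hs, Complex.I_sq]
    ring
  rw [h4, h3]

private theorem Kusmin_sin {θ x : ℝ} (hθ : 0 < θ) (h1 : θ / 2 ≤ x) (h2 : x ≤ Real.pi - θ / 2) :
    θ / Real.pi ≤ Real.sin x := by
  have hpi := Real.pi_pos
  have key : ∀ y : ℝ, θ / 2 ≤ y → y ≤ Real.pi / 2 → θ / Real.pi ≤ Real.sin y := by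
    intro y h3 h4
    have h5 := Real.mul_le_sin (by linarith : (0 : ℝ) ≤ y) h4
    have h6 : 2 / Real.pi * (θ / 2) ≤ 2 / Real.pi * y :=
      mul_le_mul_of_nonneg_left h3 (by positivity)
    have h7 : 2 / Real.pi * (θ / 2) = θ / Real.pi := by ring
    linarith
  rcases le_or_gt x (Real.pi / 2) with h | h
  · exact key x h1 h
  · rw [← Real.sin_pi_sub]
    exact key _ (by linarith) (by linarith)

private theorem Kusmin_cot_anti {x y : ℝ} (hx : 0 < x) (hxy : x ≤ y) (hy : y < Real.pi) :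
    Real.cos y / Real.sin y ≤ Real.cos x / Real.sin x := by
  have h1 : 0 < Real.sin x := Real.sin_pos_of_pos_of_lt_pi hx (by linarith)
  have h2 : 0 < Real.sin y := Real.sin_pos_of_pos_of_lt_pi (by linarith) hy
  rw [div_le_div_iff₀ h2 h1]
  have h3 : 0 ≤ Real.sin (y - x) := Real.sin_nonneg_of_nonneg_of_le_pi (by linarith) (by linarith)
  rw [Real.sin_sub] at h3
  linarith

private theorem Kusmin_cot_half {θ : ℝ} (hθ : 0 < θ) (hθ1 : θ ≤ Real.pi) :
    Real.cos (θ / 2) / Real.sin (θ / 2) ≤ 2 / θ := by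
  have hs : 0 < Real.sin (θ / 2) :=
    Real.sin_pos_of_pos_of_lt_pi (by linarith) (by linarith [Real.pi_pos])
  rcases eq_or_lt_of_le hθ1 with h | h
  · rw [h, Real.cos_pi_div_two, zero_div]
    positivity
  · have h1 := Real.lt_tan (by linarith : 0 < θ / 2) (by linarith)
    have hc : 0 < Real.cos (θ / 2) :=
      Real.cos_pos_of_mem_Ioo ⟨by linarith [Real.pi_pos], by linarith⟩
    rw [Real.tan_eq_sin_div_cos, lt_div_iff₀ hc] at h1
    rw [div_le_div_iff₀ hs hθ]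
    linarith

private theorem Kusmin_cot_abs {θ x : ℝ} (hθ : 0 < θ) (hθ1 : θ ≤ Real.pi) (h1 : θ / 2 ≤ x)
    (h2 : x ≤ Real.pi - θ / 2) : |Real.cos x / Real.sin x| ≤ 2 / θ := by
  have h3 := Kusmin_cot_half hθ hθ1
  rw [abs_le]
  constructor
  · have h4 := Kusmin_cot_anti (by linarith : 0 < x) h2 (by linarith)
    rw [Real.cos_pi_sub, Real.sin_pi_sub, neg_div] at h4
    linarith
  · have h4 := Kusmin_cot_anti (by linarith : 0 < θ / 2) h1 (by linarith)
    linarith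

private theorem Kusmin_W_norm {θ x : ℝ} (hθ : 0 < θ) (h1 : θ / 2 ≤ x)
    (h2 : x ≤ Real.pi - θ / 2) : ‖Kusmin_W x‖ ≤ Real.pi / (2 * θ) := by
  have hpi := Real.pi_pos
  have hs := Kusmin_sin hθ h1 h2
  have hs0 : 0 < Real.sin x := lt_of_lt_of_le (by positivity) hs
  have h3 := Kusmin_key hs0.ne'
  have h4 : ‖Kusmin_W x‖ * ‖ei (2 * x) - 1‖ = 1 := by
    rw [← norm_mul, h3, norm_one]
  have h5 : ‖ei (2 * x) - 1‖ = 2 * Real.sin x := by
    have e1 : ei (2 * x) - 1 = ei x * (2 * ((Real.sin x : ℝ) : ℂ) * Complex.I) := by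
      have e2 : ei (2 * x) = ei x * ei x := by rw [← Kusmin_add]; congr 1; ring
      have e3 : ei x * ei (-x) = 1 := by
        rw [← Kusmin_add, add_neg_cancel]
        unfold ei
        simp
      have e4 : ei x - ei (-x) = 2 * ((Real.sin x : ℝ) : ℂ) * Complex.I := by
        rw [Kusmin_ei x, Kusmin_ei (-x), Real.cos_neg, Real.sin_neg]
        push_cast
        ring
      rw [← e4, mul_sub, e3, e2]
    rw [e1, norm_mul, Kusmin_norm, one_mul, norm_mul, norm_mul, Complex.norm_I,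
      Complex.norm_real, Real.norm_of_nonneg hs0.le]
    simp
  rw [h5] at h4
  have h6 : ‖Kusmin_W x‖ = 1 / (2 * Real.sin x) := by
    rw [eq_div_iff (by positivity)]
    exact h4
  rw [h6, div_le_div_iff₀ (by positivity) (by positivity)]
  rw [div_le_iff₀ hpi] at hs
  linarith

private theorem Kusmin_W_sub (x y : ℝ) : ‖Kusmin_W x - Kusmin_W y‖ =
    1 / 2 * |Real.cos y / Real.sin y - Real.cos x / Real.sin x| := by
  have h : Kusmin_W x - Kusmin_W y =
      Complex.I / 2 * ((Real.cos y / Real.sin y - Real.cos x / Real.sin x : ℝ) : ℂ) := by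
    unfold Kusmin_W
    push_cast
    ring
  rw [h, norm_mul, norm_div, Complex.norm_I, Complex.norm_real, Real.norm_eq_abs]
  simp

theorem kusmin (φ : ℕ → ℝ) (I : ℕ) (m : ℤ) (θ : ℝ) (hθ : 0 < θ) (hθ1 : θ ≤ Real.pi)
    (h1 : ∀ n, n + 1 < I → 2 * Real.pi * m + θ ≤ φ (n + 1) - φ n ∧
      φ (n + 1) - φ n ≤ 2 * Real.pi * (m + 1) - θ)
    (h2 : ∀ n, n + 2 < I → φ (n + 1) - φ n ≤ φ (n + 2) - φ (n + 1)) :
    ‖∑ n ∈ range I, ei (φ n)‖ ≤ 9 / θ := by
  have hpi3 := Real.pi_lt_d2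
  have hpi := Real.pi_pos
  have hsmall : 1 ≤ Real.pi / θ := by
    rw [le_div_iff₀ hθ]
    linarith
  have hpθ : Real.pi / θ ≤ (3.15 : ℝ) / θ := div_le_div_of_nonneg_right (by linarith) hθ.le
  have hθi : 0 < 1 / θ := by positivity
  have e315 : (3.15 : ℝ) / θ = 3.15 * (1 / θ) := by ring
  have e9 : (9 : ℝ) / θ = 9 * (1 / θ) := by ring
  have e2 : (2 : ℝ) / θ = 2 * (1 / θ) := by ring
  obtain ⟨x, hx⟩ : ∃ x : ℕ → ℝ, x = fun n => (φ (n + 1) - φ n) / 2 - Real.pi * m := ⟨_, rfl⟩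
  have hxn : ∀ n, x n = (φ (n + 1) - φ n) / 2 - Real.pi * m := fun n => by rw [hx]
  have hx1 : ∀ n, n + 1 < I → θ / 2 ≤ x n ∧ x n ≤ Real.pi - θ / 2 := by
    intro n hn
    have h3 := h1 n hn
    rw [hxn]
    constructor <;> linarith [h3.1, h3.2]
  have hx2 : ∀ n, n + 2 < I → x n ≤ x (n + 1) := by
    intro n hn
    have h3 := h2 n hn
    rw [hxn, hxn]
    linarith
  have hstep : ∀ n, n + 1 < I → ei (φ n) = Kusmin_W (x n) * (ei (φ (n + 1)) - ei (φ n)) := by
    intro n hn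
    obtain ⟨h3, h4⟩ := hx1 n hn
    have hs : Real.sin (x n) ≠ 0 :=
      (Real.sin_pos_of_pos_of_lt_pi (by linarith) (by linarith)).ne'
    have e1 : ei (φ (n + 1)) = ei (φ n) * ei (2 * x n) := by
      have e3 : ei (2 * x n) = ei (φ (n + 1) - φ n) := by
        have e4 : φ (n + 1) - φ n = 2 * x n + 2 * Real.pi * m := by rw [hxn]; ring
        rw [e4, Kusmin_add, Kusmin_two_pi, mul_one]
      rw [e3, ← Kusmin_add]
      congr 1
      ring
    have e5 := Kusmin_key hs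
    rw [e1]
    linear_combination (-(ei (φ n))) * e5
  have hind : ∀ k, k + 1 < I → ∃ R : ℂ,
      ∑ n ∈ range (k + 1), ei (φ n) = Kusmin_W (x k) * ei (φ (k + 1)) + R ∧
      ‖R‖ ≤ ‖Kusmin_W (x 0)‖ + 1 / 2 * (Real.cos (x 0) / Real.sin (x 0) -
        Real.cos (x k) / Real.sin (x k)) := by
    intro k
    induction k with
    | zero =>
      intro hk
      refine ⟨-(Kusmin_W (x 0) * ei (φ 0)), ?_, ?_⟩
      · rw [zero_add, Finset.sum_range_one]
        have e1 := hstep 0 hk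
        rw [zero_add] at e1
        linear_combination e1
      · rw [norm_neg, norm_mul, Kusmin_norm, mul_one]
        linarith
    | succ k ih =>
      intro hk
      obtain ⟨R, hR1, hR2⟩ := ih (by omega)
      refine ⟨R + (Kusmin_W (x k) - Kusmin_W (x (k + 1))) * ei (φ (k + 1)), ?_, ?_⟩
      · rw [Finset.sum_range_succ, hR1]
        have e1 := hstep (k + 1) hk
        linear_combination e1
      · have e3 : ‖(Kusmin_W (x k) - Kusmin_W (x (k + 1))) * ei (φ (k + 1))‖ =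
            1 / 2 * (Real.cos (x k) / Real.sin (x k) -
              Real.cos (x (k + 1)) / Real.sin (x (k + 1))) := by
          rw [norm_mul, Kusmin_norm, mul_one, Kusmin_W_sub, abs_sub_comm, abs_of_nonneg]
          have h3 := hx1 k (by omega)
          have h4 := hx1 (k + 1) hk
          have h5 := Kusmin_cot_anti (by linarith [h3.1] : 0 < x k) (hx2 k (by omega))
            (by linarith [h4.2])
          linarith
        have e4 := norm_add_le R ((Kusmin_W (x k) - Kusmin_W (x (k + 1))) * ei (φ (k + 1)))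
        linarith
  rcases Nat.lt_or_ge I 2 with hI | hI
  · have e1 : ‖∑ n ∈ range I, ei (φ n)‖ ≤ 1 := by
      refine (norm_sum_le _ _).trans ?_
      rw [Finset.sum_congr rfl fun n _ => Kusmin_norm (φ n), Finset.sum_const, Finset.card_range,
        nsmul_eq_mul, mul_one]
      exact_mod_cast (by omega : I ≤ 1)
    linarith
  · obtain ⟨k, rfl⟩ : ∃ k, I = k + 2 := ⟨I - 2, by omega⟩
    obtain ⟨R, hR1, hR2⟩ := hind k (by omega)
    rw [Finset.sum_range_succ, hR1]
    have h3 := hx1 k (by omega)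
    have h4 := hx1 0 (by omega)
    have e1 := Kusmin_W_norm hθ h3.1 h3.2
    have e3 := Kusmin_W_norm hθ h4.1 h4.2
    have e4 := abs_le.1 (Kusmin_cot_abs hθ hθ1 h3.1 h3.2)
    have e5 := abs_le.1 (Kusmin_cot_abs hθ hθ1 h4.1 h4.2)
    have e6 : ‖Kusmin_W (x k) * ei (φ (k + 1)) + R + ei (φ (k + 1))‖ ≤
        ‖Kusmin_W (x k)‖ + ‖R‖ + 1 := by
      refine (norm_add_le _ _).trans ?_
      rw [Kusmin_norm]
      refine add_le_add ((norm_add_le _ _).trans ?_) le_rfl
      rw [norm_mul, Kusmin_norm, mul_one]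
    have e7 : Real.pi / (2 * θ) = 1 / 2 * (Real.pi / θ) := by
      field_simp
    rw [e7] at e1 e3
    linarith [e4.1, e4.2, e5.1, e5.2]

end Pool.Agent.H87T
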