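import Pool.Agent.H87T.PowSum
import Pool.Agent.H87T.IterDiff

/-!
Iterated differences of `t ∑_h e h log (a + m i + h)`.

PROOF PLAN.  `G 0 x = t ∑ e h log (x + h)`, `G k x = t (-1)^(k-1) (k-1)! ∑ e h/(x + h)^k` for `k >= 1`
(`HasDerivAt`).  By `pow_sum` `σ (-1)^(K-1) G K x` is between `c1 (K-1)! t/x^(K+r)` and
`c2 (K-1)! t/x^(K+r)` for `x >= x0`; on `[a + m n, a + m (n+K)]` these are bounded by the values at the ends.
`iter_diff` for `G` (sign `1`) or for `-G` (sign `-1`; `dif K (-φ) = - dif K φ`).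
-/

namespace Pool.Agent.H87T

open Finset

private theorem LogDiff_dif_mul (K : ℕ) : ∀ (c : ℝ) (φ : ℕ → ℝ) (n : ℕ),
    dif K (fun i => c * φ i) n = c * dif K φ n := by
  induction K with
  | zero => intro c φ n; rfl
  | succ K ih =>
    intro c φ n
    show dif K (fun i => c * φ (i + 1) - c * φ i) n = c * dif K (fun i => φ (i + 1) - φ i) n
    rw [← ih c (fun i => φ (i + 1) - φ i) n]
    congr 1
    funext i
    ring

private noncomputable def LogDiff_G (H : ℕ) (e : ℕ → ℤ) (c : ℝ) : ℕ → ℝ → ℝ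
  | 0, x => c * ∑ h ∈ range H, (e h : ℝ) * Real.log (x + h)
  | k + 1, x => c * ((-1) ^ k * (k.factorial : ℝ)) * ∑ h ∈ range H, (e h : ℝ) / (x + h) ^ (k + 1)

private theorem LogDiff_deriv (H : ℕ) (e : ℕ → ℤ) (c : ℝ) (k : ℕ) (x : ℝ) (hx : 0 < x) :
    HasDerivAt (LogDiff_G H e c k) (LogDiff_G H e c (k + 1) x) x := by
  cases k with
  | zero =>
    have h1 : ∀ h ∈ range H, HasDerivAt (fun y : ℝ => (e h : ℝ) * Real.log (y + h))
        ((e h : ℝ) * (1 / (x + h))) x := by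
      intro h _
      have hpos : 0 < x + (h : ℝ) := by positivity
      have h2 : HasDerivAt (fun y : ℝ => y + (h : ℝ)) 1 x := (hasDerivAt_id x).add_const _
      exact (h2.log hpos.ne').const_mul _
    have h3 := (HasDerivAt.fun_sum h1).const_mul c
    have h4 : LogDiff_G H e c (0 + 1) x = c * ∑ h ∈ range H, (e h : ℝ) * (1 / (x + h)) := by
      simp only [LogDiff_G, pow_zero, Nat.factorial_zero, Nat.cast_one, mul_one, zero_add, pow_one]
      congr 1
      refine sum_congr rfl fun h _ => ?_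
      ring
    rw [h4]
    exact h3
  | succ k =>
    have h1 : ∀ h ∈ range H, HasDerivAt (fun y : ℝ => (e h : ℝ) / (y + h) ^ (k + 1))
        ((e h : ℝ) * (-((k : ℝ) + 1)) / (x + h) ^ (k + 2)) x := by
      intro h _
      have hpos : 0 < x + (h : ℝ) := by positivity
      have h2 : HasDerivAt (fun y : ℝ => y + (h : ℝ)) 1 x := (hasDerivAt_id x).add_const _
      have h3 : HasDerivAt (fun y : ℝ => (y + (h : ℝ)) ^ (k + 1))
          (((k + 1 : ℕ) : ℝ) * (x + h) ^ k * 1) x := by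
        have := h2.fun_pow (k + 1)
        simpa using this
      have h5 := (h3.fun_inv (pow_pos hpos _).ne').const_mul (e h : ℝ)
      have h6 : (e h : ℝ) * (-(((k + 1 : ℕ) : ℝ) * (x + h) ^ k * 1) / ((x + (h : ℝ)) ^ (k + 1)) ^ 2)
          = (e h : ℝ) * (-((k : ℝ) + 1)) / (x + h) ^ (k + 2) := by
        have hne := hpos.ne'
        push_cast
        field_simp
        try ring
      rw [h6] at h5
      refine h5.congr_of_eventuallyEq (Filter.Eventually.of_forall fun y => ?_)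
      show (e h : ℝ) / (y + h) ^ (k + 1) = (e h : ℝ) * ((y + (h : ℝ)) ^ (k + 1))⁻¹
      rw [div_eq_mul_inv]
    have h3 := (HasDerivAt.fun_sum h1).const_mul (c * ((-1) ^ k * (k.factorial : ℝ)))
    have h4 : LogDiff_G H e c (k + 1 + 1) x = c * ((-1) ^ k * (k.factorial : ℝ)) *
        ∑ h ∈ range H, (e h : ℝ) * (-((k : ℝ) + 1)) / (x + h) ^ (k + 2) := by
      show c * ((-1) ^ (k + 1) * ((k + 1).factorial : ℝ)) *
        ∑ h ∈ range H, (e h : ℝ) / (x + h) ^ (k + 1 + 1) = _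
      rw [mul_sum, mul_sum]
      refine sum_congr rfl fun h _ => ?_
      rw [Nat.factorial_succ]
      push_cast
      ring
    rw [h4]
    exact h3

theorem log_diff (H K r : ℕ) (hK : 1 ≤ K) (e : ℕ → ℤ)
    (hr : (∑ h ∈ range H, e h * (h : ℤ) ^ r) ≠ 0)
    (hm : ∀ m < r, ∑ h ∈ range H, e h * (h : ℤ) ^ m = 0) :
    ∃ (σ c1 c2 : ℝ) (x0 : ℕ), (σ = 1 ∨ σ = -1) ∧ 0 < c1 ∧ 0 < c2 ∧
      ∀ (t : ℝ) (a m n : ℕ), 0 ≤ t → 1 ≤ a → 1 ≤ m → x0 ≤ a + m * n →
      c1 * t * (m : ℝ) ^ K / ((a : ℝ) + m * (n + K)) ^ (K + r) ≤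
        σ * dif K (fun i : ℕ => t * ∑ h ∈ range H, (e h : ℝ) * Real.log ((a : ℝ) + m * i + h)) n ∧
      σ * dif K (fun i : ℕ => t * ∑ h ∈ range H, (e h : ℝ) * Real.log ((a : ℝ) + m * i + h)) n ≤
        c2 * t * (m : ℝ) ^ K / ((a : ℝ) + m * n) ^ (K + r) := by
  obtain ⟨σ, c1, c2, x0, hσ, hc1, hc2, hx0, hS⟩ := pow_sum H K r hK e hr hm
  obtain ⟨K', rfl⟩ : ∃ K', K = K' + 1 := ⟨K - 1, by omega⟩
  have hs2 : ((-1 : ℝ) ^ K') * ((-1) ^ K') = 1 := by
    rw [← mul_pow]; simp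
  have hs1 : ((-1 : ℝ) ^ K') = 1 ∨ ((-1 : ℝ) ^ K') = -1 := neg_one_pow_eq_or ℝ K'
  have hf : (0 : ℝ) < (K'.factorial : ℝ) := by exact_mod_cast Nat.factorial_pos K'
  refine ⟨σ * (-1) ^ K', (K'.factorial : ℝ) * c1, (K'.factorial : ℝ) * c2, ⌈x0⌉₊, ?_,
    by positivity, by positivity, ?_⟩
  · rcases hσ with h | h <;> rcases hs1 with h' | h' <;> rw [h, h'] <;> simp
  intro t a m n ht ha hm1 hx
  have ha0 : (0 : ℝ) < a := by exact_mod_cast ha
  have hm0 : (0 : ℝ) < m := by exact_mod_cast hm1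
  have hxr : x0 ≤ (a : ℝ) + m * n := by
    calc x0 ≤ (⌈x0⌉₊ : ℝ) := Nat.le_ceil _
      _ ≤ ((a + m * n : ℕ) : ℝ) := by exact_mod_cast hx
      _ = _ := by push_cast; ring
  have key := iter_diff (K' + 1) (LogDiff_G H e (σ * (-1) ^ K' * t)) a m ha0 hm0
    (fun k _ x hx => LogDiff_deriv H e _ k x hx) n
    ((K'.factorial : ℝ) * t * (c1 / ((a : ℝ) + m * (n + ((K' + 1 : ℕ) : ℝ))) ^ (K' + 1 + r)))
    ((K'.factorial : ℝ) * t * (c2 / ((a : ℝ) + m * n) ^ (K' + 1 + r))) ?_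
  · have hd : dif (K' + 1) (fun i : ℕ => LogDiff_G H e (σ * (-1) ^ K' * t) 0 ((a : ℝ) + m * i)) n
        = σ * (-1) ^ K' * dif (K' + 1) (fun i : ℕ => t * ∑ h ∈ range H,
          (e h : ℝ) * Real.log ((a : ℝ) + m * i + h)) n := by
      rw [← LogDiff_dif_mul]
      congr 1
      funext i
      show σ * (-1) ^ K' * t * _ = _
      ring
    rw [hd] at key
    constructor
    · refine le_trans (le_of_eq ?_) key.1
      ring
    · refine le_trans key.2 (le_of_eq ?_)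
      ring
  · intro x hx1 hx2
    have hxpos : 0 < x := by
      have : (0 : ℝ) ≤ (m : ℝ) * n := by positivity
      linarith
    have hGK : LogDiff_G H e (σ * (-1) ^ K' * t) (K' + 1) x
        = (K'.factorial : ℝ) * t * (σ * ∑ h ∈ range H, (e h : ℝ) / (x + h) ^ (K' + 1)) := by
      show σ * (-1) ^ K' * t * ((-1) ^ K' * (K'.factorial : ℝ)) * _ = _
      calc σ * (-1) ^ K' * t * ((-1) ^ K' * (K'.factorial : ℝ)) *
          ∑ h ∈ range H, (e h : ℝ) / (x + h) ^ (K' + 1)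
          = ((-1) ^ K' * (-1) ^ K') * ((K'.factorial : ℝ) * t *
            (σ * ∑ h ∈ range H, (e h : ℝ) / (x + h) ^ (K' + 1))) := by ring
        _ = _ := by rw [hs2, one_mul]
    rw [hGK]
    obtain ⟨h1, h2⟩ := hS x (le_trans hxr hx1)
    have hft : 0 ≤ (K'.factorial : ℝ) * t := by positivity
    constructor
    · refine mul_le_mul_of_nonneg_left (le_trans ?_ h1) hft
      exact div_le_div_of_nonneg_left hc1.le (by positivity) (pow_le_pow_left₀ hxpos.le hx2 _)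
    · refine mul_le_mul_of_nonneg_left (le_trans h2 ?_) hft
      have hb : (0 : ℝ) < (a : ℝ) + m * n := by positivity
      exact div_le_div_of_nonneg_left hc2.le (pow_pos hb _) (pow_le_pow_left₀ hb.le hx1 _)

end Pool.Agent.H87T
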