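import Pool.Agent.H87T.Defs

/-!
The first moment which does not vanish.

PROOF PLAN.  Let `e h0 ≠ 0`, `h0 < H`.  The polynomial `p = ∏_{h < H, h ≠ h0} (X - h)` has degree `H - 1` and
`∑_{h < H} e h p(h) = e h0 p(h0) ≠ 0`; so not all moments of order `<= H - 1` vanish.  Take the least one
(`Nat.find`).
-/

namespace Pool.Agent.H87T

open Finset

theorem moment (H : ℕ) (e : ℕ → ℤ) (he : ∃ h < H, e h ≠ 0) :
    ∃ r < H, (∑ h ∈ range H, e h * (h : ℤ) ^ r) ≠ 0 ∧
      ∀ m < r, ∑ h ∈ range H, e h * (h : ℤ) ^ m = 0 := by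
  obtain ⟨h0, hh0, heh0⟩ := he
  have hex : ∃ r, r < H ∧ (∑ h ∈ range H, e h * (h : ℤ) ^ r) ≠ 0 := by
    by_contra hcon
    push Not at hcon
    have hv : (fun j : Fin H => e j) = 0 := by
      refine Matrix.eq_zero_of_forall_pow_sum_mul_pow_eq_zero
        (f := fun j : Fin H => ((j : ℕ) : ℤ)) ?_ ?_
      · intro a b hab
        have h2 : ((a : ℕ) : ℤ) = ((b : ℕ) : ℤ) := hab
        exact Fin.ext (by exact_mod_cast h2)
      · intro i
        have h1 := hcon i i.2
        rw [← Fin.sum_univ_eq_sum_range (fun h => e h * (h : ℤ) ^ (i : ℕ)) H] at h1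
        exact h1
    exact heh0 (congrFun hv ⟨h0, hh0⟩)
  classical
  refine ⟨Nat.find hex, (Nat.find_spec hex).1, (Nat.find_spec hex).2, ?_⟩
  intro m hm
  have h1 := Nat.find_min hex hm
  by_contra hne
  exact h1 ⟨hm.trans (Nat.find_spec hex).1, hne⟩

end Pool.Agent.H87T
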