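import Pool.Agent.H87T.VdcK
import Pool.Agent.H87T.Moment
import Pool.Agent.H87T.LogDiff

/-!
Exponential sum over a dyadic block.

PROOF PLAN.  `r` from `moment`.  `X = m J`.  Since `t >= X^(H+2)` and `r < H`, `t X^(-r) >= X^2 >= J^2`.  Let `K` be
the least `K >= 2` with `t X^(-r) J^(-K) <= J^(-1/2)`; `K <= K1 + 2` exists because `t <= J^K1`; `K = 2` is
impossible for `J >= 2`, so `K >= 3` and `t X^(-r) J^(-(K-1)) > J^(-1/2)`.  `log_diff` with `a + m J` in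
place of `a`: for `n + K < J'` (`<= J`) all arguments lie between `m J` and `3 m J`
(`a + m J + m (n + K) <= m (1 + 2 J)`), so with
`lam = c1 3^(-(K+r)) t m^K/(m J)^(K+r) = c1 3^(-(K+r)) t X^(-r) J^(-K)` the `K`-th difference of `σ φ` is in
`[lam, α lam]`, `α = max 1 (c2/c1 3^(K+r))`, and `J^(-7/4) <= lam <= J^(-1/4)` for `J >= J0`.  Apply
`vdc_K` with `A1 = 7/4`, `A2 = 1/4` (finitely many `K`, `3 <= K <= K1 + 2`: take the largest `C` and the least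
`c`); `σ = -1`: the norm of the sum is that of the conjugate sum, `conj (ei θ) = ei (-θ)`.  For `J < J0` (and
`J = 1`) the trivial bound `J' <= J0`, `C` large.
-/

namespace Pool.Agent.H87T

open Finset

private theorem Block_dif (s : ℝ) (K : ℕ) : ∀ (φ : ℕ → ℝ) (n : ℕ),
    dif K (fun i => s * φ i) n = s * dif K φ n := by
  induction K with
  | zero => intro φ n; rfl
  | succ K ih =>
    intro φ n
    show dif K (fun n => s * φ (n + 1) - s * φ n) n = s * dif K (fun n => φ (n + 1) - φ n) n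
    rw [← ih]
    congr 1
    funext i
    ring

private theorem Block_ei_neg (θ : ℝ) : ei (-θ) = (starRingEnd ℂ) (ei θ) := by
  unfold ei
  rw [← Complex.exp_conj]
  congr 1
  simp

private theorem Block_norm_ei (θ : ℝ) : ‖ei θ‖ = 1 := by
  unfold ei
  exact Complex.norm_exp_ofReal_mul_I θ

private theorem Block_sgn {σ : ℝ} (hσ : σ = 1 ∨ σ = -1) (s : Finset ℕ) (φ : ℕ → ℝ) :
    ‖∑ i ∈ s, ei (σ * φ i)‖ = ‖∑ i ∈ s, ei (φ i)‖ := by
  rcases hσ with rfl | rfl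
  · simp
  · have h : ∑ i ∈ s, ei (-1 * φ i) = (starRingEnd ℂ) (∑ i ∈ s, ei (φ i)) := by
      rw [map_sum]
      refine sum_congr rfl fun i _ => ?_
      rw [neg_one_mul, Block_ei_neg]
    rw [h, RCLike.norm_conj]

/-- the bound for a given order `K` of differences -/
private theorem Block_step (H r : ℕ) (e : ℕ → ℤ)
    (hr : (∑ h ∈ range H, e h * (h : ℤ) ^ r) ≠ 0)
    (hm : ∀ m < r, ∑ h ∈ range H, e h * (h : ℤ) ^ m = 0) (K : ℕ) (hK : 2 ≤ K) :
    ∃ (C c : ℝ) (J0 : ℕ), 0 < C ∧ 0 < c ∧ c ≤ 1 ∧ ∀ (t : ℝ) (a m J J' : ℕ), J0 ≤ J → 1 ≤ J →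
      J' ≤ J → 1 ≤ a → a ≤ m → 0 ≤ t →
      (J : ℝ) ^ (-(3 / 2) : ℝ) ≤ t / (((m : ℝ) * J) ^ r * (J : ℝ) ^ K) →
      t / (((m : ℝ) * J) ^ r * (J : ℝ) ^ K) ≤ (J : ℝ) ^ (-(1 / 2) : ℝ) →
      ‖∑ i ∈ range J', ei (t * ∑ h ∈ range H,
        (e h : ℝ) * Real.log ((a : ℝ) + m * ((J : ℝ) + i) + h))‖ ≤ C * (J : ℝ) ^ (1 - c) := by
  obtain ⟨σ, c1, c2, x0, hσ, hc1, hc2, hd⟩ := log_diff H K r (by omega) e hr hm
  obtain ⟨C, c, hC, hc, hv⟩ := vdc_K K hK (7 / 4) (1 / 4) (max 1 (c2 / c1 * 3 ^ (K + r)))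
    (by norm_num) (by norm_num) (le_max_left _ _)
  have hκ : 0 < c1 / 3 ^ (K + r) := by positivity
  obtain ⟨κ, hκd⟩ : ∃ κ, κ = c1 / 3 ^ (K + r) := ⟨_, rfl⟩
  rw [← hκd] at hκ
  obtain ⟨B, hB⟩ : ∃ B, B = max κ (1 / κ) := ⟨_, rfl⟩
  have hB0 : 0 ≤ B := by
    rw [hB]
    exact hκ.le.trans (le_max_left _ _)
  refine ⟨C, min c 1, max x0 ⌈B ^ 4⌉₊, hC, lt_min hc one_pos, min_le_right _ _, ?_⟩
  intro t a m J J' hJ0 hJ hJ' ha ham ht hlo hhi
  have hJx : x0 ≤ J := (le_max_left _ _).trans hJ0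
  have hJB : B ^ 4 ≤ J := (Nat.le_ceil _).trans (by exact_mod_cast (le_max_right _ _).trans hJ0)
  have hJ1 : (1 : ℝ) ≤ J := by exact_mod_cast hJ
  have hJp : (0 : ℝ) < J := by linarith
  have hm1 : (1 : ℝ) ≤ m := by exact_mod_cast ha.trans ham
  have hmp : (0 : ℝ) < m := by linarith
  have ham' : (a : ℝ) ≤ m := by exact_mod_cast ham
  have ha0 : (0 : ℝ) ≤ a := Nat.cast_nonneg _
  have hB4 : B ≤ (J : ℝ) ^ (1 / 4 : ℝ) := by
    have h1 : B = (B ^ 4) ^ (1 / 4 : ℝ) := by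
      rw [← Real.rpow_natCast, ← Real.rpow_mul hB0]
      norm_num
    rw [h1]
    exact Real.rpow_le_rpow (by positivity) hJB (by norm_num)
  have hq0 : (0 : ℝ) < (J : ℝ) ^ (1 / 4 : ℝ) := Real.rpow_pos_of_pos hJp _
  have hκ1 : κ ≤ (J : ℝ) ^ (1 / 4 : ℝ) := by
    refine le_trans ?_ hB4
    rw [hB]
    exact le_max_left _ _
  have hκ2 : 1 / κ ≤ (J : ℝ) ^ (1 / 4 : ℝ) := by
    refine le_trans ?_ hB4
    rw [hB]
    exact le_max_right _ _
  obtain ⟨z, hz⟩ : ∃ z, z = t / (((m : ℝ) * J) ^ r * (J : ℝ) ^ K) := ⟨_, rfl⟩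
  rw [← hz] at hlo hhi
  have hl1 : (J : ℝ) ^ (-(7 / 4) : ℝ) ≤ κ * z := by
    have h1 : (J : ℝ) ^ (-(7 / 4) : ℝ) * (J : ℝ) ^ (1 / 4 : ℝ) = (J : ℝ) ^ (-(3 / 2) : ℝ) := by
      rw [← Real.rpow_add hJp]
      norm_num
    have h2 : 1 ≤ κ * (J : ℝ) ^ (1 / 4 : ℝ) := by
      rw [div_le_iff₀ hκ] at hκ2
      linarith
    have h3 : 0 ≤ (J : ℝ) ^ (-(7 / 4) : ℝ) := Real.rpow_nonneg hJp.le _
    calc (J : ℝ) ^ (-(7 / 4) : ℝ) ≤ (J : ℝ) ^ (-(7 / 4) : ℝ) * (κ * (J : ℝ) ^ (1 / 4 : ℝ)) :=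
          le_mul_of_one_le_right h3 h2
      _ = κ * (J : ℝ) ^ (-(3 / 2) : ℝ) := by rw [← h1]; ring
      _ ≤ κ * z := mul_le_mul_of_nonneg_left hlo hκ.le
  have hl2 : κ * z ≤ (J : ℝ) ^ (-(1 / 4) : ℝ) := by
    have h1 : (J : ℝ) ^ (1 / 4 : ℝ) * (J : ℝ) ^ (-(1 / 2) : ℝ) = (J : ℝ) ^ (-(1 / 4) : ℝ) := by
      rw [← Real.rpow_add hJp]
      norm_num
    rw [← h1]
    exact mul_le_mul hκ1 hhi ((Real.rpow_nonneg hJp.le _).trans hlo) hq0.le
  have hfun : (fun i : ℕ => t * ∑ h ∈ range H,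
      (e h : ℝ) * Real.log ((a : ℝ) + m * ((J : ℝ) + i) + h)) = fun i : ℕ => t * ∑ h ∈ range H,
      (e h : ℝ) * Real.log (((a + m * J : ℕ) : ℝ) + m * i + h) := by
    funext i
    congr 1
    refine sum_congr rfl fun h _ => ?_
    congr 2
    push_cast
    ring
  have hmain := hv J J' (κ * z) (fun i => σ * (t * ∑ h ∈ range H,
      (e h : ℝ) * Real.log (((a + m * J : ℕ) : ℝ) + m * i + h))) hJ hJ' hl1 hl2 (by
    intro n hn
    rw [Block_dif σ K]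
    have hmJ : J ≤ m * J := Nat.le_mul_of_pos_left J (by omega)
    obtain ⟨h1, h2⟩ := hd t (a + m * J) m n ht (by omega) (by omega) (by omega)
    have hX : 0 < (m : ℝ) * J := by positivity
    have hn' : (n : ℝ) + K ≤ J - 1 := by
      have : n + K + 1 ≤ J := by omega
      have h3 : ((n + K + 1 : ℕ) : ℝ) ≤ J := by exact_mod_cast this
      push_cast at h3
      linarith
    have hD : ((a + m * J : ℕ) : ℝ) + m * ((n : ℝ) + K) ≤ 3 * ((m : ℝ) * J) := by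
      push_cast
      have h3 := mul_le_mul_of_nonneg_left hn' hmp.le
      nlinarith
    have hD0 : 0 < ((a + m * J : ℕ) : ℝ) + m * ((n : ℝ) + K) := by
      push_cast
      positivity
    have hD2 : (m : ℝ) * J ≤ ((a + m * J : ℕ) : ℝ) + m * (n : ℝ) := by
      push_cast
      have : 0 ≤ (m : ℝ) * n := by positivity
      linarith
    constructor
    · refine le_trans ?_ h1
      have h4 : κ * z = c1 * t * (m : ℝ) ^ K / (3 * ((m : ℝ) * J)) ^ (K + r) := by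
        have h5 : (3 * ((m : ℝ) * J)) ^ (K + r) =
            3 ^ (K + r) * (((m : ℝ) * J) ^ r * ((m : ℝ) ^ K * (J : ℝ) ^ K)) := by
          rw [mul_pow 3 ((m : ℝ) * J), pow_add ((m : ℝ) * J), mul_pow (m : ℝ) J K]
          ring
        have h6 : ((m : ℝ) * J) ^ r ≠ 0 := (pow_pos hX r).ne'
        rw [hz, hκd, h5]
        generalize ((m : ℝ) * J) ^ r = Xr at *
        field_simp
      rw [h4]
      exact div_le_div_of_nonneg_left (by positivity) (by positivity)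
        (pow_le_pow_left₀ hD0.le hD _)
    · refine h2.trans ?_
      have h4 : c2 * t * (m : ℝ) ^ K / (((a + m * J : ℕ) : ℝ) + m * (n : ℝ)) ^ (K + r) ≤
          c2 * t * (m : ℝ) ^ K / ((m : ℝ) * J) ^ (K + r) :=
        div_le_div_of_nonneg_left (by positivity) (by positivity)
          (pow_le_pow_left₀ hX.le hD2 _)
      refine h4.trans ?_
      have h5 : c2 * t * (m : ℝ) ^ K / ((m : ℝ) * J) ^ (K + r) =
          c2 / c1 * 3 ^ (K + r) * (κ * z) := by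
        rw [hz, hκd, pow_add ((m : ℝ) * J), mul_pow (m : ℝ) J K]
        field_simp
      rw [h5]
      refine mul_le_mul_of_nonneg_right (le_max_right _ _) ?_
      exact mul_nonneg hκ.le ((Real.rpow_nonneg hJp.le _).trans hlo))
  rw [Block_sgn hσ] at hmain
  have hgoal : ∑ i ∈ range J', ei (t * ∑ h ∈ range H,
      (e h : ℝ) * Real.log ((a : ℝ) + m * ((J : ℝ) + i) + h)) =
      ∑ i ∈ range J', ei (t * ∑ h ∈ range H,
      (e h : ℝ) * Real.log (((a + m * J : ℕ) : ℝ) + m * i + h)) := by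
    refine sum_congr rfl fun i _ => ?_
    exact congrArg ei (congrFun hfun i)
  rw [hgoal]
  refine hmain.trans ?_
  refine mul_le_mul_of_nonneg_left ?_ hC.le
  exact Real.rpow_le_rpow_of_exponent_le hJ1 (by linarith [min_le_left c 1])

/-- the bound for finitely many orders at once -/
private theorem Block_steps (H r : ℕ) (e : ℕ → ℤ)
    (hr : (∑ h ∈ range H, e h * (h : ℤ) ^ r) ≠ 0)
    (hm : ∀ m < r, ∑ h ∈ range H, e h * (h : ℤ) ^ m = 0) (N : ℕ) :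
    ∃ (C c : ℝ) (J0 : ℕ), 0 < C ∧ 0 < c ∧ c ≤ 1 ∧ ∀ K : ℕ, 2 ≤ K → K ≤ N →
      ∀ (t : ℝ) (a m J J' : ℕ), J0 ≤ J → 1 ≤ J →
      J' ≤ J → 1 ≤ a → a ≤ m → 0 ≤ t →
      (J : ℝ) ^ (-(3 / 2) : ℝ) ≤ t / (((m : ℝ) * J) ^ r * (J : ℝ) ^ K) →
      t / (((m : ℝ) * J) ^ r * (J : ℝ) ^ K) ≤ (J : ℝ) ^ (-(1 / 2) : ℝ) →
      ‖∑ i ∈ range J', ei (t * ∑ h ∈ range H,
        (e h : ℝ) * Real.log ((a : ℝ) + m * ((J : ℝ) + i) + h))‖ ≤ C * (J : ℝ) ^ (1 - c) := by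
  induction N with
  | zero =>
    refine ⟨1, 1, 0, one_pos, one_pos, le_rfl, fun K h1 h2 => ?_⟩
    omega
  | succ N ih =>
    obtain ⟨C1, d1, J1, hC1, hd1, hd1', h1⟩ := ih
    by_cases hN : 2 ≤ N + 1
    · obtain ⟨C2, d2, J2, hC2, hd2, hd2', h2⟩ := Block_step H r e hr hm (N + 1) hN
      refine ⟨max C1 C2, min d1 d2, max J1 J2, lt_max_of_lt_left hC1, lt_min hd1 hd2,
        (min_le_left _ _).trans hd1', ?_⟩
      intro K hK1 hK2 t a m J J' hJ0 hJ hJ' ha ham ht hlo hhi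
      have hJr : (1 : ℝ) ≤ J := by exact_mod_cast hJ
      rcases Nat.lt_or_ge K (N + 1) with hK3 | hK3
      · refine (h1 K hK1 (by omega) t a m J J' ((le_max_left _ _).trans hJ0) hJ hJ' ha ham ht
          hlo hhi).trans ?_
        exact mul_le_mul (le_max_left _ _)
          (Real.rpow_le_rpow_of_exponent_le hJr (by linarith [min_le_left d1 d2]))
          (Real.rpow_nonneg (by linarith) _) (hC1.le.trans (le_max_left _ _))
      · have hK4 : K = N + 1 := by omega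
        subst hK4
        refine (h2 t a m J J' ((le_max_right _ _).trans hJ0) hJ hJ' ha ham ht
          hlo hhi).trans ?_
        exact mul_le_mul (le_max_right _ _)
          (Real.rpow_le_rpow_of_exponent_le hJr (by linarith [min_le_right d1 d2]))
          (Real.rpow_nonneg (by linarith) _) (hC1.le.trans (le_max_left _ _))
    · refine ⟨C1, d1, J1, hC1, hd1, hd1', fun K h3 h4 => ?_⟩
      omega

theorem block (H K1 : ℕ) (e : ℕ → ℤ) (he : ∃ h < H, e h ≠ 0) :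
    ∃ C c : ℝ, 0 < C ∧ 0 < c ∧ c ≤ 1 ∧ ∀ (t : ℝ) (a m J J' : ℕ), 1 ≤ J → J' ≤ J → 1 ≤ a → a ≤ m →
      ((m : ℝ) * J) ^ (H + 2) ≤ t → t ≤ (J : ℝ) ^ K1 →
      ‖∑ i ∈ range J', ei (t * ∑ h ∈ range H,
        (e h : ℝ) * Real.log ((a : ℝ) + m * ((J : ℝ) + i) + h))‖ ≤ C * (J : ℝ) ^ (1 - c) := by
  classical
  obtain ⟨r, hrH, hr, hm⟩ := moment H e he
  obtain ⟨C, c, J0, hC, hc, hc1, hmain⟩ := Block_steps H r e hr hm (K1 + 2)
  refine ⟨C + (max J0 2 : ℕ), c, by positivity, hc, hc1, ?_⟩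
  intro t a m J J' hJ hJ' ha ham ht1 ht2
  have hJ1 : (1 : ℝ) ≤ J := by exact_mod_cast hJ
  have hJp : (0 : ℝ) < J := by linarith
  have hm1 : (1 : ℝ) ≤ m := by exact_mod_cast ha.trans ham
  have hpow1 : 1 ≤ (J : ℝ) ^ (1 - c) := Real.one_le_rpow hJ1 (by linarith)
  rcases Nat.lt_or_ge J (max J0 2) with hsmall | hlarge
  · have h1 : ‖∑ i ∈ range J', ei (t * ∑ h ∈ range H,
        (e h : ℝ) * Real.log ((a : ℝ) + m * ((J : ℝ) + i) + h))‖ ≤ J' := by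
      refine (norm_sum_le _ _).trans ?_
      simp only [Block_norm_ei, sum_const, card_range, nsmul_eq_mul, mul_one, le_refl]
    have h2 : (J' : ℝ) ≤ (max J0 2 : ℕ) := by exact_mod_cast hJ'.trans hsmall.le
    refine (h1.trans h2).trans ?_
    have h3 : ((max J0 2 : ℕ) : ℝ) ≤ (max J0 2 : ℕ) * (J : ℝ) ^ (1 - c) :=
      le_mul_of_one_le_right (Nat.cast_nonneg _) hpow1
    have h4 : 0 ≤ C * (J : ℝ) ^ (1 - c) := by positivity
    linarith
  · have hJ2 : 2 ≤ J := (le_max_right _ _).trans hlarge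
    have hJ2' : (2 : ℝ) ≤ J := by exact_mod_cast hJ2
    have hX1 : 1 ≤ (m : ℝ) * J := by nlinarith
    have hXJ : (J : ℝ) ≤ (m : ℝ) * J := by nlinarith
    have hXp : 0 < (m : ℝ) * J := by linarith
    have ht0 : 0 ≤ t := le_trans (by positivity) ht1
    have hex : ∃ K : ℕ, 2 ≤ K ∧
        t / (((m : ℝ) * J) ^ r * (J : ℝ) ^ K) ≤ (J : ℝ) ^ (-(1 / 2) : ℝ) := by
      refine ⟨K1 + 2, by omega, ?_⟩
      have h1 : t / (((m : ℝ) * J) ^ r * (J : ℝ) ^ (K1 + 2)) ≤ 1 / (J : ℝ) ^ 2 := by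
        rw [div_le_div_iff₀ (by positivity) (by positivity), one_mul]
        calc t * (J : ℝ) ^ 2 ≤ (J : ℝ) ^ K1 * (J : ℝ) ^ 2 :=
              mul_le_mul_of_nonneg_right ht2 (by positivity)
          _ = (J : ℝ) ^ (K1 + 2) := (pow_add _ _ _).symm
          _ ≤ ((m : ℝ) * J) ^ r * (J : ℝ) ^ (K1 + 2) :=
              le_mul_of_one_le_left (by positivity) (one_le_pow₀ hX1)
      refine h1.trans ?_
      have h2 : 1 / (J : ℝ) ^ 2 = (J : ℝ) ^ (-2 : ℝ) := by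
        rw [Real.rpow_neg hJp.le, one_div]
        norm_cast
      rw [h2]
      exact Real.rpow_le_rpow_of_exponent_le hJ1 (by norm_num)
    obtain ⟨hK2, hKle⟩ := Nat.find_spec hex
    have hKN : Nat.find hex ≤ K1 + 2 := by
      refine Nat.find_min' hex ⟨by omega, ?_⟩
      have h1 : t / (((m : ℝ) * J) ^ r * (J : ℝ) ^ (K1 + 2)) ≤ 1 / (J : ℝ) ^ 2 := by
        rw [div_le_div_iff₀ (by positivity) (by positivity), one_mul]
        calc t * (J : ℝ) ^ 2 ≤ (J : ℝ) ^ K1 * (J : ℝ) ^ 2 :=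
              mul_le_mul_of_nonneg_right ht2 (by positivity)
          _ = (J : ℝ) ^ (K1 + 2) := (pow_add _ _ _).symm
          _ ≤ ((m : ℝ) * J) ^ r * (J : ℝ) ^ (K1 + 2) :=
              le_mul_of_one_le_left (by positivity) (one_le_pow₀ hX1)
      refine h1.trans ?_
      have h2 : 1 / (J : ℝ) ^ 2 = (J : ℝ) ^ (-2 : ℝ) := by
        rw [Real.rpow_neg hJp.le, one_div]
        norm_cast
      rw [h2]
      exact Real.rpow_le_rpow_of_exponent_le hJ1 (by norm_num)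
    have hmin := fun k hk => Nat.find_min hex (m := k) hk
    generalize Nat.find hex = K at *
    have hhalf : (J : ℝ) ^ (-(1 / 2) : ℝ) ≤ 1 :=
      Real.rpow_le_one_of_one_le_of_nonpos hJ1 (by norm_num)
    have hK3 : 3 ≤ K := by
      by_contra hcon
      have hK4 : K = 2 := by omega
      subst hK4
      have h1 : (J : ℝ) ≤ t / (((m : ℝ) * J) ^ r * (J : ℝ) ^ 2) := by
        rw [le_div_iff₀ (by positivity)]
        calc (J : ℝ) * (((m : ℝ) * J) ^ r * (J : ℝ) ^ 2) = ((m : ℝ) * J) ^ r * (J : ℝ) ^ 3 := by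
              ring
          _ ≤ ((m : ℝ) * J) ^ r * ((m : ℝ) * J) ^ 3 :=
              mul_le_mul_of_nonneg_left (pow_le_pow_left₀ hJp.le hXJ 3) (by positivity)
          _ = ((m : ℝ) * J) ^ (r + 3) := (pow_add _ _ _).symm
          _ ≤ ((m : ℝ) * J) ^ (H + 2) := pow_le_pow_right₀ hX1 (by omega)
          _ ≤ t := ht1
      linarith
    have hlo : (J : ℝ) ^ (-(3 / 2) : ℝ) ≤ t / (((m : ℝ) * J) ^ r * (J : ℝ) ^ K) := by
      have h1 := hmin (K - 1) (by omega)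
      have h2 : (J : ℝ) ^ (-(1 / 2) : ℝ) < t / (((m : ℝ) * J) ^ r * (J : ℝ) ^ (K - 1)) := by
        by_contra h3
        exact h1 ⟨by omega, not_lt.mp h3⟩
      have h4 : t / (((m : ℝ) * J) ^ r * (J : ℝ) ^ K) =
          t / (((m : ℝ) * J) ^ r * (J : ℝ) ^ (K - 1)) / J := by
        rw [div_div]
        congr 1
        rw [mul_assoc, ← pow_succ, Nat.sub_add_cancel (by omega)]
      have h5 : (J : ℝ) ^ (-(3 / 2) : ℝ) = (J : ℝ) ^ (-(1 / 2) : ℝ) / J := by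
        rw [show (-(3 / 2) : ℝ) = -(1 / 2) - 1 by norm_num, Real.rpow_sub hJp, Real.rpow_one]
      rw [h4, h5]
      exact div_le_div_of_nonneg_right h2.le hJp.le
    refine (hmain K hK2 hKN t a m J J' ((le_max_left _ _).trans hlarge) hJ hJ' ha ham ht0 hlo
      hKle).trans ?_
    refine mul_le_mul_of_nonneg_right ?_ (by positivity)
    have : (0 : ℝ) ≤ (max J0 2 : ℕ) := Nat.cast_nonneg _
    linarith

end Pool.Agent.H87T
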