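import Pool.Agent.H87T.Defs

/-!
Windows with bounded modulus: two cases.

PROOF PLAN.  For each `B >= 1` choose data `q_B, χ_B, t_B, u_B, v_B`, and let `S_B` be the sum over the primes
`p <= u_B`, `p ∤ q_B`.  If for every `B0` there is `B >= B0` with `S_B >= B0`, then `CharWindows f`
(`(q + u + |t|)^B0 <= (q + u + |t|)^B`, `1/B <= 1/B0`, `u_B >= B >= B0`).  Otherwise there is `B0 >= 1` with
`S_B < B0` for all `B >= B0`; put `C = B0 + 1`: for `B >= B0` and every `v <= v_B` the sum over the primes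
`p <= v`, `p ∤ q_B` is at most `C` (terms are nonnegative), and `|t_B| <= v_B`.  It remains to see that
`|t_B| → ∞`.  Suppose `|t_B| <= T0` for arbitrarily large `B`.  There are finitely many pairs `(q, χ)` with
`1 <= q <= Q`, so for one pair `(q, χ)` infinitely many `B`; by compactness a subsequence has
`t_B → t'`.  For fixed `x`, `v_B >= x` eventually, the sum over the primes `p <= x`, `p ∤ q`, for `t_B` is at
most `C` and is continuous in `t`; so the same for `t'`.  The primes `p ∣ q` contribute at most `2 q`: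
`distSq f χ t' x <= C + 2 q` for all `x`, against `NonPretentious f`.
-/

namespace Pool.Agent.H87T

open Finset Pool.Agent.H87S

private lemma cases_cont (f : ℕ → ℂ) {q : ℕ} (χ : DirichletCharacter ℂ q) (x : ℕ) :
    Continuous fun t : ℝ => distSq f χ t x := by
  unfold distSq zf
  refine continuous_finset_sum _ fun p hp => ?_
  have hp0 : (p : ℂ) ≠ 0 := by exact_mod_cast (mem_pr.1 hp).2.ne_zero
  refine Continuous.div_const ?_ _
  refine continuous_const.sub (Complex.continuous_re.comp ?_)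
  refine continuous_const.mul ?_
  exact Continuous.const_cpow (by fun_prop) (Or.inl hp0)

private lemma cases_mono {f : ℕ → ℂ} (hf : MultD f) {q : ℕ} (χ : DirichletCharacter ℂ q) (t : ℝ)
    {x y : ℕ} (h : x ≤ y) : distSq f χ t x ≤ distSq f χ t y := by
  unfold distSq
  refine sum_le_sum_of_subset_of_nonneg ?_ ?_
  · intro p hp
    rw [mem_pr] at hp ⊢
    exact ⟨⟨hp.1.1, hp.1.2.trans h⟩, hp.2⟩
  · intro p hp _
    exact div_nonneg (zf_re_le hf χ t p (mem_pr.1 hp).2.one_lt.le) (Nat.cast_nonneg _)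

private lemma cases_unif {f : ℕ → ℂ} (hf : MultD f) (hnp : NonPretentious f) {q : ℕ} (hq : 1 ≤ q)
    (χ : DirichletCharacter ℂ q) (T0 A : ℝ) :
    ∃ x0 : ℕ, ∀ t : ℝ, |t| ≤ T0 → A < distSq f χ t x0 := by
  have h1 : Set.Icc (-T0) T0 ⊆ ⋃ x : ℕ, {t : ℝ | A < distSq f χ t x} := by
    intro t _
    obtain ⟨x, hx⟩ := ((hnp q χ t hq).eventually_gt_atTop A).exists
    exact Set.mem_iUnion.2 ⟨x, hx⟩
  obtain ⟨x0, hx0⟩ := isCompact_Icc.elim_directed_cover (fun x : ℕ => {t : ℝ | A < distSq f χ t x})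
    (fun x => isOpen_lt continuous_const (cases_cont f χ x)) h1 (by
      refine directed_of_isDirected_le fun x y hxy => ?_
      intro t ht
      exact lt_of_lt_of_le ht (cases_mono hf χ t hxy))
  exact ⟨x0, fun t ht => hx0 (abs_le.1 ht)⟩

private lemma cases_unif2 {f : ℕ → ℂ} (hf : MultD f) (hnp : NonPretentious f) (Q : ℕ) (T0 A : ℝ) :
    ∃ x0 : ℕ, ∀ (q : ℕ) (χ : DirichletCharacter ℂ q) (t : ℝ), 1 ≤ q → q ≤ Q → |t| ≤ T0 →
      A < distSq f χ t x0 := by
  have h1 : ∀ q : ℕ, ∃ N : ℕ, 1 ≤ q → ∀ (χ : DirichletCharacter ℂ q) (t : ℝ), |t| ≤ T0 →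
      A < distSq f χ t N := by
    intro q
    by_cases hq : 1 ≤ q
    · haveI : NeZero q := ⟨by omega⟩
      choose x hx using fun χ : DirichletCharacter ℂ q => cases_unif hf hnp hq χ T0 A
      obtain ⟨N, hN⟩ := Finite.bddAbove_range x
      refine ⟨N, fun _ χ t ht => ?_⟩
      exact lt_of_lt_of_le (hx χ t ht) (cases_mono hf χ t (hN ⟨χ, rfl⟩))
    · exact ⟨0, fun h => absurd h hq⟩
  choose N hN using h1
  refine ⟨∑ q ∈ range (Q + 1), N q, fun q χ t hq hqQ ht => ?_⟩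
  refine lt_of_lt_of_le (hN q hq χ t ht) (cases_mono hf χ t ?_)
  exact single_le_sum (f := N) (fun _ _ => Nat.zero_le _) (mem_range.2 (by omega))

private lemma cases_split {f : ℕ → ℂ} (hf : MultD f) {q : ℕ} (hq : 1 ≤ q)
    (χ : DirichletCharacter ℂ q) (t : ℝ) (x : ℕ) :
    distSq f χ t x ≤ ∑ p ∈ (pr 0 x).filter (fun p => ¬ p ∣ q), (1 - (zf f χ t p).re) / p + q := by
  unfold distSq
  rw [← sum_filter_add_sum_filter_not (pr 0 x) (fun p => p ∣ q), add_comm]
  refine add_le_add le_rfl ?_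
  have h1 : ∀ p ∈ (pr 0 x).filter (fun p => p ∣ q), (1 - (zf f χ t p).re) / p ≤ (1 : ℝ) := by
    intro p hp
    have hpp := (mem_pr.1 (mem_filter.1 hp).1).2
    have h2 := zf_norm_le hf χ t p hpp.one_lt.le
    have h3 := (abs_le.1 ((Complex.abs_re_le_norm (zf f χ t p)).trans h2)).1
    have h4 : (2 : ℝ) ≤ p := by exact_mod_cast hpp.two_le
    rw [div_le_one (by linarith)]
    linarith
  have h2 := sum_le_card_nsmul _ _ 1 h1
  have h3 : ((pr 0 x).filter (fun p => p ∣ q)).card ≤ q := by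
    have h4 : (pr 0 x).filter (fun p => p ∣ q) ⊆ Icc 1 q := by
      intro p hp
      rw [mem_filter, mem_pr] at hp
      exact mem_Icc.2 ⟨hp.1.1.1, Nat.le_of_dvd hq hp.2⟩
    calc _ ≤ (Icc 1 q).card := card_le_card h4
      _ = q := by simp
  rw [nsmul_eq_mul, mul_one] at h2
  exact h2.trans (by exact_mod_cast h3)

theorem cases_of_windows (f : ℕ → ℂ) (hf : MultD f) (hnp : NonPretentious f)
    (h : ∃ Q : ℕ, ∀ B : ℕ, 1 ≤ B → ∃ (q : ℕ) (χ : DirichletCharacter ℂ q) (t : ℝ) (u v : ℕ),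
      1 ≤ q ∧ q ≤ Q ∧ B ≤ u ∧ ((q : ℝ) + u + |t|) ^ B ≤ v ∧
      ∑ p ∈ pr u v, (1 - (zf f χ t p).re) / p ≤ 1 / B) :
    CharWindows f ∨ ArchPret f := by
  obtain ⟨Q, h⟩ := h
  by_cases hcase : ∀ B0 : ℕ, 1 ≤ B0 → ∃ (B : ℕ) (q : ℕ) (χ : DirichletCharacter ℂ q) (t : ℝ)
      (u v : ℕ), B0 ≤ B ∧ 1 ≤ q ∧ q ≤ Q ∧ B ≤ u ∧ ((q : ℝ) + u + |t|) ^ B ≤ v ∧
      ∑ p ∈ pr u v, (1 - (zf f χ t p).re) / p ≤ 1 / B ∧
      (B0 : ℝ) ≤ ∑ p ∈ (pr 0 u).filter (fun p => ¬ p ∣ q), (1 - (zf f χ t p).re) / p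
  · left
    intro B0 hB0
    obtain ⟨B, q, χ, t, u, v, hB, hq, -, hu, hv, hs, hS⟩ := hcase B0 hB0
    refine ⟨q, χ, t, u, v, hq, hB.trans hu, ?_, ?_, hS⟩
    · refine (pow_le_pow_right₀ ?_ hB).trans hv
      have h1 : (1 : ℝ) ≤ q := by exact_mod_cast hq
      have h2 : (0 : ℝ) ≤ u := Nat.cast_nonneg _
      have h3 := abs_nonneg t
      linarith
    · refine hs.trans ?_
      have h1 : (1 : ℝ) ≤ B0 := by exact_mod_cast hB0
      have h2 : (B0 : ℝ) ≤ B := by exact_mod_cast hB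
      exact one_div_le_one_div_of_le (by linarith) h2
  · right
    push Not at hcase
    obtain ⟨B0, hB0, hcase⟩ := hcase
    refine ⟨Q, B0 + 1, fun T0 => ?_⟩
    -- uniform divergence for bounded t
    obtain ⟨x0, hx0⟩ := cases_unif2 hf hnp Q T0 ((B0 : ℝ) + 1 + Q)
    set B : ℕ := max B0 x0 with hBdef
    have hB1 : 1 ≤ B := hB0.trans (le_max_left _ _)
    obtain ⟨q, χ, t, u, v, hq, hqQ, hu, hv, hs⟩ := h B hB1
    have hS := hcase B q χ t u v (le_max_left _ _) hq hqQ hu hv hs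
    have hq1 : (1 : ℝ) ≤ q := by exact_mod_cast hq
    have hu0 : (0 : ℝ) ≤ u := Nat.cast_nonneg _
    have ht0 := abs_nonneg t
    have hbase : (1 : ℝ) ≤ (q : ℝ) + u + |t| := by linarith
    have hv1 : (q : ℝ) + u + |t| ≤ v := (le_self_pow₀ hbase (by omega)).trans hv
    have hsum : ∀ w : ℕ, w ≤ v →
        ∑ p ∈ (pr 0 w).filter (fun p => ¬ p ∣ q), (1 - (zf f χ t p).re) / p ≤ (B0 : ℝ) + 1 := by
      intro w hw
      have hnn : ∀ p ∈ pr 0 v, 0 ≤ (1 - (zf f χ t p).re) / p := fun p hp =>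
        div_nonneg (zf_re_le hf χ t p (mem_pr.1 hp).2.one_lt.le) (Nat.cast_nonneg _)
      have h1 : (pr 0 w).filter (fun p => ¬ p ∣ q) ⊆
          (pr 0 u).filter (fun p => ¬ p ∣ q) ∪ pr u v := by
        intro p hp
        rw [mem_filter, mem_pr] at hp
        rw [mem_union, mem_filter, mem_pr, mem_pr]
        rcases le_or_gt p u with hpu | hpu
        · exact Or.inl ⟨⟨⟨hp.1.1.1, hpu⟩, hp.1.2⟩, hp.2⟩
        · exact Or.inr ⟨⟨hpu, hp.1.1.2.trans hw⟩, hp.1.2⟩
      have huv : (u : ℝ) ≤ v := by linarith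
      have huv' : u ≤ v := by exact_mod_cast huv
      have hdis : Disjoint ((pr 0 u).filter (fun p => ¬ p ∣ q)) (pr u v) := by
        rw [disjoint_left]
        intro p hp hp'
        rw [mem_filter, mem_pr] at hp
        rw [mem_pr] at hp'
        omega
      calc ∑ p ∈ (pr 0 w).filter (fun p => ¬ p ∣ q), (1 - (zf f χ t p).re) / p
          ≤ ∑ p ∈ (pr 0 u).filter (fun p => ¬ p ∣ q) ∪ pr u v, (1 - (zf f χ t p).re) / p := by
            refine sum_le_sum_of_subset_of_nonneg h1 fun p hp _ => hnn p ?_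
            rw [mem_union, mem_filter, mem_pr, mem_pr] at hp
            rw [mem_pr]
            rcases hp with hp | hp
            · exact ⟨⟨hp.1.1.1, hp.1.1.2.trans huv'⟩, hp.1.2⟩
            · exact ⟨⟨by omega, hp.1.2⟩, hp.2⟩
        _ = ∑ p ∈ (pr 0 u).filter (fun p => ¬ p ∣ q), (1 - (zf f χ t p).re) / p +
            ∑ p ∈ pr u v, (1 - (zf f χ t p).re) / p := sum_union hdis
        _ ≤ (B0 : ℝ) + 1 := by
            have h2 : (1 : ℝ) / B ≤ 1 := by
              rw [div_le_one (by exact_mod_cast hB1)]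
              exact_mod_cast hB1
            linarith
    refine ⟨q, χ, t, hq, hqQ, ?_, ?_⟩
    · by_contra hlt
      push Not at hlt
      have h1 := hx0 q χ t hq hqQ hlt.le
      have hxv : x0 ≤ v := by
        have h2 : (x0 : ℝ) ≤ u := by exact_mod_cast (le_max_right _ _).trans hu
        have h3 : (x0 : ℝ) ≤ v := by linarith
        exact_mod_cast h3
      have h2 := hsum x0 hxv
      have h3 := cases_split hf hq χ t x0
      have h4 : (q : ℝ) ≤ Q := by exact_mod_cast hqQ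
      linarith
    · intro w hw
      have h1 : (w : ℝ) ≤ v := by linarith
      have h2 := hsum w (by exact_mod_cast h1)
      push_cast
      exact h2

end Pool.Agent.H87T
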