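import Pool.Agent.H87T.Defs

/-!
Divisibility conditions as unions of residue classes.

PROOF.  The conditions depend only on `j` modulo `r = Dd τ * ∏_W p = ∏_(p ∈ P) m p`, where `m p = p` if
`τ p ≠ none` or `p ∈ W`, and `m p = 1` otherwise.  By the Chinese remainder theorem the number of the
residues `b < r` which satisfy the conditions is the product of the numbers of the residues modulo the
`m p`, which is `1` if `τ p ≠ none` (`p ∤ M`) and `k` if `p ∈ W` (`sep`).
-/

namespace Pool.Agent.H87T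

open Finset Pool.Agent.H87S

open Classical in
private theorem ClsSum_two (m n : ℕ) (hm : 1 ≤ m) (hn : 1 ≤ n) (hc : m.Coprime n) (A B : ℕ → Prop) :
    ((range (m * n)).filter (fun b => A (b % m) ∧ B (b % n))).card =
      ((range m).filter A).card * ((range n).filter B).card := by
  rw [← card_product]
  have key : ∀ x : ℕ × ℕ, x.1 < m → x.2 < n →
      (Nat.chineseRemainder hc x.1 x.2 : ℕ) % m = x.1 ∧
        (Nat.chineseRemainder hc x.1 x.2 : ℕ) % n = x.2 := by
    intro x h1 h2
    have h := (Nat.chineseRemainder hc x.1 x.2).2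
    refine ⟨?_, ?_⟩
    · have h3 := h.1
      unfold Nat.ModEq at h3
      rw [h3, Nat.mod_eq_of_lt h1]
    · have h3 := h.2
      unfold Nat.ModEq at h3
      rw [h3, Nat.mod_eq_of_lt h2]
  refine Finset.card_nbij' (fun b => (b % m, b % n))
    (fun x => (Nat.chineseRemainder hc x.1 x.2 : ℕ)) ?_ ?_ ?_ ?_
  · intro b hb
    simp only [coe_filter, Set.mem_ofPred_eq, mem_range] at hb
    simp only [coe_product, coe_filter, Set.mem_prod, Set.mem_ofPred_eq, mem_range]
    exact ⟨⟨Nat.mod_lt _ (by omega), hb.2.1⟩, ⟨Nat.mod_lt _ (by omega), hb.2.2⟩⟩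
  · intro x hx
    simp only [coe_product, coe_filter, Set.mem_prod, Set.mem_ofPred_eq, mem_range] at hx
    obtain ⟨⟨h1, h2⟩, h3, h4⟩ := hx
    simp only [coe_filter, Set.mem_ofPred_eq, mem_range]
    refine ⟨Nat.chineseRemainder_lt_mul hc x.1 x.2 (by omega) (by omega), ?_, ?_⟩
    · rw [(key x h1 h3).1]
      exact h2
    · rw [(key x h1 h3).2]
      exact h4
  · intro b hb
    simp only [coe_filter, Set.mem_ofPred_eq, mem_range] at hb
    have h1 := (Nat.chineseRemainder hc (b % m) (b % n)).2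
    have h2 : (Nat.chineseRemainder hc (b % m) (b % n) : ℕ) ≡ b [MOD m * n] := by
      rw [← Nat.modEq_and_modEq_iff_modEq_mul hc]
      exact ⟨h1.1.trans (Nat.mod_modEq _ _), h1.2.trans (Nat.mod_modEq _ _)⟩
    exact Nat.ModEq.eq_of_lt_of_lt h2
      (Nat.chineseRemainder_lt_mul hc (b % m) (b % n) (by omega) (by omega)) hb.1
  · intro x hx
    simp only [coe_product, coe_filter, Set.mem_prod, Set.mem_ofPred_eq, mem_range] at hx
    obtain ⟨⟨h1, h2⟩, h3, h4⟩ := hx
    exact Prod.ext (key x h1 h3).1 (key x h1 h3).2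

open Classical in
private theorem ClsSum_card {ι : Type} (m : ι → ℕ) (Q : ι → ℕ → Prop) (s : Finset ι) :
    (∀ i ∈ s, 1 ≤ m i) → (∀ i ∈ s, ∀ j ∈ s, i ≠ j → Nat.Coprime (m i) (m j)) →
    ((range (∏ i ∈ s, m i)).filter (fun b => ∀ i ∈ s, Q i (b % m i))).card =
      ∏ i ∈ s, ((range (m i)).filter (Q i)).card := by
  induction s using Finset.induction_on with
  | empty =>
    intro _ _
    simp
  | insert a s ha ih =>
    intro hm hc
    rw [prod_insert ha, prod_insert ha]
    have ih' := ih (fun i hi => hm i (mem_insert_of_mem hi))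
      (fun i hi j hj => hc i (mem_insert_of_mem hi) j (mem_insert_of_mem hj))
    obtain ⟨S, hS⟩ : ∃ S : ℕ → Prop, ∀ b, S b ↔ ∀ i ∈ s, Q i (b % m i) := ⟨_, fun _ => Iff.rfl⟩
    have h1 := ClsSum_two (m a) (∏ i ∈ s, m i) (hm a (mem_insert_self _ _))
      (Nat.one_le_iff_ne_zero.mpr (prod_ne_zero_iff.mpr fun i hi => by
        have := hm i (mem_insert_of_mem hi)
        omega))
      (Nat.Coprime.prod_right fun i hi => hc a (mem_insert_self _ _) i (mem_insert_of_mem hi)
        (fun h => ha (h ▸ hi)))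
      (Q a) S
    refine Eq.trans ?_ (h1.trans ?_)
    · congr 1
      ext b
      rw [mem_filter, mem_filter, hS]
      refine and_congr_right fun _ => ?_
      constructor
      · intro h
        refine ⟨h a (mem_insert_self _ _), fun i hi => ?_⟩
        rw [Nat.mod_mod_of_dvd _ (dvd_prod_of_mem _ hi)]
        exact h i (mem_insert_of_mem hi)
      · rintro ⟨h2, h3⟩ i hi
        rcases mem_insert.mp hi with rfl | hi
        · exact h2
        · have h4 := h3 i hi
          rwa [Nat.mod_mod_of_dvd _ (dvd_prod_of_mem _ hi)] at h4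
    · rw [← ih']
      congr 2
      ext b
      rw [mem_filter, mem_filter, hS]

/-- For every prime not dividing `M` there is exactly one residue. -/
private theorem ClsSum_one (p c M : ℕ) (hp : p.Prime) (hM : ¬ p ∣ M) :
    ∃ a < p, ∀ b < p, p ∣ c + M * b ↔ b = a := by
  have hcop : Nat.Coprime M p := ((Nat.Prime.coprime_iff_not_dvd hp).mpr hM).symm
  have : Fact p.Prime := ⟨hp⟩
  have hM0 : (M : ZMod p) ≠ 0 := by
    intro h
    exact hM ((ZMod.natCast_eq_zero_iff M p).mp h)
  set x : ZMod p := -(c : ZMod p) / M with hx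
  refine ⟨x.val, ZMod.val_lt x, fun b hb => ?_⟩
  have h1 : p ∣ c + M * b ↔ (b : ZMod p) = x := by
    rw [← ZMod.natCast_eq_zero_iff, hx, eq_div_iff hM0]
    push_cast
    constructor
    · intro h
      linear_combination h
    · intro h
      linear_combination h
  rw [h1]
  constructor
  · intro h
    rw [← h, ZMod.val_natCast, Nat.mod_eq_of_lt hb]
  · intro h
    rw [h, ZMod.natCast_val, ZMod.cast_id]

open Classical in
private theorem ClsSum_k (p k M : ℕ) (c : Fin k → ℕ) (hp : p.Prime) (hM : ¬ p ∣ M)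
    (hsep : ∀ i i' : Fin k, i ≠ i' → ¬ (c i ≡ c i' [MOD p])) :
    ((range p).filter (fun b => ∃ i : Fin k, p ∣ c i + M * b)).card = k := by
  choose a ha hb using fun i : Fin k => ClsSum_one p (c i) M hp hM
  have h1 : (range p).filter (fun b => ∃ i : Fin k, p ∣ c i + M * b) = univ.image a := by
    ext b
    simp only [mem_filter, mem_range, mem_image, mem_univ, true_and]
    constructor
    · rintro ⟨h2, i, h3⟩
      exact ⟨i, ((hb i b h2).mp h3).symm⟩
    · rintro ⟨i, rfl⟩
      exact ⟨ha i, i, (hb i (a i) (ha i)).mpr rfl⟩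
  rw [h1, card_image_of_injective, card_univ, Fintype.card_fin]
  intro i i' hii
  by_contra hne
  apply hsep i i' hne
  have h2 : p ∣ c i + M * a i := (hb i (a i) (ha i)).mpr rfl
  have h3 : p ∣ c i' + M * a i := (hb i' (a i) (ha i)).mpr hii
  have h4 : c i + M * a i ≡ c i' + M * a i [MOD p] :=
    ((Nat.modEq_zero_iff_dvd).mpr h2).trans ((Nat.modEq_zero_iff_dvd).mpr h3).symm
  exact Nat.ModEq.add_right_cancel' _ h4

open Classical in
theorem cls_sum {P : Finset ℕ} {k M : ℕ} {c : Fin k → ℕ} (hA : Adm P k M c) (τ : Asg P k)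
    (W : Finset ℕ) (hW : W ⊆ P) (hWτ : ∀ p : ↥P, (p : ℕ) ∈ W → τ p = none) (ψ : ℕ → ℂ) (N : ℕ)
    (s : ℂ) (err : ℝ)
    (h : ∀ b : ℕ, b < Dd τ * ∏ p ∈ W, p →
      ‖∑ j ∈ (range N).filter (fun j => j % (Dd τ * ∏ p ∈ W, p) = b), ψ j - s‖ ≤ err) :
    ‖∑ j ∈ (range N).filter (fun j =>
        (∀ (p : ↥P) (i : Fin k), τ p = some i → (p : ℕ) ∣ c i + M * j) ∧
        ∀ p ∈ W, ∃ i : Fin k, p ∣ c i + M * j), ψ j - (k : ℂ) ^ W.card * s‖ ≤
      (k : ℝ) ^ W.card * err := by
  set m : ↥P → ℕ := fun p => (match τ p with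
    | none => 1
    | some _ => (p : ℕ)) * (if (p : ℕ) ∈ W then (p : ℕ) else 1) with hmdef
  have hmnone : ∀ p : ↥P, τ p = none → m p = if (p : ℕ) ∈ W then (p : ℕ) else 1 := by
    intro p hp
    simp only [hmdef, hp, one_mul]
  have hmsome : ∀ (p : ↥P) (i : Fin k), τ p = some i → m p = p := by
    intro p i hp
    have h1 : (p : ℕ) ∉ W := by
      intro h2
      rw [hWτ p h2] at hp
      exact absurd hp (by simp)
    simp only [hmdef, hp, h1, if_false, mul_one]
  have hmcases : ∀ p : ↥P, m p = 1 ∨ m p = p := by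
    intro p
    rcases hτ : τ p with _ | i
    · rw [hmnone p hτ]
      split_ifs
      · right; rfl
      · left; rfl
    · right
      exact hmsome p i hτ
  set r : ℕ := Dd τ * ∏ p ∈ W, p with hr
  have hrm : r = ∏ p : ↥P, m p := by
    rw [hr]
    simp only [hmdef]
    rw [prod_mul_distrib]
    congr 1
    have h1 : ∏ p : ↥P, (if (p : ℕ) ∈ W then (p : ℕ) else 1) =
        ∏ p ∈ P, (if p ∈ W then p else 1) :=
      Finset.prod_coe_sort P (fun p => if p ∈ W then p else 1)
    rw [h1, ← prod_filter, filter_mem_eq_inter, inter_eq_right.mpr hW]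
  have hpp : ∀ p : ↥P, (p : ℕ).Prime := fun p => hA.prime p p.2
  have hm1 : ∀ p : ↥P, 1 ≤ m p := by
    intro p
    rcases hmcases p with h1 | h1
    · omega
    · rw [h1]
      exact (hpp p).one_lt.le
  have hmc : ∀ p q : ↥P, p ≠ q → Nat.Coprime (m p) (m q) := by
    intro p q hpq
    rcases hmcases p with h1 | h1
    · rw [h1]
      exact Nat.coprime_one_left _
    · rcases hmcases q with h2 | h2
      · rw [h2]
        exact Nat.coprime_one_right _
      · rw [h1, h2]
        exact (Nat.coprime_primes (hpp p) (hpp q)).mpr fun h3 => hpq (Subtype.ext h3)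
  -- the conditions at one prime
  obtain ⟨Q, hQ⟩ : ∃ Q : ↥P → ℕ → Prop, ∀ p b, Q p b ↔
    (∀ i : Fin k, τ p = some i → (p : ℕ) ∣ c i + M * b) ∧
      ((p : ℕ) ∈ W → ∃ i : Fin k, (p : ℕ) ∣ c i + M * b) := ⟨_, fun _ _ => Iff.rfl⟩
  have hdvd : ∀ (d e b : ℕ), d ∣ e + M * (b % d) ↔ d ∣ e + M * b := by
    intro d e b
    have h1 : e + M * (b % d) ≡ e + M * b [MOD d] :=
      Nat.ModEq.add_left _ (Nat.ModEq.mul_left _ (Nat.mod_modEq _ _))
    exact (Nat.ModEq.dvd_iff h1 dvd_rfl)
  have hQmod : ∀ (p : ↥P) (b : ℕ), Q p (b % m p) ↔ Q p b := by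
    intro p b
    simp only [hQ]
    rcases hτ : τ p with _ | i
    · by_cases hpW : (p : ℕ) ∈ W
      · rw [hmnone p hτ, if_pos hpW]
        simp only [hdvd]
      · simp [hpW]
    · rw [hmsome p i hτ]
      simp only [hdvd]
  set Cond : ℕ → Prop := fun j =>
    (∀ (p : ↥P) (i : Fin k), τ p = some i → (p : ℕ) ∣ c i + M * j) ∧
        ∀ p ∈ W, ∃ i : Fin k, p ∣ c i + M * j with hCond
  have hCQ : ∀ j, Cond j ↔ ∀ p ∈ (univ : Finset ↥P), Q p (j % m p) := by
    intro j
    simp only [hQmod]
    simp only [hCond, hQ, mem_univ, forall_const]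
    constructor
    · rintro ⟨h1, h2⟩ p
      exact ⟨h1 p, h2 p⟩
    · intro h1
      exact ⟨fun p => (h1 p).1, fun p hp => (h1 ⟨p, hW hp⟩).2 hp⟩
  have hcard : ((range r).filter Cond).card = k ^ W.card := by
    have h1 := ClsSum_card m Q univ (fun p _ => hm1 p) (fun p _ q _ => hmc p q)
    rw [← hrm] at h1
    have h2 : (range r).filter Cond =
        (range r).filter (fun b => ∀ p ∈ (univ : Finset ↥P), Q p (b % m p)) :=
      filter_congr fun b _ => hCQ b
    rw [h2]
    refine Eq.trans (Eq.trans ?_ h1) ?_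
    · congr!
    have h3 : ∀ p : ↥P, ((range (m p)).filter (Q p)).card = if (p : ℕ) ∈ W then k else 1 := by
      intro p
      rcases hτ : τ p with _ | i
      · by_cases hpW : (p : ℕ) ∈ W
        · rw [hmnone p hτ, if_pos hpW, if_pos hpW]
          rw [← ClsSum_k p k M c (hpp p) (hA.cop p p.2) (hA.sep p p.2)]
          congr 1
          ext b
          simp only [mem_filter, hQ, hτ, hpW]
          simp
        · rw [hmnone p hτ, if_neg hpW, if_neg hpW]
          have : (range 1).filter (Q p) = range 1 := by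
            apply filter_true_of_mem
            intro b _
            simp [hQ, hτ, hpW]
          rw [this, card_range]
      · have hpW : (p : ℕ) ∉ W := by
          intro h4
          rw [hWτ p h4] at hτ
          exact absurd hτ (by simp)
        rw [hmsome p i hτ, if_neg hpW, card_eq_one]
        obtain ⟨a, ha, hb⟩ := ClsSum_one p (c i) M (hpp p) (hA.cop p p.2)
        refine ⟨a, ?_⟩
        ext b
        simp only [mem_filter, mem_range, mem_singleton, hQ]
        constructor
        · rintro ⟨h4, h5, -⟩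
          exact (hb b h4).mp (h5 i hτ)
        · rintro rfl
          refine ⟨ha, ?_, fun h5 => absurd h5 hpW⟩
          intro i' hi'
          rw [hτ] at hi'
          have : i = i' := Option.some_injective _ hi'
          rw [← this]
          exact (hb _ ha).mpr rfl
    rw [prod_congr rfl fun p _ => h3 p]
    have h4 : ∏ p : ↥P, (if (p : ℕ) ∈ W then k else 1) = ∏ p ∈ P, (if p ∈ W then k else 1) :=
      Finset.prod_coe_sort P (fun p => if p ∈ W then k else 1)
    rw [h4, ← prod_filter, filter_mem_eq_inter, inter_eq_right.mpr hW, prod_const]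
  have hr1 : 1 ≤ r := by
    rw [hrm]
    exact Nat.one_le_iff_ne_zero.mpr (prod_ne_zero_iff.mpr fun p _ => by
      have := hm1 p
      omega)
  have hCmod : ∀ j, Cond (j % r) ↔ Cond j := by
    intro j
    rw [hCQ, hCQ]
    have h1 : ∀ p : ↥P, j % r % m p = j % m p := by
      intro p
      rw [Nat.mod_mod_of_dvd]
      rw [hrm]
      exact dvd_prod_of_mem _ (mem_univ p)
    simp only [h1]
  have hsum : ∑ j ∈ (range N).filter Cond, ψ j =
      ∑ b ∈ (range r).filter Cond, ∑ j ∈ (range N).filter (fun j => j % r = b), ψ j := by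
    have h1 : ∀ j ∈ (range N).filter Cond, j % r ∈ (range r).filter Cond := by
      intro j hj
      rw [mem_filter] at hj ⊢
      exact ⟨mem_range.mpr (Nat.mod_lt _ (by omega)), (hCmod j).mpr hj.2⟩
    rw [← sum_fiberwise_of_maps_to h1]
    apply sum_congr rfl
    intro b hb
    apply sum_congr _ fun _ _ => rfl
    ext j
    simp only [mem_filter]
    constructor
    · rintro ⟨⟨h2, h3⟩, h4⟩
      exact ⟨h2, h4⟩
    · rintro ⟨h2, h4⟩
      refine ⟨⟨h2, ?_⟩, h4⟩
      rw [← hCmod, h4]
      exact (mem_filter.mp hb).2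
  rw [hsum]
  have h5 : (k : ℂ) ^ W.card * s = ∑ b ∈ (range r).filter Cond, s := by
    rw [sum_const, hcard, nsmul_eq_mul]
    push_cast
    rfl
  rw [h5, ← sum_sub_distrib]
  calc ‖∑ b ∈ (range r).filter Cond, (∑ j ∈ (range N).filter (fun j => j % r = b), ψ j - s)‖
      ≤ ∑ b ∈ (range r).filter Cond, ‖∑ j ∈ (range N).filter (fun j => j % r = b), ψ j - s‖ :=
        norm_sum_le _ _
    _ ≤ ∑ b ∈ (range r).filter Cond, err := by
        apply sum_le_sum
        intro b hb
        have h6 := mem_range.mp (mem_filter.mp hb).1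
        exact h b h6
    _ = (k : ℝ) ^ W.card * err := by
        rw [sum_const, hcard, nsmul_eq_mul]
        push_cast
        rfl

end Pool.Agent.H87T
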