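import Pool.Agent.H87T.Defs
import Pool.Agent.H87S.PrimeSums

/-!
Upper bounds for Euler products and for the sum over the assignments.

PROOF PLAN.  `1 + u <= exp u` and `∑_{p <= y} 1/p <= 1 + C (1 + log (log y/log 2))` (`mertens_diff` with `y = 2`):
the product is at most `exp (3 k (...)) <= C' (1 + log y)^m`, `m = ⌈3 k C⌉`.
`tau_sum`: `1/Dd τ = ∏_p (1 or 1/p)`, distribute the product over `τ p ∈ Option (Fin k)`
(`Finset.prod_univ_sum`/`Fintype.piFinset`; compare `Pool/Agent/H87S/Model.lean`).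
-/

namespace Pool.Agent.H87T

open Finset Pool.Agent.H87S

private theorem EulerUp_inv {C : ℝ}
    (hC : ∀ y x : ℕ, 2 ≤ y → y ≤ x →
      ∑ p ∈ pr y x, (1 : ℝ) / p ≤ C * (1 + Real.log (Real.log x / Real.log y)))
    {y : ℕ} (hy : 2 ≤ y) :
    ∑ p ∈ pr 0 y, (1 : ℝ) / p ≤ 1 + C * (1 + Real.log (Real.log y / Real.log 2)) := by
  have h1 := hC 2 y le_rfl hy
  have h2 : pr 0 y ⊆ insert 2 (pr 2 y) := by
    intro p hp
    obtain ⟨⟨h3, h4⟩, h5⟩ := mem_pr.1 hp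
    rw [mem_insert, mem_pr]
    have h6 := h5.two_le
    rcases h6.eq_or_lt with h7 | h7
    · exact Or.inl h7.symm
    · exact Or.inr ⟨⟨h7, h4⟩, h5⟩
  have h3 : ∑ p ∈ pr 0 y, (1 : ℝ) / p ≤ ∑ p ∈ insert 2 (pr 2 y), (1 : ℝ) / p :=
    Finset.sum_le_sum_of_subset_of_nonneg h2 fun p _ _ => by positivity
  have h4 : (2 : ℕ) ∉ pr 2 y := by
    rw [mem_pr]
    rintro ⟨⟨h5, -⟩, -⟩
    exact lt_irrefl _ h5
  rw [Finset.sum_insert h4] at h3
  have h5 : (1 : ℝ) / ((2 : ℕ) : ℝ) ≤ 1 := by norm_num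
  have h6 : ((2 : ℕ) : ℝ) = 2 := by norm_num
  rw [h6] at h1
  linarith

theorem euler_up (k : ℕ) : ∃ (C : ℝ) (m : ℕ), 0 < C ∧ ∀ (P : Finset ℕ) (y : ℕ), 2 ≤ y →
    (∀ p ∈ P, p.Prime ∧ p ≤ y) →
    ∏ p ∈ P, (1 + 3 * (k : ℝ) / p) ≤ C * (1 + Real.log y) ^ m := by
  obtain ⟨C, hC0, hC⟩ := mertens_diff
  set m : ℕ := ⌈3 * (k : ℝ) * C⌉₊ with hm
  refine ⟨Real.exp (3 * k * (1 + C)) * 2 ^ m, m, by positivity, fun P y hy hP => ?_⟩
  have hk0 : (0 : ℝ) ≤ k := Nat.cast_nonneg k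
  have h1 : ∏ p ∈ P, (1 + 3 * (k : ℝ) / p) ≤ ∏ p ∈ P, Real.exp (3 * (k : ℝ) / p) := by
    refine Finset.prod_le_prod (fun p _ => by positivity) fun p _ => ?_
    have := Real.add_one_le_exp (3 * (k : ℝ) / p)
    linarith
  rw [← Real.exp_sum] at h1
  have h2 : ∑ p ∈ P, 3 * (k : ℝ) / p ≤ 3 * k * ∑ p ∈ pr 0 y, (1 : ℝ) / p := by
    rw [Finset.mul_sum]
    have h3 : P ⊆ pr 0 y := by
      intro p hp
      obtain ⟨h4, h5⟩ := hP p hp
      exact mem_pr.2 ⟨⟨h4.pos, h5⟩, h4⟩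
    calc ∑ p ∈ P, 3 * (k : ℝ) / p = ∑ p ∈ P, 3 * (k : ℝ) * (1 / p) :=
          Finset.sum_congr rfl fun p _ => by ring
      _ ≤ ∑ p ∈ pr 0 y, 3 * (k : ℝ) * (1 / p) :=
          Finset.sum_le_sum_of_subset_of_nonneg h3 fun p _ _ => by positivity
  have h3 := EulerUp_inv hC hy
  have hlog2 : 0 < Real.log 2 := Real.log_pos (by norm_num)
  have hly : Real.log 2 ≤ Real.log y :=
    Real.log_le_log (by norm_num) (by exact_mod_cast hy)
  have hly0 : 0 < Real.log y := hlog2.trans_le hly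
  have hL1 : 1 ≤ Real.log y / Real.log 2 := (one_le_div hlog2).2 hly
  have hL0 : 0 < Real.log y / Real.log 2 := by linarith
  have hLL : 0 ≤ Real.log (Real.log y / Real.log 2) := Real.log_nonneg hL1
  have hL2 : Real.log y / Real.log 2 ≤ 2 * (1 + Real.log y) := by
    rw [div_le_iff₀ hlog2]
    have := Real.log_two_gt_d9
    nlinarith
  have h4 : ∑ p ∈ P, 3 * (k : ℝ) / p ≤
      3 * k * (1 + C) + m * Real.log (Real.log y / Real.log 2) := by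
    refine h2.trans ((mul_le_mul_of_nonneg_left h3 (by positivity)).trans ?_)
    have h5 : 3 * (k : ℝ) * C ≤ m := Nat.le_ceil _
    have h6 := mul_le_mul_of_nonneg_right h5 hLL
    nlinarith
  refine h1.trans ((Real.exp_le_exp.2 h4).trans ?_)
  rw [Real.exp_add, mul_assoc (Real.exp (3 * k * (1 + C)))]
  refine mul_le_mul_of_nonneg_left ?_ (Real.exp_pos _).le
  rw [← mul_pow, ← Real.log_pow, Real.exp_log (pow_pos hL0 m)]
  exact pow_le_pow_left₀ hL0.le hL2 m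

/-- the weight of one prime -/
private noncomputable def EulerUp_w {k : ℕ} (p : ℕ) (o : Option (Fin k)) : ℝ :=
  match o with
  | none => 1
  | some _ => 1 / (p : ℝ)

private theorem EulerUp_Dd {P : Finset ℕ} {k : ℕ} (τ : Asg P k) :
    1 / (Dd τ : ℝ) = ∏ p : ↥P, EulerUp_w (p : ℕ) (τ p) := by
  unfold Dd
  rw [Nat.cast_prod, one_div, ← Finset.prod_inv_distrib]
  refine Finset.prod_congr rfl fun p _ => ?_
  unfold EulerUp_w
  rcases τ p with _ | i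
  · simp
  · simp

theorem tau_sum {P : Finset ℕ} {k : ℕ} (hP : ∀ p ∈ P, 1 ≤ p) :
    ∑ τ : Asg P k, 1 / (Dd τ : ℝ) = ∏ p ∈ P, (1 + (k : ℝ) / p) := by
  have h1 : ∑ τ : Asg P k, 1 / (Dd τ : ℝ) = ∑ τ : Asg P k, ∏ p : ↥P, EulerUp_w (p : ℕ) (τ p) :=
    Finset.sum_congr rfl fun τ _ => EulerUp_Dd τ
  have h2 : ∑ τ : Asg P k, ∏ p : ↥P, EulerUp_w (p : ℕ) (τ p) =
      ∏ p : ↥P, ∑ o : Option (Fin k), EulerUp_w (p : ℕ) o := by
    rw [Finset.prod_univ_sum, Fintype.piFinset_univ]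
  rw [h1, h2]
  have h3 : ∀ p : ↥P, ∑ o : Option (Fin k), EulerUp_w (p : ℕ) o = 1 + (k : ℝ) / ((p : ℕ) : ℝ) := by
    intro p
    rw [Fintype.sum_option]
    simp only [EulerUp_w, Finset.sum_const, Finset.card_univ, Fintype.card_fin, nsmul_eq_mul]
    ring
  rw [Finset.prod_congr rfl fun p _ => h3 p]
  exact Finset.prod_coe_sort P (fun p => 1 + (k : ℝ) / (p : ℝ))

end Pool.Agent.H87T
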