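import Pool.Agent.H87T.TauBound
import Pool.Agent.H87T.EulerUp
import Pool.Agent.H87S.Model
import Pool.Agent.H87S.ActLog
import Pool.Agent.H87S.PrimeSums

/-!
Twisted correlations: total variation argument with the weight `ψ`.

PROOF PLAN.  `∏_i GP P (z i) (c i + M j) = Zf z (act j)` (`act_prod`), `|Zf| <= 1` (`Zf_norm_le`).  Let
`δ = k C1 log y/log R` (`sum_log_div`: `∑_P log p/p <= C1 log y`).  If `δ > 1/2` the trivial bound `N` suffices.
Let `δ <= 1/2` and `𝒯 = {τ : Dd τ <= R}`, `Λ_τ` from `tau_bound` for `τ ∈ 𝒯` (`r <= Dd τ R^2 <= R^3`).  With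
`m τ = #{j < N : act j = τ}`, `s τ = ∑_{j : act j = τ} ψ j`, `B = #{j < N : Dd (act j) > R}`:
`|∑_j ψ j Zf z (act j)| <= ∑_{τ ∈ 𝒯} |s τ| + B`,
`|s τ| <= |∑_j Λ_τ j ψ j| + ∑_j (Λ_τ j - 1[act j = τ])` (`|ψ| <= 1`, `Λ_τ >= 1[act = τ]`), and
`∑_{τ ∈ 𝒯} ∑_j (Λ_τ j - 1[act j = τ]) <= N/(1-δ) + R^4 |𝒯| - (N - B)` (`sum_nu`, `nu_nonneg`),
`1/(1-δ) <= 1 + 2δ`.  `|𝒯| <= R ∑_τ 1/Dd τ <= R Lg`, `Lg = C (1 + log R)^m` (`tau_sum`, `euler_up`, `y <= R`),
`∑_{τ ∈ 𝒯} |∑_j Λ_τ ψ| <= E N Lg^2`.  `B log R <= ∑_j log Dd (act j) <= ∑_P log p k (N/p + 1)`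
(`act_log`) `<= k (C1 N log y + y log y)` and `y <= R <= N`.  `R^5 Lg <= C' R^6 <= C' N/R^10`.
-/

namespace Pool.Agent.H87T

open Finset Pool.Agent.H87S

private theorem Corr2_Dd_pos {P : Finset ℕ} {k : ℕ} (hP : ∀ p ∈ P, p.Prime) (τ : Asg P k) :
    1 ≤ Dd τ := by
  unfold Dd
  refine Nat.succ_le_of_lt (Finset.prod_pos fun p _ => ?_)
  cases τ p with
  | none => exact one_pos
  | some _ => exact (hP p.1 p.2).pos

/-- the total variation argument with majorants -/
private theorem Corr2_split {ι : Type*} [DecidableEq ι] (A : ℕ → ι) (N : ℕ)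
    (T : Finset ι) (ψ : ℕ → ℂ) (hψ : ∀ j < N, ‖ψ j‖ ≤ 1) (Z : ι → ℂ) (hZ : ∀ τ, ‖Z τ‖ ≤ 1)
    (Λ : ι → ℕ → ℝ) (h0 : ∀ τ ∈ T, ∀ j, 0 ≤ Λ τ j) (h1 : ∀ τ ∈ T, ∀ j, A j = τ → 1 ≤ Λ τ j)
    (U W : ι → ℝ) (hU : ∀ τ ∈ T, ∑ j ∈ range N, Λ τ j ≤ U τ)
    (hW : ∀ τ ∈ T, ‖∑ j ∈ range N, (Λ τ j : ℂ) * ψ j‖ ≤ W τ) :
    ‖∑ j ∈ range N, ψ j * Z (A j)‖ ≤ ∑ τ ∈ T, W τ + (∑ τ ∈ T, U τ - N) +
      2 * (((range N).filter (fun j => A j ∉ T)).card : ℝ) := by
  have e : ∀ j, ψ j * Z (A j) = ∑ τ ∈ T, (if A j = τ then (1 : ℂ) else 0) * ψ j * Z τ +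
      (if A j ∈ T then 0 else ψ j * Z (A j)) := by
    intro j
    by_cases h : A j ∈ T
    · rw [if_pos h, add_zero, Finset.sum_eq_single (A j)]
      · rw [if_pos rfl, one_mul]
      · intro τ _ hne
        rw [if_neg (Ne.symm hne), zero_mul, zero_mul]
      · intro hn
        exact absurd h hn
    · rw [if_neg h, Finset.sum_eq_zero, zero_add]
      intro τ hτ
      rw [if_neg, zero_mul, zero_mul]
      rintro rfl
      exact h hτ
  have e2 : ∑ j ∈ range N, ψ j * Z (A j) =
      ∑ τ ∈ T, (∑ j ∈ range N, (if A j = τ then (1 : ℂ) else 0) * ψ j) * Z τ +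
      ∑ j ∈ (range N).filter (fun j => A j ∉ T), ψ j * Z (A j) := by
    rw [Finset.sum_congr rfl (fun j _ => e j), Finset.sum_add_distrib, Finset.sum_comm]
    congr 1
    · exact Finset.sum_congr rfl fun τ _ => (Finset.sum_mul _ _ _).symm
    · rw [Finset.sum_filter]
      exact Finset.sum_congr rfl fun j _ => by by_cases h : A j ∈ T <;> simp [h]
  have e3 : ‖∑ j ∈ (range N).filter (fun j => A j ∉ T), ψ j * Z (A j)‖ ≤
      (((range N).filter (fun j => A j ∉ T)).card : ℝ) := by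
    refine (norm_sum_le _ _).trans ?_
    rw [← nsmul_one, ← Finset.sum_const]
    refine Finset.sum_le_sum fun j hj => ?_
    have hj' := Finset.mem_range.1 (Finset.mem_filter.1 hj).1
    rw [norm_mul]
    calc ‖ψ j‖ * ‖Z (A j)‖ ≤ 1 * 1 :=
          mul_le_mul (hψ j hj') (hZ _) (norm_nonneg _) zero_le_one
      _ = 1 := one_mul 1
  have e4 : ∀ τ ∈ T, ‖(∑ j ∈ range N, (if A j = τ then (1 : ℂ) else 0) * ψ j) * Z τ‖ ≤
      W τ + (U τ - ∑ j ∈ range N, (if A j = τ then (1 : ℝ) else 0)) := by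
    intro τ hτ
    rw [norm_mul]
    have a1 : ∑ j ∈ range N, (if A j = τ then (1 : ℂ) else 0) * ψ j =
        ∑ j ∈ range N, (Λ τ j : ℂ) * ψ j -
        ∑ j ∈ range N, ((Λ τ j - (if A j = τ then (1 : ℝ) else 0) : ℝ) : ℂ) * ψ j := by
      rw [← Finset.sum_sub_distrib]
      refine Finset.sum_congr rfl fun j _ => ?_
      by_cases h : A j = τ
      · simp only [if_pos h]
        push_cast
        ring
      · simp only [if_neg h]
        push_cast
        ring
    have a2 : ‖∑ j ∈ range N, ((Λ τ j - (if A j = τ then (1 : ℝ) else 0) : ℝ) : ℂ) * ψ j‖ ≤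
        ∑ j ∈ range N, (Λ τ j - (if A j = τ then (1 : ℝ) else 0)) := by
      refine (norm_sum_le _ _).trans (Finset.sum_le_sum fun j hj => ?_)
      have b1 : 0 ≤ Λ τ j - (if A j = τ then (1 : ℝ) else 0) := by
        by_cases h : A j = τ
        · rw [if_pos h]
          linarith [h1 τ hτ j h]
        · rw [if_neg h]
          linarith [h0 τ hτ j]
      rw [norm_mul, Complex.norm_real, Real.norm_eq_abs, abs_of_nonneg b1]
      exact mul_le_of_le_one_right b1 (hψ j (Finset.mem_range.1 hj))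
    rw [Finset.sum_sub_distrib] at a2
    have a3 : ‖∑ j ∈ range N, (if A j = τ then (1 : ℂ) else 0) * ψ j‖ ≤
        W τ + (U τ - ∑ j ∈ range N, (if A j = τ then (1 : ℝ) else 0)) := by
      rw [a1]
      refine (norm_sub_le _ _).trans ?_
      have := hU τ hτ
      have := hW τ hτ
      linarith
    calc _ ≤ ‖∑ j ∈ range N, (if A j = τ then (1 : ℂ) else 0) * ψ j‖ * 1 :=
          mul_le_mul_of_nonneg_left (hZ τ) (norm_nonneg _)
      _ ≤ _ := by rw [mul_one]; exact a3
  have e5 : ∑ τ ∈ T, ∑ j ∈ range N, (if A j = τ then (1 : ℝ) else 0) =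
      N - (((range N).filter (fun j => A j ∉ T)).card : ℝ) := by
    rw [Finset.sum_comm]
    have b1 : ∀ j ∈ range N, ∑ τ ∈ T, (if A j = τ then (1 : ℝ) else 0) =
        1 - (if A j ∉ T then (1 : ℝ) else 0) := by
      intro j _
      rw [Finset.sum_ite_eq]
      by_cases h : A j ∈ T <;> simp [h]
    rw [Finset.sum_congr rfl b1, Finset.sum_sub_distrib, Finset.sum_boole, Finset.sum_const,
      Finset.card_range, nsmul_eq_mul, mul_one]
  rw [e2]
  refine (norm_add_le _ _).trans ?_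
  have e6 : ‖∑ τ ∈ T, (∑ j ∈ range N, (if A j = τ then (1 : ℂ) else 0) * ψ j) * Z τ‖ ≤
      ∑ τ ∈ T, W τ + (∑ τ ∈ T, U τ - (N - (((range N).filter (fun j => A j ∉ T)).card : ℝ))) := by
    refine (norm_sum_le _ _).trans ((Finset.sum_le_sum e4).trans (le_of_eq ?_))
    rw [Finset.sum_add_distrib, Finset.sum_sub_distrib, e5]
  linarith

theorem corr2 (k : ℕ) (hk : 1 ≤ k) : ∃ (C : ℝ) (m : ℕ), 0 < C ∧
    ∀ (P : Finset ℕ) (M : ℕ) (c : Fin k → ℕ), Adm P k M c →
    ∀ y N R : ℕ, 2 ≤ y → (∀ p ∈ P, p ≤ y) → y ≤ R → R ^ 16 ≤ N →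
    ∀ z : Fin k → ℕ → ℂ, (∀ i, ∀ p ∈ P, ‖z i p‖ ≤ 1) →
    ∀ (ψ : ℕ → ℂ) (E : ℝ), (∀ j < N, ‖ψ j‖ ≤ 1) → 0 ≤ E →
    (∀ r b : ℕ, 1 ≤ r → r ≤ R ^ 3 →
      ‖∑ j ∈ (range N).filter (fun j => j % r = b), ψ j‖ ≤ E * ((N : ℝ) / r)) →
    ‖∑ j ∈ range N, ψ j * ∏ i : Fin k, GP P (z i) (c i + M * j)‖ ≤
      C * N * (Real.log y / Real.log R + E * (1 + Real.log R) ^ m) := by
  obtain ⟨C1, hC1, h1⟩ := sum_log_div
  obtain ⟨Ce, me, hCe, h2⟩ := euler_up k
  set F : ℝ := ((me + 1).factorial : ℝ) * Real.exp 1 with hF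
  have hF0 : 0 < F := by positivity
  refine ⟨2 * (k * (C1 + 1)) + 2 * (k * C1) + 2 * (Ce * F) + Ce ^ 2, 2 * me, by positivity, ?_⟩
  intro P M c hA y N R hy hPy hyR hRN z hz ψ E hψ hE hψE
  classical
  have hPlt : ∀ p ∈ P, k < p := hA.lt
  have hk1 : (1 : ℝ) ≤ k := by exact_mod_cast hk
  have hR : 2 ≤ R := hy.trans hyR
  have hy1 : (2 : ℝ) ≤ y := by exact_mod_cast hy
  have hR1 : (2 : ℝ) ≤ R := by exact_mod_cast hR
  have hyR1 : (y : ℝ) ≤ R := by exact_mod_cast hyR
  have hRN1 : (R : ℝ) ^ 16 ≤ N := by exact_mod_cast hRN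
  have hRleN : R ≤ N := (Nat.le_self_pow (by norm_num) R).trans hRN
  have hN0 : (0 : ℝ) < N := lt_of_lt_of_le (by positivity) hRN1
  have hl2 : (0.5 : ℝ) ≤ Real.log 2 := by linarith [Real.log_two_gt_d9]
  have hly : Real.log 2 ≤ Real.log y := Real.log_le_log (by norm_num) hy1
  have hlyR : Real.log y ≤ Real.log R := Real.log_le_log (by linarith) hyR1
  have hlR0 : 0 < Real.log R := by linarith
  set L : ℝ := Real.log y / Real.log R with hL
  have hL0 : 0 < L := div_pos (by linarith) hlR0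
  have hLR : L * Real.log R = Real.log y := div_mul_cancel₀ _ hlR0.ne'
  have hsum : ∑ j ∈ range N, ψ j * ∏ i : Fin k, GP P (z i) (c i + M * j) =
      ∑ j ∈ range N, ψ j * Zf z (act P k c M j) :=
    Finset.sum_congr rfl fun j _ => by rw [act_prod hA z j]
  rw [hsum]
  have hZ : ∀ τ : Asg P k, ‖Zf z τ‖ ≤ 1 := fun τ => Zf_norm_le z hz τ
  have hE1 : 0 ≤ E * (1 + Real.log R) ^ (2 * me) := by positivity
  by_cases hδ : k * C1 * L ≤ 1 / 2
  swap
  · -- trivial bound
    have hδ' : 1 / 2 < k * C1 * L := not_le.mp hδ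
    have t1 : ‖∑ j ∈ range N, ψ j * Zf z (act P k c M j)‖ ≤ N := by
      refine (norm_sum_le _ _).trans ?_
      calc ∑ j ∈ range N, ‖ψ j * Zf z (act P k c M j)‖ ≤ ∑ _j ∈ range N, (1 : ℝ) := by
            refine Finset.sum_le_sum fun j hj => ?_
            rw [norm_mul]
            calc ‖ψ j‖ * ‖Zf z (act P k c M j)‖ ≤ 1 * 1 :=
                  mul_le_mul (hψ j (Finset.mem_range.1 hj)) (hZ _) (norm_nonneg _) zero_le_one
              _ = 1 := one_mul 1
        _ = N := by rw [Finset.sum_const, Finset.card_range, nsmul_eq_mul, mul_one]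
    have t2 : (N : ℝ) ≤ 2 * (k * C1) * N * L := by nlinarith
    have t3 : 0 ≤ (2 * (k * (C1 + 1)) + 2 * (Ce * F) + Ce ^ 2) * N * L := by positivity
    have t4 : 0 ≤ (2 * (k * (C1 + 1)) + 2 * (k * C1) + 2 * (Ce * F) + Ce ^ 2) * N *
        (E * (1 + Real.log R) ^ (2 * me)) := by positivity
    calc _ ≤ (N : ℝ) := t1
      _ ≤ 2 * (k * C1) * N * L + (2 * (k * (C1 + 1)) + 2 * (Ce * F) + Ce ^ 2) * N * L +
          (2 * (k * (C1 + 1)) + 2 * (k * C1) + 2 * (Ce * F) + Ce ^ 2) * N *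
        (E * (1 + Real.log R) ^ (2 * me)) := by linarith
      _ = _ := by ring
  · set δ : ℝ := k * C1 * L with hδd
    have hδ0 : 0 < δ := by positivity
    have hδ1 : δ < 1 := by linarith
    -- the sum over the primes
    have hS1 : ∑ p ∈ P, Real.log p / p ≤ C1 * Real.log y := by
      refine le_trans ?_ (h1 y hy)
      refine sum_le_sum_of_subset_of_nonneg ?_ ?_
      · intro p hp
        rw [mem_pr]
        exact ⟨⟨(hA.prime p hp).pos, hPy p hp⟩, hA.prime p hp⟩
      · intro p _ _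
        exact div_nonneg (Real.log_natCast_nonneg p) (Nat.cast_nonneg p)
    have hδS : (k : ℝ) * ∑ p ∈ P, Real.log p / p ≤ δ * Real.log R := by
      calc (k : ℝ) * ∑ p ∈ P, Real.log p / p ≤ k * (C1 * Real.log y) :=
            mul_le_mul_of_nonneg_left hS1 (by linarith)
        _ = δ * Real.log R := by rw [← hLR, hδd]; ring
    -- the set of the small assignments
    set T : Finset (Asg P k) := Finset.univ.filter (fun τ => Dd τ ≤ R) with hT
    have hDpos : ∀ τ : Asg P k, 1 ≤ Dd τ := Corr2_Dd_pos hA.prime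
    have hDpos' : ∀ τ : Asg P k, (1 : ℝ) ≤ (Dd τ : ℝ) := fun τ => by exact_mod_cast hDpos τ
    set G : ℝ := ∏ p ∈ P, (1 + 3 * (k : ℝ) / p) with hG
    have hG0 : 0 ≤ G := Finset.prod_nonneg fun p _ => by positivity
    set LL : ℝ := Ce * (1 + Real.log R) ^ me with hLL
    have hGL : G ≤ LL := by
      refine (h2 P y hy fun p hp => ⟨hA.prime p hp, hPy p hp⟩).trans ?_
      refine mul_le_mul_of_nonneg_left ?_ hCe.le
      exact pow_le_pow_left₀ (by linarith) (by linarith) me
    have hLL0 : 0 ≤ LL := hG0.trans hGL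
    have hts : ∑ τ ∈ T, 1 / (Dd τ : ℝ) ≤ LL := by
      calc ∑ τ ∈ T, 1 / (Dd τ : ℝ) ≤ ∑ τ : Asg P k, 1 / (Dd τ : ℝ) :=
            Finset.sum_le_sum_of_subset_of_nonneg (Finset.subset_univ _)
              fun τ _ _ => by positivity
        _ = ∏ p ∈ P, (1 + (k : ℝ) / p) := tau_sum fun p hp => (hA.prime p hp).pos
        _ ≤ G := by
            refine Finset.prod_le_prod (fun p _ => by positivity) fun p _ => ?_
            have : (k : ℝ) / p ≤ 3 * (k : ℝ) / p := by
              refine div_le_div_of_nonneg_right ?_ (Nat.cast_nonneg p)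
              linarith
            linarith
        _ ≤ LL := hGL
    have hTc : (T.card : ℝ) ≤ R * LL := by
      calc (T.card : ℝ) = ∑ τ ∈ T, (1 : ℝ) := by rw [Finset.sum_const, nsmul_eq_mul, mul_one]
        _ ≤ ∑ τ ∈ T, (R : ℝ) * (1 / (Dd τ : ℝ)) := by
            refine Finset.sum_le_sum fun τ hτ => ?_
            have a1 : Dd τ ≤ R := (Finset.mem_filter.1 hτ).2
            have a2 : (Dd τ : ℝ) ≤ R := by exact_mod_cast a1
            rw [mul_one_div, one_le_div (by linarith [hDpos' τ])]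
            exact a2
        _ = R * ∑ τ ∈ T, 1 / (Dd τ : ℝ) := by rw [Finset.mul_sum]
        _ ≤ R * LL := mul_le_mul_of_nonneg_left hts (by linarith)
    -- the majorants
    have hΛ : ∀ τ : Asg P k, ∃ Λ : ℕ → ℝ, τ ∈ T → ((∀ j, 0 ≤ Λ j) ∧
        (∀ j, act P k c M j = τ → 1 ≤ Λ j) ∧
        ∑ j ∈ range N, Λ j ≤ N * nu τ / (1 - δ) + (R : ℝ) ^ 4 ∧
        ‖∑ j ∈ range N, (Λ j : ℂ) * ψ j‖ ≤ E * N / Dd τ * G) := by
      intro τ
      by_cases hτ : τ ∈ T
      · have a1 : Dd τ ≤ R := (Finset.mem_filter.1 hτ).2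
        obtain ⟨Λ, b1, b2, b3, b4⟩ := tau_bound hk hA τ N R hR ψ E δ hE hδ1 hδS (by
          intro r b hr1 hr2
          refine hψE r b hr1 (hr2.trans ?_)
          calc Dd τ * R ^ 2 ≤ R * R ^ 2 := Nat.mul_le_mul_right _ a1
            _ = R ^ 3 := by ring)
        exact ⟨Λ, fun _ => ⟨b1, b2, b3, b4⟩⟩
      · exact ⟨fun _ => 0, fun h => absurd h hτ⟩
    choose Λ hΛ using hΛ
    have hmain := Corr2_split (act P k c M) N T ψ hψ (Zf z) hZ Λ (fun τ hτ => (hΛ τ hτ).1)
      (fun τ hτ => (hΛ τ hτ).2.1) (fun τ => N * nu τ / (1 - δ) + (R : ℝ) ^ 4)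
      (fun τ => E * N / Dd τ * G) (fun τ hτ => (hΛ τ hτ).2.2.1) (fun τ hτ => (hΛ τ hτ).2.2.2)
    refine hmain.trans ?_
    -- the first sum
    have f1 : ∑ τ ∈ T, E * N / Dd τ * G ≤ Ce ^ 2 * N * (E * (1 + Real.log R) ^ (2 * me)) := by
      calc ∑ τ ∈ T, E * N / Dd τ * G = E * N * G * ∑ τ ∈ T, 1 / (Dd τ : ℝ) := by
            rw [Finset.mul_sum]
            refine Finset.sum_congr rfl fun τ _ => ?_
            ring
        _ ≤ E * N * G * LL := mul_le_mul_of_nonneg_left hts (by positivity)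
        _ ≤ E * N * LL * LL := by
            refine mul_le_mul_of_nonneg_right ?_ hLL0
            exact mul_le_mul_of_nonneg_left hGL (by positivity)
        _ = _ := by rw [hLL]; ring
    -- the second sum
    have f2 : ∑ τ ∈ T, (N * nu τ / (1 - δ) + (R : ℝ) ^ 4) - N ≤
        2 * (k * C1) * N * L + 2 * (Ce * F) * N * L := by
      have g1 : ∑ τ ∈ T, nu τ ≤ 1 := by
        rw [← sum_nu (k := k) hPlt]
        exact Finset.sum_le_sum_of_subset_of_nonneg (Finset.subset_univ _)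
          fun τ _ _ => nu_nonneg hPlt τ
      have g2 : 1 / (1 - δ) ≤ 1 + 2 * δ := by
        rw [div_le_iff₀ (by linarith)]
        nlinarith
      have g3 : ∑ τ ∈ T, (N * nu τ / (1 - δ)) ≤ N * (1 + 2 * δ) := by
        calc ∑ τ ∈ T, (N * nu τ / (1 - δ)) = N * (1 / (1 - δ)) * ∑ τ ∈ T, nu τ := by
              rw [Finset.mul_sum]
              refine Finset.sum_congr rfl fun τ _ => ?_
              ring
          _ ≤ N * (1 / (1 - δ)) * 1 := by
              refine mul_le_mul_of_nonneg_left g1 ?_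
              have : 0 < 1 - δ := by linarith
              positivity
          _ ≤ N * (1 + 2 * δ) := by
              rw [mul_one]
              exact mul_le_mul_of_nonneg_left g2 hN0.le
      have g4 : ∑ _τ ∈ T, (R : ℝ) ^ 4 ≤ 2 * (Ce * F) * N * L := by
        rw [Finset.sum_const, nsmul_eq_mul]
        have k1 : (1 + Real.log R) ^ (me + 1) ≤ F * R := by
          have k2 := Real.pow_div_factorial_le_exp (1 + Real.log R) (by linarith) (me + 1)
          rw [div_le_iff₀ (by positivity), Real.exp_add, Real.exp_log (by linarith)] at k2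
          rw [hF]
          linarith
        have k3 : (1 : ℝ) ≤ 2 * (L * (1 + Real.log R)) := by
          have : L * (1 + Real.log R) = L + Real.log y := by rw [← hLR]; ring
          linarith
        have k4 : LL ≤ 2 * (Ce * (F * R)) * L := by
          calc LL ≤ LL * (2 * (L * (1 + Real.log R))) := le_mul_of_one_le_right hLL0 k3
            _ = 2 * (Ce * (1 + Real.log R) ^ (me + 1)) * L := by rw [hLL]; ring
            _ ≤ 2 * (Ce * (F * R)) * L := by
                refine mul_le_mul_of_nonneg_right ?_ hL0.le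
                refine mul_le_mul_of_nonneg_left ?_ (by norm_num)
                exact mul_le_mul_of_nonneg_left k1 hCe.le
        have k5 : (R : ℝ) ^ 6 ≤ N := by
          refine le_trans ?_ hRN1
          exact pow_le_pow_right₀ (by linarith) (by norm_num)
        calc (T.card : ℝ) * (R : ℝ) ^ 4 ≤ R * LL * (R : ℝ) ^ 4 :=
              mul_le_mul_of_nonneg_right hTc (by positivity)
          _ ≤ R * (2 * (Ce * (F * R)) * L) * (R : ℝ) ^ 4 := by
              refine mul_le_mul_of_nonneg_right ?_ (by positivity)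
              exact mul_le_mul_of_nonneg_left k4 (by linarith)
          _ = 2 * (Ce * F) * (R : ℝ) ^ 6 * L := by ring
          _ ≤ 2 * (Ce * F) * N * L := by
              refine mul_le_mul_of_nonneg_right ?_ hL0.le
              exact mul_le_mul_of_nonneg_left k5 (by positivity)
      rw [Finset.sum_add_distrib]
      have g5 : (N : ℝ) * (1 + 2 * δ) = N + 2 * (k * C1) * N * L := by rw [hδd]; ring
      linarith
    -- the large assignments
    have f3 : (((range N).filter (fun j => act P k c M j ∉ T)).card : ℝ) ≤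
        k * (C1 + 1) * N * L := by
      have g1 : (((range N).filter (fun j => act P k c M j ∉ T)).card : ℝ) * Real.log R ≤
          ∑ j ∈ range N, Real.log (Dd (act P k c M j)) := by
        calc (((range N).filter (fun j => act P k c M j ∉ T)).card : ℝ) * Real.log R =
            ∑ _j ∈ (range N).filter (fun j => act P k c M j ∉ T), Real.log R := by
              rw [Finset.sum_const, nsmul_eq_mul]
          _ ≤ ∑ j ∈ (range N).filter (fun j => act P k c M j ∉ T),
              Real.log (Dd (act P k c M j)) := by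
              refine Finset.sum_le_sum fun j hj => ?_
              have a1 := (Finset.mem_filter.1 hj).2
              have a2 : R < Dd (act P k c M j) := by
                by_contra hcon
                exact a1 (Finset.mem_filter.2 ⟨Finset.mem_univ _, not_lt.1 hcon⟩)
              exact Real.log_le_log (by linarith) (by exact_mod_cast a2.le)
          _ ≤ ∑ j ∈ range N, Real.log (Dd (act P k c M j)) :=
              Finset.sum_le_sum_of_subset_of_nonneg (Finset.filter_subset _ _)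
                fun j _ _ => Real.log_nonneg (hDpos' _)
      have g2 := act_log hA N
      have g3 : ∑ p ∈ P, Real.log p * (k * ((N : ℝ) / p + 1)) =
          k * N * ∑ p ∈ P, Real.log p / p + k * ∑ p ∈ P, Real.log p := by
        rw [mul_sum, mul_sum, ← sum_add_distrib]
        refine sum_congr rfl fun p _ => ?_
        ring
      have g4 : ∑ p ∈ P, Real.log p ≤ N * Real.log y := by
        calc ∑ p ∈ P, Real.log p ≤ ∑ p ∈ P, Real.log y := by
              refine sum_le_sum fun p hp => ?_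
              refine Real.log_le_log ?_ (by exact_mod_cast hPy p hp)
              exact_mod_cast (hA.prime p hp).pos
          _ = P.card * Real.log y := by rw [sum_const, nsmul_eq_mul]
          _ ≤ N * Real.log y := by
              refine mul_le_mul_of_nonneg_right ?_ (by linarith)
              have c1 : P.card ≤ y := by
                have c2 : P ⊆ Ioc 0 y := fun p hp =>
                  mem_Ioc.mpr ⟨(hA.prime p hp).pos, hPy p hp⟩
                have c3 := card_le_card c2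
                rwa [Nat.card_Ioc, Nat.sub_zero] at c3
              exact_mod_cast c1.trans (hyR.trans hRleN)
      have g5 : k * N * ∑ p ∈ P, Real.log p / p ≤ k * N * (C1 * Real.log y) :=
        mul_le_mul_of_nonneg_left hS1 (by positivity)
      have g6 : (k : ℝ) * ∑ p ∈ P, Real.log p ≤ k * (N * Real.log y) :=
        mul_le_mul_of_nonneg_left g4 (by positivity)
      rw [g3] at g2
      have g7 : (((range N).filter (fun j => act P k c M j ∉ T)).card : ℝ) * Real.log R ≤
          k * (C1 + 1) * N * L * Real.log R := by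
        have : k * (C1 + 1) * N * L * Real.log R = k * N * (C1 * Real.log y) +
            k * (N * Real.log y) := by rw [← hLR]; ring
        linarith
      exact le_of_mul_le_mul_right g7 hlR0
    have f4 : 0 ≤ (2 * (k * (C1 + 1)) + 2 * (k * C1) + 2 * (Ce * F)) * N *
        (E * (1 + Real.log R) ^ (2 * me)) := by positivity
    have f5 : 0 ≤ Ce ^ 2 * N * L := by positivity
    calc _ ≤ Ce ^ 2 * N * (E * (1 + Real.log R) ^ (2 * me)) +
          (2 * (k * C1) * N * L + 2 * (Ce * F) * N * L) + 2 * (k * (C1 + 1) * N * L) := by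
          linarith
      _ ≤ Ce ^ 2 * N * (E * (1 + Real.log R) ^ (2 * me)) +
          (2 * (k * C1) * N * L + 2 * (Ce * F) * N * L) + 2 * (k * (C1 + 1) * N * L) +
          (2 * (k * (C1 + 1)) + 2 * (k * C1) + 2 * (Ce * F)) * N *
        (E * (1 + Real.log R) ^ (2 * me)) + Ce ^ 2 * N * L := by linarith
      _ = _ := by ring

end Pool.Agent.H87T
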