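import Pool.Agent.H87S.Defs

/-!
Multiplicative functions between pretentious and strongly aperiodic: common definitions.
-/

namespace Pool.Agent.H87T

open Finset Pool.Agent.H87S

/-- Uniform form of `LogAperiodic`: the squared distance to `χ(n) n^(it)` up to `x` is at least
`c log (log x / log (|t| + 3)) - 1 / c`, with `c > 0` depending only on a bound for the modulus. -/
def UnifLogAperiodic (f : ℕ → ℂ) : Prop :=
  ∀ Q : ℕ, ∃ c : ℝ, 0 < c ∧ ∀ (q : ℕ) (χ : DirichletCharacter ℂ q) (t : ℝ) (x : ℕ),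
    1 ≤ q → q ≤ Q → 3 ≤ x →
    c * Real.log (Real.log x / Real.log (|t| + 3)) - 1 / c ≤ distSq f χ t x

/-- Iterated forward differences. -/
def dif : ℕ → (ℕ → ℝ) → ℕ → ℝ
  | 0, φ => φ
  | k + 1, φ => dif k (fun n => φ (n + 1) - φ n)

/-- `exp (i θ)` -/
noncomputable def ei (θ : ℝ) : ℂ := Complex.exp ((θ : ℂ) * Complex.I)

/-- `1` on `S`, `-1` on the rest of `T`, `0` outside `T` (`S ⊆ T`). -/
def eps (T S : Finset ℕ) (h : ℕ) : ℤ := if h ∈ T then (if h ∈ S then 1 else -1) else 0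

/-- The product of the `(a + h + M j)^(it)` over `h ∈ T`, with conjugates for `h ∉ S`. -/
noncomputable def psi (T S : Finset ℕ) (t : ℝ) (a M j : ℕ) : ℂ :=
  ∏ h ∈ T, (if h ∈ S then ((a + h + M * j : ℕ) : ℂ) ^ ((t : ℂ) * Complex.I)
    else (starRingEnd ℂ) (((a + h + M * j : ℕ) : ℂ) ^ ((t : ℂ) * Complex.I)))

/-- `f` is close to some `χ(n) n^(it)` up to `|t|`, for arbitrarily large `|t|` and bounded modulus. -/
def ArchPret (f : ℕ → ℂ) : Prop :=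
  ∃ Q C : ℕ, ∀ T0 : ℝ, ∃ (q : ℕ) (χ : DirichletCharacter ℂ q) (t : ℝ), 1 ≤ q ∧ q ≤ Q ∧ T0 ≤ |t| ∧
    ∀ v : ℕ, (v : ℝ) ≤ |t| →
      ∑ p ∈ (pr 0 v).filter (fun p => ¬ p ∣ q), (1 - (zf f χ t p).re) / p ≤ C

end Pool.Agent.H87T
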