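import Pool.Agent.H87S.Defs

/-!
Strong aperiodicity.
-/

namespace Pool.Agent.H87T

open Finset Pool.Agent.H87S

/-- `f` is strongly aperiodic: for every Dirichlet character `χ` the minimum over `|t| ≤ x` of the (squared)
distance up to `x` of `f` and `χ(n) n^(it)` tends to infinity with `x`. -/
def StronglyAperiodic (f : ℕ → ℂ) : Prop :=
  ∀ (q : ℕ) (χ : DirichletCharacter ℂ q), 1 ≤ q → ∀ A : ℝ, ∃ x0 : ℕ, ∀ x : ℕ, x0 ≤ x →
    ∀ t : ℝ, |t| ≤ x → A ≤ distSq f χ t x

/-- For every Dirichlet character `χ` the squared distance of `f` and `χ(n) n^(it)` up to `x` grows at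
least like `log log x`, uniformly in `t`: it is at least `c log (log x / log (|t| + 3)) - 1 / c`. -/
def LogAperiodic (f : ℕ → ℂ) : Prop :=
  ∀ (q : ℕ) (χ : DirichletCharacter ℂ q), 1 ≤ q → ∃ c : ℝ, 0 < c ∧ ∀ (t : ℝ) (x : ℕ), 3 ≤ x →
    c * Real.log (Real.log x / Real.log (|t| + 3)) - 1 / c ≤ distSq f χ t x

end Pool.Agent.H87T
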