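import Pool.Agent.H87T.Defs

/-!
A function which is not strongly aperiodic is close to a character on long windows.

PROOF PLAN.  Let `Q` be such that no `c > 0` works in `UnifLogAperiodic`.  Let `B >= 1` (enlarge to `B >= 2`) and
suppose that there is no window for `B`: for all `q <= Q`, `χ`, `t`, `u >= B`, `v >= (q + u + |t|)^B` the sum
over `(u, v]` is `> 1/B`.  Given `q, χ, t` start with `u_0 = B + Q + ⌈|t|⌉ + 3` and
`u_(i+1) = (3 u_i)^B <= u_i^(3B)` (`q, |t| <= u_i`, `3 <= u_i`).  If `u_n <= x < u_(n+1)` then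
`distSq f χ t x >= n/B` (terms are nonnegative, the windows are disjoint) and
`log x < (3B)^(n+1) log u_0`, `log u_0 <= log (|t| + 3) + log (B + Q + 5)
<= (1 + log (B+Q+5)) log (|t|+3)` (`log 3 >= 1`).  So `distSq >= c1 log (log x/log (|t|+3)) - C1` with
`c1 = 1/(B log (3B))` and a constant `C1` depending on `B, Q` only (also if `x < u_0`, as `distSq >= 0`).
Then `c = min c1 (1/(C1 + 1))` works in `UnifLogAperiodic` (if the logarithm is negative use
`distSq >= 0`), a contradiction.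
-/

namespace Pool.Agent.H87T

open Finset Pool.Agent.H87S

/-- the ends of the windows -/
private def NotSA_u (B u0 : ℕ) : ℕ → ℕ
  | 0 => u0
  | n + 1 => (3 * NotSA_u B u0 n) ^ (B + 1)

private theorem NotSA_step {B a : ℕ} (ha : 3 ≤ a) : 3 * a ≤ (3 * a) ^ (B + 1) := by
  calc 3 * a = (3 * a) ^ 1 := (pow_one _).symm
    _ ≤ (3 * a) ^ (B + 1) := Nat.pow_le_pow_right (by omega) (by omega)

private theorem NotSA_ge {B u0 : ℕ} (h0 : 3 ≤ u0) (n : ℕ) :
    u0 ≤ NotSA_u B u0 n ∧ n ≤ NotSA_u B u0 n := by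
  induction n with
  | zero => exact ⟨le_rfl, Nat.zero_le _⟩
  | succ n ih =>
    have h1 : 3 * NotSA_u B u0 n ≤ NotSA_u B u0 (n + 1) :=
      NotSA_step (B := B) (by omega : 3 ≤ NotSA_u B u0 n)
    constructor <;> omega

private theorem NotSA_mono {B u0 : ℕ} (h0 : 3 ≤ u0) (n : ℕ) :
    NotSA_u B u0 n ≤ NotSA_u B u0 (n + 1) := by
  have h2 := (NotSA_ge (B := B) h0 n).1
  have h1 : 3 * NotSA_u B u0 n ≤ NotSA_u B u0 (n + 1) :=
    NotSA_step (B := B) (by omega : 3 ≤ NotSA_u B u0 n)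
  omega

private theorem NotSA_log {B u0 : ℕ} (h0 : 3 ≤ u0) (n : ℕ) :
    Real.log (NotSA_u B u0 n) ≤ (2 * ((B : ℝ) + 1)) ^ n * Real.log u0 := by
  induction n with
  | zero =>
    show Real.log (u0 : ℝ) ≤ _
    rw [pow_zero, one_mul]
  | succ n ih =>
    have h2 := (NotSA_ge (B := B) h0 n).1
    have h3 : (3 : ℝ) ≤ NotSA_u B u0 n := by exact_mod_cast (by omega : 3 ≤ NotSA_u B u0 n)
    have h4 : ((NotSA_u B u0 (n + 1) : ℕ) : ℝ) = (3 * (NotSA_u B u0 n : ℝ)) ^ (B + 1) := by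
      show (((3 * NotSA_u B u0 n) ^ (B + 1) : ℕ) : ℝ) = _
      push_cast
      ring
    rw [h4, Real.log_pow, Real.log_mul (by norm_num) (by linarith)]
    have h5 : Real.log 3 ≤ Real.log (NotSA_u B u0 n) := Real.log_le_log (by norm_num) h3
    have h6 : (0 : ℝ) ≤ (B : ℝ) + 1 := by positivity
    have h7 : ((B + 1 : ℕ) : ℝ) = (B : ℝ) + 1 := by push_cast; ring
    rw [h7]
    calc ((B : ℝ) + 1) * (Real.log 3 + Real.log (NotSA_u B u0 n))
        ≤ ((B : ℝ) + 1) * (2 * Real.log (NotSA_u B u0 n)) :=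
          mul_le_mul_of_nonneg_left (by linarith) h6
      _ = (2 * ((B : ℝ) + 1)) * Real.log (NotSA_u B u0 n) := by ring
      _ ≤ (2 * ((B : ℝ) + 1)) * ((2 * ((B : ℝ) + 1)) ^ n * Real.log u0) :=
          mul_le_mul_of_nonneg_left ih (by positivity)
      _ = (2 * ((B : ℝ) + 1)) ^ (n + 1) * Real.log u0 := by ring

private theorem NotSA_sum {B u0 : ℕ} (h0 : 3 ≤ u0) {g : ℕ → ℝ} (hg : ∀ p, 1 ≤ p → 0 ≤ g p)
    (hw : ∀ n, 1 / (B : ℝ) ≤ ∑ p ∈ pr (NotSA_u B u0 n) (NotSA_u B u0 (n + 1)), g p) (n : ℕ) :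
    (n : ℝ) / B ≤ ∑ p ∈ pr 0 (NotSA_u B u0 n), g p := by
  induction n with
  | zero =>
    rw [Nat.cast_zero, zero_div]
    exact Finset.sum_nonneg fun p hp => hg p (mem_pr.1 hp).2.pos
  | succ n ih =>
    have hm := NotSA_mono (B := B) h0 n
    have h1 : Disjoint (pr 0 (NotSA_u B u0 n)) (pr (NotSA_u B u0 n) (NotSA_u B u0 (n + 1))) := by
      rw [Finset.disjoint_left]
      intro p hp hp'
      have h2 := (mem_pr.1 hp).1.2
      have h3 := (mem_pr.1 hp').1.1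
      omega
    have h2 : pr 0 (NotSA_u B u0 n) ∪ pr (NotSA_u B u0 n) (NotSA_u B u0 (n + 1)) ⊆
        pr 0 (NotSA_u B u0 (n + 1)) := by
      intro p hp
      rcases mem_union.1 hp with h3 | h3
      · obtain ⟨⟨h4, h5⟩, h6⟩ := mem_pr.1 h3
        exact mem_pr.2 ⟨⟨h4, h5.trans hm⟩, h6⟩
      · obtain ⟨⟨h4, h5⟩, h6⟩ := mem_pr.1 h3
        exact mem_pr.2 ⟨⟨h6.pos, h5⟩, h6⟩
    have h3 := Finset.sum_le_sum_of_subset_of_nonneg (f := g) h2
      (fun p hp _ => hg p (mem_pr.1 hp).2.pos)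
    rw [Finset.sum_union h1] at h3
    have h4 := hw n
    have h5 : ((n + 1 : ℕ) : ℝ) / B = n / B + 1 / B := by
      push_cast
      ring
    rw [h5]
    linarith

private theorem NotSA_log3 : 1 ≤ Real.log 3 := by
  rw [Real.le_log_iff_exp_le (by norm_num)]
  have := Real.exp_one_lt_d9
  linarith

theorem windows_of_not_sa (f : ℕ → ℂ) (hf : MultD f) (h : ¬ UnifLogAperiodic f) :
    ∃ Q : ℕ, ∀ B : ℕ, 1 ≤ B → ∃ (q : ℕ) (χ : DirichletCharacter ℂ q) (t : ℝ) (u v : ℕ),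
      1 ≤ q ∧ q ≤ Q ∧ B ≤ u ∧ ((q : ℝ) + u + |t|) ^ B ≤ v ∧
      ∑ p ∈ pr u v, (1 - (zf f χ t p).re) / p ≤ 1 / B := by
  unfold UnifLogAperiodic at h
  obtain ⟨Q, hQ⟩ := not_forall.1 h
  refine ⟨Q, fun B hB => ?_⟩
  by_contra hno
  apply hQ
  have hBpos : (0 : ℝ) < B := by exact_mod_cast hB
  have hB1 : (1 : ℝ) ≤ B := by exact_mod_cast hB
  set D : ℝ := 2 * ((B : ℝ) + 1) with hD
  have hD1 : 1 < D := by rw [hD]; linarith
  have hlD : 0 < Real.log D := Real.log_pos hD1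
  set A : ℝ := 1 + Real.log ((B : ℝ) + Q + 5) with hA
  have hQ0 : (0 : ℝ) ≤ Q := Nat.cast_nonneg Q
  have hA1 : 1 ≤ A := by
    have : 0 ≤ Real.log ((B : ℝ) + Q + 5) := Real.log_nonneg (by linarith)
    rw [hA]
    linarith
  have hK : 0 ≤ Real.log A := Real.log_nonneg hA1
  set c1 : ℝ := 1 / (B * Real.log D) with hc1
  have hc1p : 0 < c1 := by rw [hc1]; positivity
  set C1 : ℝ := c1 * Real.log A + 1 / B with hC1
  have hC1p : 0 ≤ C1 := by rw [hC1]; positivity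
  have hcp : 0 < min c1 (1 / (C1 + 1)) := lt_min hc1p (by positivity)
  refine ⟨min c1 (1 / (C1 + 1)), hcp, fun q χ t x hq1 hqQ hx => ?_⟩
  have hg : ∀ p : ℕ, 1 ≤ p → 0 ≤ (1 - (zf f χ t p).re) / p := fun p hp =>
    div_nonneg (zf_re_le hf χ t p hp) (Nat.cast_nonneg p)
  have hdist0 : 0 ≤ distSq f χ t x := Finset.sum_nonneg fun p hp => hg p (mem_pr.1 hp).2.pos
  set u0 : ℕ := B + Q + ⌈|t|⌉₊ + 3 with hu0
  have h0 : 3 ≤ u0 := by omega
  have ht0 : |t| ≤ ⌈|t|⌉₊ := Nat.le_ceil _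
  have ht1 : (⌈|t|⌉₊ : ℝ) < |t| + 1 := Nat.ceil_lt_add_one (abs_nonneg t)
  -- every window is long
  have hw : ∀ n, 1 / (B : ℝ) ≤ ∑ p ∈ pr (NotSA_u B u0 n) (NotSA_u B u0 (n + 1)),
      (1 - (zf f χ t p).re) / p := by
    intro n
    by_contra hlt
    push Not at hlt
    apply hno
    have hge := (NotSA_ge (B := B) h0 n).1
    refine ⟨q, χ, t, NotSA_u B u0 n, NotSA_u B u0 (n + 1), hq1, hqQ, by omega, ?_, hlt.le⟩
    have h4 : ((NotSA_u B u0 (n + 1) : ℕ) : ℝ) = (3 * (NotSA_u B u0 n : ℝ)) ^ (B + 1) := by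
      show (((3 * NotSA_u B u0 n) ^ (B + 1) : ℕ) : ℝ) = _
      push_cast
      ring
    rw [h4]
    have h5 : (u0 : ℝ) ≤ NotSA_u B u0 n := by exact_mod_cast hge
    have h6 : (u0 : ℝ) = B + Q + ⌈|t|⌉₊ + 3 := by
      rw [hu0]
      push_cast
      ring
    have h7 : (q : ℝ) ≤ Q := by exact_mod_cast hqQ
    have h8 : (q : ℝ) + NotSA_u B u0 n + |t| ≤ 3 * NotSA_u B u0 n := by
      have hc : (0 : ℝ) ≤ ⌈|t|⌉₊ := Nat.cast_nonneg _
      linarith
    have h9 : (0 : ℝ) ≤ (q : ℝ) + NotSA_u B u0 n + |t| := by positivity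
    calc ((q : ℝ) + NotSA_u B u0 n + |t|) ^ B ≤ (3 * (NotSA_u B u0 n : ℝ)) ^ B :=
          pow_le_pow_left₀ h9 h8 B
      _ ≤ (3 * (NotSA_u B u0 n : ℝ)) ^ (B + 1) := by
          refine pow_le_pow_right₀ ?_ (Nat.le_succ B)
          have hc : (0 : ℝ) ≤ ⌈|t|⌉₊ := Nat.cast_nonneg _
          linarith
  -- the first end point beyond `x`
  have hex : ∃ n, x < NotSA_u B u0 n := ⟨x + 1, (NotSA_ge (B := B) h0 (x + 1)).2⟩
  obtain ⟨N, hN1, hN2⟩ : ∃ N, x < NotSA_u B u0 N ∧ ∀ m < N, NotSA_u B u0 m ≤ x := by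
    classical
    exact ⟨Nat.find hex, Nat.find_spec hex, fun m hm => not_lt.1 (Nat.find_min hex hm)⟩
  have hlow : ((N : ℝ) - 1) / B ≤ distSq f χ t x := by
    rcases Nat.eq_zero_or_pos N with hN0 | hN0
    · rw [hN0, Nat.cast_zero]
      refine le_trans ?_ hdist0
      exact div_nonpos_of_nonpos_of_nonneg (by norm_num) hBpos.le
    · have h1 := NotSA_sum (B := B) h0 hg hw (N - 1)
      have h2 := hN2 (N - 1) (by omega)
      have h3 : pr 0 (NotSA_u B u0 (N - 1)) ⊆ pr 0 x := by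
        intro p hp
        obtain ⟨⟨h4, h5⟩, h6⟩ := mem_pr.1 hp
        exact mem_pr.2 ⟨⟨h4, h5.trans h2⟩, h6⟩
      have h4 := Finset.sum_le_sum_of_subset_of_nonneg
        (f := fun p : ℕ => (1 - (zf f χ t p).re) / (p : ℝ)) h3
        (fun p hp _ => hg p (mem_pr.1 hp).2.pos)
      have h5 : ((N - 1 : ℕ) : ℝ) = (N : ℝ) - 1 := by
        rw [Nat.cast_sub hN0, Nat.cast_one]
      rw [h5] at h1
      exact h1.trans h4
  -- the logarithms
  have hlt : 1 ≤ Real.log (|t| + 3) :=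
    NotSA_log3.trans (Real.log_le_log (by norm_num) (by linarith [abs_nonneg t]))
  have hlt0 : 0 < Real.log (|t| + 3) := by linarith
  have hlx0 : 0 < Real.log x := by
    have h1 : Real.log 3 ≤ Real.log x := Real.log_le_log (by norm_num) (by exact_mod_cast hx)
    linarith [NotSA_log3]
  have hu : Real.log u0 ≤ A * Real.log (|t| + 3) := by
    have h1 : (u0 : ℝ) ≤ ((B : ℝ) + Q + 5) * (|t| + 3) := by
      have h6 : (u0 : ℝ) = B + Q + ⌈|t|⌉₊ + 3 := by
        rw [hu0]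
        push_cast
        ring
      have h7 : 0 ≤ ((B : ℝ) + Q + 4) * (|t| + 2) := by positivity
      nlinarith
    have h2 : Real.log u0 ≤ Real.log (((B : ℝ) + Q + 5) * (|t| + 3)) :=
      Real.log_le_log (by exact_mod_cast (by omega : 0 < u0)) h1
    rw [Real.log_mul (by positivity) (by positivity)] at h2
    have h3 : 0 ≤ Real.log ((B : ℝ) + Q + 5) := Real.log_nonneg (by linarith)
    have h4 : Real.log ((B : ℝ) + Q + 5) * 1 ≤ Real.log ((B : ℝ) + Q + 5) * Real.log (|t| + 3) :=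
      mul_le_mul_of_nonneg_left hlt h3
    rw [hA]
    linarith
  have hx1 : Real.log x ≤ D ^ N * (A * Real.log (|t| + 3)) := by
    have h1 : Real.log x ≤ Real.log (NotSA_u B u0 N) :=
      Real.log_le_log (by exact_mod_cast (by omega : 0 < x)) (by exact_mod_cast hN1.le)
    have h2 := NotSA_log (B := B) h0 N
    exact h1.trans (h2.trans (mul_le_mul_of_nonneg_left hu (by positivity)))
  have hL : Real.log (Real.log x / Real.log (|t| + 3)) ≤ N * Real.log D + Real.log A := by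
    have h1 : Real.log x / Real.log (|t| + 3) ≤ D ^ N * A := by
      rw [div_le_iff₀ hlt0]
      linarith
    have h2 := Real.log_le_log (div_pos hlx0 hlt0) h1
    rw [Real.log_mul (by positivity) (by linarith), Real.log_pow] at h2
    exact h2
  set Lx := Real.log (Real.log x / Real.log (|t| + 3)) with hLx
  have hmain : c1 * Lx - C1 ≤ distSq f χ t x := by
    refine le_trans ?_ hlow
    have h1 : c1 * Lx ≤ c1 * (N * Real.log D + Real.log A) :=
      mul_le_mul_of_nonneg_left hL hc1p.le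
    have h2 : c1 * (N * Real.log D) = N / B := by
      rw [hc1]
      field_simp
    have h3 : ((N : ℝ) - 1) / B = N / B - 1 / B := by ring
    rw [h3, hC1]
    nlinarith
  rcases le_total Lx 0 with hneg | hpos
  · have h1 : min c1 (1 / (C1 + 1)) * Lx ≤ 0 := mul_nonpos_of_nonneg_of_nonpos hcp.le hneg
    have h2 : 0 < 1 / min c1 (1 / (C1 + 1)) := by positivity
    linarith
  · have h1 : min c1 (1 / (C1 + 1)) * Lx ≤ c1 * Lx :=
      mul_le_mul_of_nonneg_right (min_le_left _ _) hpos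
    have h2 : C1 + 1 ≤ 1 / min c1 (1 / (C1 + 1)) := by
      rw [le_one_div (by linarith) hcp]
      exact min_le_right _ _
    linarith

end Pool.Agent.H87T
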