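import Pool.Agent.H87T.Defs
import Pool.Agent.H87T.Defs2

/-!
A non-pretentious function which is not strongly aperiodic.
-/

namespace Pool.Agent.H87T

open Finset Pool.Agent.H87S

private lemma nua_cont (f : ℕ → ℂ) {q : ℕ} (χ : DirichletCharacter ℂ q) (x : ℕ) :
    Continuous fun t : ℝ => distSq f χ t x := by
  unfold distSq zf
  refine continuous_finset_sum _ fun p hp => ?_
  have hp0 : (p : ℂ) ≠ 0 := by exact_mod_cast (mem_pr.1 hp).2.ne_zero
  refine Continuous.div_const ?_ _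
  refine continuous_const.sub (Complex.continuous_re.comp ?_)
  refine continuous_const.mul ?_
  exact Continuous.const_cpow (by fun_prop) (Or.inl hp0)

private lemma nua_mono {f : ℕ → ℂ} (hf : MultD f) {q : ℕ} (χ : DirichletCharacter ℂ q) (t : ℝ)
    {x y : ℕ} (h : x ≤ y) : distSq f χ t x ≤ distSq f χ t y := by
  unfold distSq
  refine sum_le_sum_of_subset_of_nonneg ?_ ?_
  · intro p hp
    rw [mem_pr] at hp ⊢
    exact ⟨⟨hp.1.1, hp.1.2.trans h⟩, hp.2⟩
  · intro p hp _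
    exact div_nonneg (zf_re_le hf χ t p (mem_pr.1 hp).2.one_lt.le) (Nat.cast_nonneg _)

private lemma nua_unif {f : ℕ → ℂ} (hf : MultD f) (hnp : NonPretentious f) {q : ℕ} (hq : 1 ≤ q)
    (χ : DirichletCharacter ℂ q) (T0 A : ℝ) :
    ∃ x0 : ℕ, ∀ t : ℝ, |t| ≤ T0 → A < distSq f χ t x0 := by
  have h1 : Set.Icc (-T0) T0 ⊆ ⋃ x : ℕ, {t : ℝ | A < distSq f χ t x} := by
    intro t _
    obtain ⟨x, hx⟩ := ((hnp q χ t hq).eventually_gt_atTop A).exists
    exact Set.mem_iUnion.2 ⟨x, hx⟩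
  obtain ⟨x0, hx0⟩ := isCompact_Icc.elim_directed_cover (fun x : ℕ => {t : ℝ | A < distSq f χ t x})
    (fun x => isOpen_lt continuous_const (nua_cont f χ x)) h1 (by
      refine directed_of_isDirected_le fun x y hxy => ?_
      intro t ht
      exact lt_of_lt_of_le ht (nua_mono hf χ t hxy))
  exact ⟨x0, fun t ht => hx0 (abs_le.1 ht)⟩

theorem archPret_of_not_sa (f : ℕ → ℂ) (hf : MultD f) (hnp : NonPretentious f)
    (h : ¬ StronglyAperiodic f) : ArchPret f := by
  unfold StronglyAperiodic at h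
  push Not at h
  obtain ⟨q, χ, hq, A, hA⟩ := h
  refine ⟨q, ⌈A⌉₊, fun T0 => ?_⟩
  obtain ⟨x0, hx0⟩ := nua_unif hf hnp hq χ T0 A
  obtain ⟨x, hx, t, ht, hd⟩ := hA x0
  refine ⟨q, χ, t, hq, le_rfl, ?_, ?_⟩
  · by_contra hlt
    push Not at hlt
    have h1 := hx0 t hlt.le
    have h2 := nua_mono hf χ t hx
    linarith
  · intro v hv
    have hvx : v ≤ x := by
      have : (v : ℝ) ≤ x := hv.trans ht
      exact_mod_cast this
    have h1 : ∑ p ∈ (pr 0 v).filter (fun p => ¬ p ∣ q), (1 - (zf f χ t p).re) / p ≤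
        distSq f χ t v := by
      unfold distSq
      refine sum_le_sum_of_subset_of_nonneg (filter_subset _ _) fun p hp _ => ?_
      exact div_nonneg (zf_re_le hf χ t p (mem_pr.1 hp).2.one_lt.le) (Nat.cast_nonneg _)
    have h2 := nua_mono hf χ t hvx
    have h3 := Nat.le_ceil A
    linarith

theorem unif_of_logAperiodic (f : ℕ → ℂ) (h : ¬ LogAperiodic f) : ¬ UnifLogAperiodic f := by
  intro hu
  apply h
  intro q χ hq
  obtain ⟨c, hc, hc2⟩ := hu q
  exact ⟨c, hc, fun t x hx => hc2 q χ t x hq le_rfl hx⟩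

end Pool.Agent.H87T
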