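import Pool.Agent.H87T.Main2
import Pool.Agent.H87T.NotSA
import Pool.Agent.H87T.Cases
import Pool.Agent.H87T.NotUA
import Pool.Agent.H87S.Main

/-!
Assembly.
-/

namespace Pool.Agent.H87T

open Finset Filter Topology Pool.Agent.H87S

theorem intermediate (f : ℕ → ℂ) (hf : MultD f) (hnp : NonPretentious f)
    (h : ¬ (StronglyAperiodic f ∧ LogAperiodic f)) :
    ∃ X : Set ℕ, upperLogDensity X = 1 ∧ ∀ a : ℕ → ℂ, Deterministic a →
      Tendsto (fun x : ℕ => (∑ n ∈ Icc 1 x, f n * a n) / x) (atTop ⊓ 𝓟 X) (𝓝 0) := by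
  by_cases hs : StronglyAperiodic f
  · have hl : ¬ LogAperiodic f := fun hl => h ⟨hs, hl⟩
    rcases cases_of_windows f hf hnp (windows_of_not_sa f hf (unif_of_logAperiodic f hl)) with h1 | h1
    · exact main f hf h1
    · exact main2 f hf h1
  · exact main2 f hf (archPret_of_not_sa f hf hnp hs)

end Pool.Agent.H87T
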