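import Pool.Agent.H87T.Block

/-!
The full exponential sum.

PROOF PLAN.  The finitely many pairs `(T, S)` give finitely many `e = eps T S` (`e h ≠ 0` for `h ∈ T`): uniform
constants `C`, `c` in `block` with `4 K1` in place of `K1`.  Let `I >= 2` (else trivial).  Split `range I` into
`{i < J1}`, `J1 = ⌈√I⌉` (trivial bound), and the blocks `[J, min (2J) I)`, `J = 2^s J1`, at most
`log_2 I + 1` of them.  In a block `J1 <= J <= I`: `(m J)^(H+2) <= (m I)^(H+2) <= t`,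
`t <= I^K1 <= (J^2)^K1 <= J^(4 K1)`.  Total `√I + 1 + (log_2 I + 1) C I^(1-c) <= C' I^(1 - c/2)`
(`c <= 1`).
-/

namespace Pool.Agent.H87T

open Finset

private theorem FullSum_ei_norm (θ : ℝ) : ‖ei θ‖ = 1 := by
  unfold ei
  exact Complex.norm_exp_ofReal_mul_I θ

/-- uniform constants for all the pairs `(T, S)` -/
private theorem FullSum_unif (H K : ℕ) : ∃ C c : ℝ, 0 < C ∧ 0 < c ∧ c ≤ 1 / 2 ∧
    ∀ T S : Finset ℕ, T ⊆ range H → T.Nonempty → S ⊆ T →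
    ∀ (t : ℝ) (a m J J' : ℕ), 1 ≤ J → J' ≤ J → 1 ≤ a → a ≤ m →
      ((m : ℝ) * J) ^ (H + 2) ≤ t → t ≤ (J : ℝ) ^ K →
      ‖∑ i ∈ range J', ei (t * ∑ h ∈ range H,
        (eps T S h : ℝ) * Real.log ((a : ℝ) + m * ((J : ℝ) + i) + h))‖ ≤
          C * (J : ℝ) ^ (1 - c) := by
  have h1 : ∀ p : Finset ℕ × Finset ℕ, ∃ C c : ℝ, 0 < C ∧ 0 < c ∧ (p.1 ⊆ range H → p.1.Nonempty →
      p.2 ⊆ p.1 → ∀ (t : ℝ) (a m J J' : ℕ), 1 ≤ J → J' ≤ J → 1 ≤ a → a ≤ m →
      ((m : ℝ) * J) ^ (H + 2) ≤ t → t ≤ (J : ℝ) ^ K →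
      ‖∑ i ∈ range J', ei (t * ∑ h ∈ range H,
        (eps p.1 p.2 h : ℝ) * Real.log ((a : ℝ) + m * ((J : ℝ) + i) + h))‖ ≤
          C * (J : ℝ) ^ (1 - c)) := by
    rintro ⟨T, S⟩
    by_cases hp : T ⊆ range H ∧ T.Nonempty
    · obtain ⟨hT, h, hh⟩ := hp
      obtain ⟨C, c, hC, hc, _, hb⟩ := block H K (eps T S) ⟨h, mem_range.1 (hT hh), by
        unfold eps
        rw [if_pos hh]
        split_ifs <;> norm_num⟩
      exact ⟨C, c, hC, hc, fun _ _ _ => hb⟩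
    · exact ⟨1, 1, one_pos, one_pos, fun h1 h2 => absurd ⟨h1, h2⟩ hp⟩
  choose Cf cf hCf hcf hb using h1
  obtain ⟨P, hP⟩ : ∃ P, P = (range H).powerset ×ˢ (range H).powerset := ⟨_, rfl⟩
  have hPne : P.Nonempty := by
    rw [hP]
    exact ⟨(∅, ∅), by simp⟩
  refine ⟨∑ p ∈ P, Cf p + 1, min (P.inf' hPne cf) (1 / 2), ?_, ?_, min_le_right _ _, ?_⟩
  · have : 0 ≤ ∑ p ∈ P, Cf p := sum_nonneg fun p _ => (hCf p).le
    linarith
  · refine lt_min ?_ (by norm_num)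
    rw [Finset.lt_inf'_iff]
    exact fun p _ => hcf p
  · intro T S hT hTn hS t a m J J' hJ hJ' ha ham h1 h2
    have hmem : (T, S) ∈ P := by
      rw [hP, mem_product, mem_powerset, mem_powerset]
      exact ⟨hT, hS.trans hT⟩
    refine (hb (T, S) hT hTn hS t a m J J' hJ hJ' ha ham h1 h2).trans ?_
    have hJr : (1 : ℝ) ≤ J := by exact_mod_cast hJ
    have e1 : Cf (T, S) ≤ ∑ p ∈ P, Cf p + 1 := by
      have := single_le_sum (f := Cf) (fun p _ => (hCf p).le) hmem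
      linarith
    have e2 : min (P.inf' hPne cf) (1 / 2) ≤ cf (T, S) :=
      (min_le_left _ _).trans (Finset.inf'_le cf hmem)
    have e3 : (J : ℝ) ^ (1 - cf (T, S)) ≤ (J : ℝ) ^ (1 - min (P.inf' hPne cf) (1 / 2)) :=
      Real.rpow_le_rpow_of_exponent_le hJr (by linarith)
    exact mul_le_mul e1 e3 (by positivity) ((hCf _).le.trans e1)

/-- the halving recursion -/
private theorem FullSum_rec {F : ℕ → ℂ} (hF : ∀ i, ‖F i‖ ≤ 1) {C c : ℝ} (hC : 0 < C)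
    (hc : c ≤ 1 / 2) {I J1 : ℕ} (hJ1 : 2 ≤ J1)
    (hblock : ∀ J J' : ℕ, J1 ≤ J → J ≤ I → J' ≤ J →
      ‖∑ i ∈ range J', F (J + i)‖ ≤ C * (J : ℝ) ^ (1 - c)) (N : ℕ) :
    N ≤ I → ‖∑ i ∈ range N, F i‖ ≤ 2 * J1 + 4 * C * (N : ℝ) ^ (1 - c) := by
  induction N using Nat.strong_induction_on with
  | _ N ih =>
    intro hN
    rcases lt_or_ge N (2 * J1) with h | h
    · have h1 : ‖∑ i ∈ range N, F i‖ ≤ ∑ i ∈ range N, (1 : ℝ) :=
        (norm_sum_le _ _).trans (sum_le_sum fun i _ => hF i)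
      rw [sum_const, card_range, nsmul_eq_mul, mul_one] at h1
      have h2 : (N : ℝ) ≤ 2 * J1 := by exact_mod_cast h.le
      have h3 : 0 ≤ 4 * C * (N : ℝ) ^ (1 - c) := by positivity
      linarith
    · obtain ⟨J, hJ⟩ : ∃ J, J = N - N / 2 := ⟨_, rfl⟩
      obtain ⟨J', hJ'⟩ : ∃ J', J' = N / 2 := ⟨_, rfl⟩
      have e1 : N = J + J' := by omega
      have e2 : J < N := by omega
      have e3 : J1 ≤ J := by omega
      have e4 : J' ≤ J := by omega
      have h1 := ih J e2 (by omega)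
      have h2 := hblock J J' e3 (by omega) e4
      have e5 : (J : ℝ) ≤ 5 / 8 * N := by
        have h8 : 8 * J ≤ 5 * N := by omega
        have h9 : (8 : ℝ) * J ≤ 5 * N := by exact_mod_cast h8
        linarith
      have e6 : (J : ℝ) ^ (1 - c) ≤ 4 / 5 * (N : ℝ) ^ (1 - c) := by
        have h3 : (J : ℝ) ^ (1 - c) ≤ (5 / 8 * N : ℝ) ^ (1 - c) :=
          Real.rpow_le_rpow (Nat.cast_nonneg _) e5 (by linarith)
        rw [Real.mul_rpow (by norm_num) (Nat.cast_nonneg _)] at h3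
        have h4 : (5 / 8 : ℝ) ^ (1 - c) ≤ (5 / 8 : ℝ) ^ (1 / 2 : ℝ) :=
          Real.rpow_le_rpow_of_exponent_ge (by norm_num) (by norm_num) (by linarith)
        have h5 : (5 / 8 : ℝ) ^ (1 / 2 : ℝ) ≤ 4 / 5 := by
          rw [← Real.sqrt_eq_rpow]
          exact Real.sqrt_le_iff.2 ⟨by norm_num, by norm_num⟩
        have h6 : 0 ≤ (N : ℝ) ^ (1 - c) := by positivity
        nlinarith
      have e7 : ∑ i ∈ range N, F i = ∑ i ∈ range J, F i + ∑ i ∈ range J', F (J + i) := by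
        conv_lhs => rw [e1]
        exact Finset.sum_range_add F J J'
      rw [e7]
      refine (norm_add_le _ _).trans ?_
      nlinarith

theorem full_sum (H K1 : ℕ) : ∃ C c : ℝ, 0 < C ∧ 0 < c ∧ ∀ T S : Finset ℕ, T ⊆ range H →
    T.Nonempty → S ⊆ T → ∀ (t : ℝ) (a m I : ℕ), 1 ≤ a → a ≤ m → 1 ≤ I →
      ((m : ℝ) * I) ^ (H + 2) ≤ t → t ≤ (I : ℝ) ^ K1 →
      ‖∑ i ∈ range I, ei (t * ∑ h ∈ range H,
        (eps T S h : ℝ) * Real.log ((a : ℝ) + m * i + h))‖ ≤ C * (I : ℝ) ^ (1 - c) := by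
  obtain ⟨C, c, hC, hc, hc2, hb⟩ := FullSum_unif H (2 * K1)
  refine ⟨4 * C + 4, c, by linarith, hc, ?_⟩
  intro T S hT hTn hS t a m I ha ham hI h1 h2
  obtain ⟨J1, hJ1⟩ : ∃ J1, J1 = Nat.sqrt I + 1 := ⟨_, rfl⟩
  have hs1 : 1 ≤ Nat.sqrt I := by
    rw [Nat.le_sqrt]
    omega
  have hJI : I ≤ J1 ^ 2 := by
    rw [hJ1, sq]
    exact (Nat.lt_succ_sqrt I).le
  have hIr : (1 : ℝ) ≤ I := by exact_mod_cast hI
  have hrec := FullSum_rec (F := fun i => ei (t * ∑ h ∈ range H,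
      (eps T S h : ℝ) * Real.log ((a : ℝ) + m * (i : ℝ) + h)))
    (fun i => (FullSum_ei_norm _).le) hC hc2 (I := I) (J1 := J1) (by omega) (by
      intro J J' hJ hJle hJ'
      have e1 : (1 : ℝ) ≤ J := by
        have : 1 ≤ J := by omega
        exact_mod_cast this
      have e2 := hb T S hT hTn hS t a m J J' (by omega) hJ' ha ham
        (by
          refine le_trans (pow_le_pow_left₀ (by positivity) ?_ _) h1
          have : (J : ℝ) ≤ I := by exact_mod_cast hJle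
          gcongr)
        (by
          refine h2.trans ?_
          rw [pow_mul]
          refine pow_le_pow_left₀ (by positivity) ?_ _
          have h3 : I ≤ J ^ 2 := hJI.trans (Nat.pow_le_pow_left hJ 2)
          exact_mod_cast h3)
      simp only [Nat.cast_add]
      exact e2) I le_rfl
  refine hrec.trans ?_
  have h3 : (J1 : ℝ) ≤ 2 * (I : ℝ) ^ (1 - c) := by
    have h4 : (Nat.sqrt I : ℝ) ≤ (I : ℝ) ^ (1 - c) := by
      refine (Real.nat_sqrt_le_real_sqrt).trans ?_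
      rw [Real.sqrt_eq_rpow]
      exact Real.rpow_le_rpow_of_exponent_le hIr (by linarith)
    have h5 : (1 : ℝ) ≤ (I : ℝ) ^ (1 - c) := Real.one_le_rpow hIr (by linarith)
    rw [hJ1]
    push_cast
    linarith
  linarith

end Pool.Agent.H87T
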