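import Pool.Agent.H87T.Defs

/-!
Lower bound for the denominator in Selberg's sieve (Markov's inequality), for finite sets.

PROOF PLAN.  `h p = g/(1-g)`, `V = ∏_{p ∈ P} (1 - g p)`: `V ∑_{T ⊆ P} ∏_T h = 1`, and
`V ∑_{T ⊆ P} (∏_T h) ∑_{p ∈ T} log p = ∑_{p ∈ P} g p log p` (for each `p`:
`V h(p) ∏_{l ≠ p} (1 + h l) = g p`).  If `∏_T p > R` then `∑_{p ∈ T} log p >= log R`, so the sets `T` with
`∏_T p > R` contribute at most `(∑ g p log p)/log R` to `V ∑_T ∏_T h = 1`.  (Compare the proof of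
`Pool.Agent.H87S.g_low`, file `Pool/Agent/H87S/GLow.lean`.)
-/

namespace Pool.Agent.H87T

open Finset

private theorem GLow2_S (P : Finset ℕ) (g h : ℕ → ℝ) (hgh : ∀ p ∈ P, (1 - g p) * (1 + h p) = 1) :
    (∏ p ∈ P, (1 - g p)) * ∑ T ∈ P.powerset, ∏ p ∈ T, h p = 1 := by
  rw [← Finset.prod_one_add, ← prod_mul_distrib]
  exact prod_eq_one hgh

private theorem GLow2_F (g h L : ℕ → ℝ) : ∀ P : Finset ℕ,
    (∀ p ∈ P, (1 - g p) * (1 + h p) = 1) →
    (∏ p ∈ P, (1 - g p)) * ∑ T ∈ P.powerset, (∏ p ∈ T, h p) * ∑ p ∈ T, L p =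
      ∑ p ∈ P, g p * L p := by
  intro P
  induction P using Finset.induction_on with
  | empty => intro _; simp
  | insert a P ha ih =>
    intro hgh
    have hgh' : ∀ p ∈ P, (1 - g p) * (1 + h p) = 1 := fun p hp => hgh p (mem_insert_of_mem hp)
    have ih' := ih hgh'
    have hS := GLow2_S P g h hgh'
    have hga := hgh a (mem_insert_self a P)
    rw [sum_powerset_insert ha, prod_insert ha, sum_insert ha]
    have e1 : ∑ T ∈ P.powerset, (∏ p ∈ insert a T, h p) * ∑ p ∈ insert a T, L p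
        = h a * L a * ∑ T ∈ P.powerset, ∏ p ∈ T, h p
          + h a * ∑ T ∈ P.powerset, (∏ p ∈ T, h p) * ∑ p ∈ T, L p := by
      rw [mul_sum, mul_sum, ← sum_add_distrib]
      refine sum_congr rfl (fun T hT => ?_)
      have haT : a ∉ T := fun h => ha (mem_powerset.mp hT h)
      rw [prod_insert haT, sum_insert haT]
      ring
    rw [e1]
    set V := ∏ p ∈ P, (1 - g p)
    set S := ∑ T ∈ P.powerset, ∏ p ∈ T, h p
    set F := ∑ T ∈ P.powerset, (∏ p ∈ T, h p) * ∑ p ∈ T, L p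
    have e2 : (1 - g a) * h a = g a := by linarith
    calc (1 - g a) * V * (F + (h a * L a * S + h a * F))
        = ((1 - g a) * (1 + h a)) * (V * F) + ((1 - g a) * h a) * L a * (V * S) := by ring
      _ = g a * L a + ∑ x ∈ P, g x * L x := by rw [hga, e2, hS, ih']; ring

theorem g_low2 (P : Finset ℕ) (hP : ∀ p ∈ P, 1 ≤ p) (g : ℕ → ℝ)
    (hg : ∀ p ∈ P, 0 < g p ∧ g p < 1) (R : ℕ) (hR : 2 ≤ R) :
    1 - (∑ p ∈ P, g p * Real.log p) / Real.log R ≤
      (∏ p ∈ P, (1 - g p)) *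
        ∑ A ∈ P.powerset.filter (fun A => ∏ p ∈ A, p ≤ R), ∏ p ∈ A, (g p / (1 - g p)) := by
  set h : ℕ → ℝ := fun p => g p / (1 - g p) with hh
  have hlt : ∀ p ∈ P, (0 : ℝ) < 1 - g p := fun p hp => by
    have := (hg p hp).2
    linarith
  have hgh : ∀ p ∈ P, (1 - g p) * (1 + h p) = 1 := by
    intro p hp
    have h2 := (hlt p hp).ne'
    simp only [hh]
    field_simp
    ring
  have hh0 : ∀ T ∈ P.powerset, 0 ≤ ∏ p ∈ T, h p := by
    intro T hT
    refine prod_nonneg (fun p hp => ?_)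
    have hpP := mem_powerset.mp hT hp
    exact div_nonneg (hg p hpP).1.le (hlt p hpP).le
  have hV : 0 ≤ ∏ p ∈ P, (1 - g p) := prod_nonneg (fun p hp => (hlt p hp).le)
  have hlogR : 0 < Real.log R := Real.log_pos (by exact_mod_cast (by omega : 1 < R))
  have hS := GLow2_S P g h hgh
  have hF := GLow2_F g h (fun p => Real.log p) P hgh
  set V := ∏ p ∈ P, (1 - g p) with hVdef
  have hlarge : ∀ T ∈ P.powerset, ¬ (∏ p ∈ T, p ≤ R) → Real.log R ≤ ∑ p ∈ T, Real.log p := by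
    intro T hT hTR
    have h1 : (R : ℝ) ≤ ∏ p ∈ T, (p : ℝ) := by
      have h2 : R ≤ ∏ p ∈ T, p := by omega
      rw [← Nat.cast_prod]
      exact Nat.cast_le.mpr h2
    rw [← Real.log_prod (fun p hp => by
      have := hP p (mem_powerset.mp hT hp)
      exact_mod_cast (by omega : p ≠ 0))]
    exact Real.log_le_log (by exact_mod_cast (by omega : 0 < R)) h1
  have hsplit := sum_filter_add_sum_filter_not P.powerset (fun T => ∏ p ∈ T, p ≤ R)
    (fun T => ∏ p ∈ T, h p)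
  have hbig : V * ∑ T ∈ P.powerset with ¬ (∏ p ∈ T, p ≤ R), ∏ p ∈ T, h p ≤
      (∑ p ∈ P, g p * Real.log p) / Real.log R := by
    rw [le_div_iff₀ hlogR, ← hF, mul_assoc]
    apply mul_le_mul_of_nonneg_left _ hV
    rw [sum_mul]
    calc ∑ T ∈ P.powerset with ¬ (∏ p ∈ T, p ≤ R), (∏ p ∈ T, h p) * Real.log R
        ≤ ∑ T ∈ P.powerset with ¬ (∏ p ∈ T, p ≤ R), (∏ p ∈ T, h p) * ∑ p ∈ T, Real.log p := by
          refine sum_le_sum (fun T hT => ?_)
          have hT' := mem_filter.mp hT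
          exact mul_le_mul_of_nonneg_left (hlarge T hT'.1 hT'.2) (hh0 T hT'.1)
      _ ≤ ∑ T ∈ P.powerset, (∏ p ∈ T, h p) * ∑ p ∈ T, Real.log p := by
          apply sum_le_sum_of_subset_of_nonneg (filter_subset _ _)
          intro T hT _
          exact mul_nonneg (hh0 T hT) (sum_nonneg (fun p _ => Real.log_natCast_nonneg p))
  have hS' : V * ∑ T ∈ P.powerset with (∏ p ∈ T, p ≤ R), ∏ p ∈ T, h p
      + V * ∑ T ∈ P.powerset with ¬ (∏ p ∈ T, p ≤ R), ∏ p ∈ T, h p = 1 := by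
    rw [← mul_add, hsplit, hS]
  linarith

end Pool.Agent.H87T
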