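import Pool.Agent.H87T.FullSum

/-!
`psi` has small sums over arithmetic progressions.

PROOF PLAN.  `psi T S t a M j = ei (t ∑_{h < H} eps T S h log (a + h + M j))` (`n^(it) = exp (i t log n)` for
`n >= 1`).  For `t < 0` replace `(t, S)` by `(-t, T \ S)`.  If `b >= r` the sum is empty.  Otherwise
`j = b + r i`, `i < I := (N - 1 - b)/r + 1` (`b < N`, as `r <= N`), and `a + h + M j = (a + M b) + (M r) i + h` with
`1 <= a + M b <= M r`.  `N/r - 1 <= I <= N/r + 1 <= 2 N/r`; `M r I <= 2 M N`, so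
`(M r I)^(H+2) <= |t|`; `N <= r^... ` : `I >= N/r - 1 >= √N - 1`, so `N <= I^4` if `I >= 2`
(if `I = 1` then `N <= 4`: trivial), `|t| <= N^K1 <= I^(4 K1)`.  `full_sum` with `4 K1`:
`C I^(1-c) <= C (2N/r) I^(-c) <= 2 C (N/r) N^(-c/4)`.
-/

namespace Pool.Agent.H87T

open Finset

private theorem PsiAP_cpow (n : ℕ) (hn : 1 ≤ n) (t : ℝ) :
    ((n : ℕ) : ℂ) ^ ((t : ℂ) * Complex.I) = ei (t * Real.log n) := by
  have h0 : (n : ℂ) ≠ 0 := by exact_mod_cast (by omega : n ≠ 0)
  rw [Complex.cpow_def_of_ne_zero h0, ei, ← Complex.natCast_log]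
  congr 1
  push_cast
  ring

private theorem PsiAP_conj (θ : ℝ) : (starRingEnd ℂ) (ei θ) = ei (-θ) := by
  rw [ei, ei, ← Complex.exp_conj]
  congr 1
  simp

private theorem PsiAP_psi (H : ℕ) (T S : Finset ℕ) (hT : T ⊆ range H) (t : ℝ) (a M j : ℕ)
    (ha : 1 ≤ a) :
    psi T S t a M j =
      ei (t * ∑ h ∈ range H, (eps T S h : ℝ) * Real.log ((a + h + M * j : ℕ) : ℝ)) := by
  have h1 : ∑ h ∈ range H, (eps T S h : ℝ) * Real.log ((a + h + M * j : ℕ) : ℝ)
      = ∑ h ∈ T, (eps T S h : ℝ) * Real.log ((a + h + M * j : ℕ) : ℝ) := by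
    symm
    apply Finset.sum_subset hT
    intro h _ hh
    simp [eps, hh]
  rw [h1, psi, ei]
  have h2 : ((t * ∑ h ∈ T, (eps T S h : ℝ) * Real.log ((a + h + M * j : ℕ) : ℝ) : ℝ) : ℂ) *
      Complex.I
     = ∑ h ∈ T, ((t * ((eps T S h : ℝ) * Real.log ((a + h + M * j : ℕ) : ℝ)) : ℝ) : ℂ) *
      Complex.I := by
    rw [Finset.mul_sum, Complex.ofReal_sum, Finset.sum_mul]
  rw [h2, Complex.exp_sum]
  apply Finset.prod_congr rfl
  intro h hh
  rw [PsiAP_cpow _ (by omega)]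
  change _ = ei _
  by_cases hS : h ∈ S
  · rw [if_pos hS]
    congr 1
    simp [eps, hh, hS]
  · rw [if_neg hS, PsiAP_conj]
    congr 1
    simp [eps, hh, hS]

private theorem PsiAP_eps (T S : Finset ℕ) (h : ℕ) : eps T (T \ S) h = - eps T S h := by
  unfold eps
  by_cases hT : h ∈ T
  · by_cases hS : h ∈ S
    · simp [hT, hS]
    · simp [hT, hS]
  · simp [hT]

private theorem PsiAP_abs (H : ℕ) (T S : Finset ℕ) (hT : T ⊆ range H) (hS : S ⊆ T) (t : ℝ) :
    ∃ S' : Finset ℕ, S' ⊆ T ∧ ∀ a M j : ℕ, 1 ≤ a → psi T S t a M j =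
      ei (|t| * ∑ h ∈ range H, (eps T S' h : ℝ) * Real.log ((a + h + M * j : ℕ) : ℝ)) := by
  rcases le_or_gt 0 t with h0 | h0
  · refine ⟨S, hS, fun a M j ha => ?_⟩
    rw [abs_of_nonneg h0, PsiAP_psi H T S hT t a M j ha]
  · refine ⟨T \ S, Finset.sdiff_subset, fun a M j ha => ?_⟩
    rw [abs_of_neg h0, PsiAP_psi H T S hT t a M j ha]
    congr 1
    rw [neg_mul, ← mul_neg, ← Finset.sum_neg_distrib]
    congr 1
    apply Finset.sum_congr rfl
    intro h _
    rw [PsiAP_eps]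
    push_cast
    ring

private theorem PsiAP_filter (N r b : ℕ) (hr : 1 ≤ r) (hb : b < r) (hN : b < N) :
    (range N).filter (fun j => j % r = b) =
      (range ((N - 1 - b) / r + 1)).image (fun i => b + r * i) := by
  ext j
  simp only [mem_filter, mem_range, mem_image]
  constructor
  · rintro ⟨h1, h2⟩
    refine ⟨j / r, ?_, ?_⟩
    · have h3 := Nat.div_add_mod j r
      have h4 : j / r ≤ (N - 1 - b) / r := by
        rw [Nat.le_div_iff_mul_le (by omega), mul_comm]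
        omega
      omega
    · have h3 := Nat.div_add_mod j r
      omega
  · rintro ⟨i, h1, h2⟩
    have h3 : i ≤ (N - 1 - b) / r := by omega
    rw [Nat.le_div_iff_mul_le (by omega), mul_comm] at h3
    refine ⟨by omega, ?_⟩
    rw [← h2, Nat.add_mul_mod_self_left, Nat.mod_eq_of_lt hb]

private theorem PsiAP_sum (N r b : ℕ) (hr : 1 ≤ r) (hb : b < r) (hN : b < N) (f : ℕ → ℂ) :
    ∑ j ∈ (range N).filter (fun j => j % r = b), f j =
      ∑ i ∈ range ((N - 1 - b) / r + 1), f (b + r * i) := by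
  rw [PsiAP_filter N r b hr hb hN, Finset.sum_image]
  intro x _ y _ hxy
  have h1 : r * x = r * y := by
    simp only at hxy
    omega
  exact Nat.eq_of_mul_eq_mul_left (by omega) h1

theorem psi_ap (H K1 : ℕ) : ∃ C c : ℝ, 0 < C ∧ 0 < c ∧ ∀ T S : Finset ℕ, T ⊆ range H →
    T.Nonempty → S ⊆ T → ∀ (t : ℝ) (a M N r b : ℕ), 1 ≤ a → a ≤ M → 1 ≤ N → 1 ≤ r → r ^ 2 ≤ N →
      (2 * (M : ℝ) * N) ^ (H + 2) ≤ |t| → |t| ≤ (N : ℝ) ^ K1 →
      ‖∑ j ∈ (range N).filter (fun j => j % r = b), psi T S t a M j‖ ≤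
        C * (N : ℝ) ^ (-c) * ((N : ℝ) / r) := by
  obtain ⟨C, c, hC, hc, hfull⟩ := full_sum H (4 * K1)
  refine ⟨2 * C, c / 4, by positivity, by positivity, ?_⟩
  intro T S hT hTne hS t a M N r b ha haM hN hr hrN ht1 ht2
  have hNpos : (0 : ℝ) < N := by exact_mod_cast hN
  have hrpos : (0 : ℝ) < r := by exact_mod_cast hr
  rcases le_or_gt r b with hb | hb
  · have he : (range N).filter (fun j => j % r = b) = ∅ := by
      apply Finset.filter_eq_empty_iff.mpr
      intro j _ hj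
      have := Nat.mod_lt j (show 0 < r by omega)
      omega
    rw [he, Finset.sum_empty, norm_zero]
    positivity
  have hrN' : r ≤ N := by nlinarith
  have hbN : b < N := by omega
  obtain ⟨S', hS', hpsi⟩ := PsiAP_abs H T S hT hS t
  rw [PsiAP_sum N r b hr hb hbN]
  set I : ℕ := (N - 1 - b) / r + 1 with hI
  have hI1 : 1 ≤ I := Nat.succ_le_succ (Nat.zero_le _)
  have hdm := Nat.div_add_mod (N - 1 - b) r
  have hml := Nat.mod_lt (N - 1 - b) (show 0 < r by omega)
  have hrI : r * I = r * ((N - 1 - b) / r) + r := by rw [hI]; ring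
  have hup : r * I ≤ 2 * N := by omega
  have hlo : N < r * I + r := by omega
  have hrI2 : r ≤ I := by
    by_contra hcon
    push Not at hcon
    have : r * (I + 1) ≤ r * r := Nat.mul_le_mul_left _ (by omega)
    nlinarith
  have hN4 : N ≤ I ^ 4 := by
    have h1 : N < I * I + I := by nlinarith
    rcases Nat.lt_or_ge 1 I with h2 | h2
    · have h3 : I * I + I ≤ I ^ 4 := by
        have h4 : 4 ≤ I * I := by nlinarith
        calc I * I + I ≤ 4 * (I * I) := by nlinarith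
          _ ≤ (I * I) * (I * I) := Nat.mul_le_mul_right _ h4
          _ = I ^ 4 := by ring
      omega
    · have : I = 1 := by omega
      rw [this] at h1 ⊢
      omega
  have hI4 : (N : ℝ) ≤ (I : ℝ) ^ 4 := by exact_mod_cast hN4
  have hIpos : (0 : ℝ) < I := by exact_mod_cast hI1
  have key := hfull T S' hT hTne hS' |t| (a + M * b) (M * r) I (by omega)
    (by nlinarith) hI1 (by
      refine le_trans ?_ ht1
      apply pow_le_pow_left₀ (by positivity)
      have : ((r * I : ℕ) : ℝ) ≤ ((2 * N : ℕ) : ℝ) := by exact_mod_cast hup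
      push_cast at this ⊢
      have hM : (0 : ℝ) ≤ M := by positivity
      nlinarith) (by
      refine le_trans ht2 ?_
      rw [pow_mul]
      exact pow_le_pow_left₀ hNpos.le hI4 _)
  have hsum : ∑ i ∈ range I, psi T S t a M (b + r * i) =
      ∑ i ∈ range I, ei (|t| * ∑ h ∈ range H, (eps T S' h : ℝ) *
        Real.log ((((a + M * b : ℕ) : ℝ)) + ((M * r : ℕ) : ℝ) * i + h)) := by
    apply Finset.sum_congr rfl
    intro i _
    rw [hpsi a M (b + r * i) ha]
    congr 1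
    congr 1
    apply Finset.sum_congr rfl
    intro h _
    congr 2
    push_cast
    ring
  rw [hsum]
  refine le_trans key ?_
  have h1 : (I : ℝ) ^ (1 - c) = I * (I : ℝ) ^ (-c) := by
    rw [sub_eq_add_neg, Real.rpow_add hIpos, Real.rpow_one]
  have h2 : (I : ℝ) ^ (-c) ≤ (N : ℝ) ^ (-(c / 4)) := by
    have h3 : (I : ℝ) ^ (-c) = ((I : ℝ) ^ 4) ^ (-(c / 4)) := by
      rw [← Real.rpow_natCast, ← Real.rpow_mul hIpos.le]
      congr 1
      push_cast
      ring
    rw [h3]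
    exact Real.rpow_le_rpow_of_nonpos hNpos hI4 (by linarith)
  have h4 : (I : ℝ) ≤ 2 * (N / r) := by
    rw [← mul_div_assoc, le_div_iff₀ hrpos]
    have : ((r * I : ℕ) : ℝ) ≤ ((2 * N : ℕ) : ℝ) := by exact_mod_cast hup
    push_cast at this
    linarith
  rw [h1]
  have h5 : (0 : ℝ) ≤ (I : ℝ) ^ (-c) := Real.rpow_nonneg hIpos.le _
  calc C * (I * (I : ℝ) ^ (-c)) ≤ C * ((2 * (N / r)) * (N : ℝ) ^ (-(c / 4))) := by
        apply mul_le_mul_of_nonneg_left _ hC.le
        apply mul_le_mul h4 h2 h5 (by positivity)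
    _ = 2 * C * (N : ℝ) ^ (-(c / 4)) * (N / r) := by ring

end Pool.Agent.H87T
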