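import Pool.Agent.H87T.Corr2
import Pool.Agent.H87T.PsiAP
import Pool.Agent.H87S.LD

/-!
Large deviations for `n^(it) GP P z n` in short intervals and residue classes, when `|t|` is a large power of
the size of the numbers.

PROOF PLAN.  `V h j = (c + h + M j)^(it) GP P z (c + h + M j)`, `|V| <= 1`.  For `∅ ≠ T ⊆ range H` and `s`:
`∏_{h ∈ T} (V or conj V) = psi T S t c M j ∏_{h ∈ T} GP P (z or conj z) (c + h + M j)` with
`S = {h ∈ T : s h}`.  Enumerate `T` (`k = |T|`, `1 <= k <= H`): the data `c i = c + h_i` are admissible as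
in `Pool/Agent/H87S/LDClass.lean` (copy from there).  `R` = the natural number with `R^16 <= N < (R+1)^16`.
`psi_ap H K` with `N`: `R^3 <= N^(3/16)`, so `r^2 <= N` for `r <= R^3`;
`(2 M N)^(H+2) <= (M N)^(2H+4) <= |t|` if `B >= 2H + 4` (`M N >= 2`) and `|t| <= y^K <= N^K`.  So `E = C N^(-c)`
is admissible in `corr2`, and the correlation is at most
`C N (log y/log R + C N^(-c) (1 + log N)^m)`.  `N < (R+1)^16 <= R^32` and `y^B <= N`: `log y/log R <= 32/B`
(and `y <= R` if `B >= 32`, `y^32 <= N`, `R + 1 > y^2`).  Take `B` with `C 32/B <= δ exp (-H)/2` (maximum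
over `k <= H`), then `y0` with `C^2 N^(-c) (1 + log N)^m <= δ exp (-H)/2` for `N >= y0`, and
`large_dev` with `δ exp (-H)`.
-/

namespace Pool.Agent.H87T

open Finset Pool.Agent.H87S

private theorem LDClass2_conj (P : Finset ℕ) (z : ℕ → ℂ) (n : ℕ) :
    (starRingEnd ℂ) (GP P z n) = GP P (fun p => (starRingEnd ℂ) (z p)) n := by
  unfold GP
  rw [map_prod]

/-- `corr2` with constants independent of `k ≤ H`. -/
private theorem LDClass2_unif (H : ℕ) : ∃ (C : ℝ) (m : ℕ), 0 < C ∧ ∀ k : ℕ, 1 ≤ k → k ≤ H →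
    ∀ (P : Finset ℕ) (M : ℕ) (c : Fin k → ℕ), Adm P k M c →
    ∀ y N R : ℕ, 2 ≤ y → (∀ p ∈ P, p ≤ y) → y ≤ R → R ^ 16 ≤ N →
    ∀ z : Fin k → ℕ → ℂ, (∀ i, ∀ p ∈ P, ‖z i p‖ ≤ 1) →
    ∀ (ψ : ℕ → ℂ) (E : ℝ), (∀ j < N, ‖ψ j‖ ≤ 1) → 0 ≤ E →
    (∀ r b : ℕ, 1 ≤ r → r ≤ R ^ 3 →
      ‖∑ j ∈ (range N).filter (fun j => j % r = b), ψ j‖ ≤ E * ((N : ℝ) / r)) →
    ‖∑ j ∈ range N, ψ j * ∏ i : Fin k, GP P (z i) (c i + M * j)‖ ≤
      C * N * (Real.log y / Real.log R + E * (1 + Real.log R) ^ m) := by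
  have h1 : ∀ k : ℕ, ∃ (C : ℝ) (m : ℕ), 0 < C ∧ (1 ≤ k →
      ∀ (P : Finset ℕ) (M : ℕ) (c : Fin k → ℕ), Adm P k M c →
      ∀ y N R : ℕ, 2 ≤ y → (∀ p ∈ P, p ≤ y) → y ≤ R → R ^ 16 ≤ N →
      ∀ z : Fin k → ℕ → ℂ, (∀ i, ∀ p ∈ P, ‖z i p‖ ≤ 1) →
      ∀ (ψ : ℕ → ℂ) (E : ℝ), (∀ j < N, ‖ψ j‖ ≤ 1) → 0 ≤ E →
      (∀ r b : ℕ, 1 ≤ r → r ≤ R ^ 3 →
        ‖∑ j ∈ (range N).filter (fun j => j % r = b), ψ j‖ ≤ E * ((N : ℝ) / r)) →
      ‖∑ j ∈ range N, ψ j * ∏ i : Fin k, GP P (z i) (c i + M * j)‖ ≤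
        C * N * (Real.log y / Real.log R + E * (1 + Real.log R) ^ m)) := by
    intro k
    by_cases hk : 1 ≤ k
    · obtain ⟨C, m, hC, h⟩ := corr2 k hk
      exact ⟨C, m, hC, fun _ => h⟩
    · exact ⟨1, 0, one_pos, fun h => absurd h hk⟩
  choose Cf mf hCf hf using h1
  refine ⟨∑ k ∈ range (H + 1), Cf k, ∑ k ∈ range (H + 1), mf k,
    sum_pos (fun k _ => hCf k) ⟨0, by simp⟩, ?_⟩
  intro k hk1 hkH P M c hadm y N R hy hP hyR hRN z hz ψ E hψ hE hap
  refine (hf k hk1 P M c hadm y N R hy hP hyR hRN z hz ψ E hψ hE hap).trans ?_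
  have hkmem : k ∈ range (H + 1) := mem_range.2 (by omega)
  have hCle : Cf k ≤ ∑ k ∈ range (H + 1), Cf k :=
    single_le_sum (f := Cf) (fun i _ => (hCf i).le) hkmem
  have hmle : mf k ≤ ∑ k ∈ range (H + 1), mf k :=
    single_le_sum (f := mf) (fun i _ => Nat.zero_le _) hkmem
  have hyr : (2 : ℝ) ≤ y := by exact_mod_cast hy
  have hRr : (2 : ℝ) ≤ R := by exact_mod_cast hy.trans hyR
  have hlogy : 0 ≤ Real.log y := Real.log_nonneg (by linarith)
  have hlogR : 0 ≤ Real.log R := Real.log_nonneg (by linarith)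
  have hpow : (1 + Real.log R) ^ mf k ≤ (1 + Real.log R) ^ (∑ k ∈ range (H + 1), mf k) :=
    pow_le_pow_right₀ (by linarith) hmle
  have h2 : Real.log y / Real.log R + E * (1 + Real.log R) ^ mf k ≤
      Real.log y / Real.log R + E * (1 + Real.log R) ^ (∑ k ∈ range (H + 1), mf k) := by
    have := mul_le_mul_of_nonneg_left hpow hE
    linarith
  have h3 : 0 ≤ Real.log y / Real.log R + E * (1 + Real.log R) ^ mf k := by positivity
  exact mul_le_mul (mul_le_mul_of_nonneg_right hCle (Nat.cast_nonneg N)) h2 h3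
    (mul_nonneg ((hCf k).le.trans hCle) (Nat.cast_nonneg N))

/-- The correlation as a `psi`-twisted correlation of `GP`. -/
private theorem LDClass2_prod (T : Finset ℕ) (s : ℕ → Bool) (P : Finset ℕ) (z : ℕ → ℂ) (t : ℝ)
    (c M j : ℕ) :
    ∏ h ∈ T, (if s h then ((c + h + M * j : ℕ) : ℂ) ^ ((t : ℂ) * Complex.I) *
          GP P z (c + h + M * j)
        else (starRingEnd ℂ) (((c + h + M * j : ℕ) : ℂ) ^ ((t : ℂ) * Complex.I) *
          GP P z (c + h + M * j))) =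
      psi T (T.filter fun h => s h = true) t c M j *
        ∏ h ∈ T, (if s h then GP P z (c + h + M * j)
          else (starRingEnd ℂ) (GP P z (c + h + M * j))) := by
  unfold psi
  rw [← prod_mul_distrib]
  refine prod_congr rfl fun h hh => ?_
  by_cases hs : s h = true
  · have h1 : h ∈ T.filter fun h => s h = true := mem_filter.2 ⟨hh, hs⟩
    rw [if_pos hs, if_pos hs, if_pos h1]
  · have h1 : ¬ h ∈ T.filter fun h => s h = true := fun h2 => hs (mem_filter.1 h2).2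
    rw [if_neg hs, if_neg hs, if_neg h1, map_mul]

private theorem LDClass2_psi_norm (T S : Finset ℕ) (t : ℝ) (c M j : ℕ) (hc : 1 ≤ c) :
    ‖psi T S t c M j‖ ≤ 1 := by
  unfold psi
  rw [norm_prod]
  refine prod_le_one (fun _ _ => norm_nonneg _) fun h _ => ?_
  have h1 : ‖((c + h + M * j : ℕ) : ℂ) ^ ((t : ℂ) * Complex.I)‖ = 1 :=
    norm_natpow_it _ (by omega) t
  split_ifs
  · exact h1.le
  · rw [RCLike.norm_conj]
    exact h1.le

/-- The bound for the correlations along a nonempty set of shifts. -/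
private theorem LDClass2_corr (H : ℕ) (C : ℝ) (m : ℕ)
    (hcorr : ∀ k : ℕ, 1 ≤ k → k ≤ H →
      ∀ (P : Finset ℕ) (M : ℕ) (c : Fin k → ℕ), Adm P k M c →
      ∀ y N R : ℕ, 2 ≤ y → (∀ p ∈ P, p ≤ y) → y ≤ R → R ^ 16 ≤ N →
      ∀ z : Fin k → ℕ → ℂ, (∀ i, ∀ p ∈ P, ‖z i p‖ ≤ 1) →
      ∀ (ψ : ℕ → ℂ) (E : ℝ), (∀ j < N, ‖ψ j‖ ≤ 1) → 0 ≤ E →
      (∀ r b : ℕ, 1 ≤ r → r ≤ R ^ 3 →
        ‖∑ j ∈ (range N).filter (fun j => j % r = b), ψ j‖ ≤ E * ((N : ℝ) / r)) →
      ‖∑ j ∈ range N, ψ j * ∏ i : Fin k, GP P (z i) (c i + M * j)‖ ≤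
        C * N * (Real.log y / Real.log R + E * (1 + Real.log R) ^ m))
    (T : Finset ℕ) (hT : T ⊆ range H) (hTne : T.Nonempty) (s : ℕ → Bool) (P : Finset ℕ)
    (M c y N R : ℕ) (z : ℕ → ℂ) (t E : ℝ) (hy : 2 ≤ y) (hc : 1 ≤ c) (hyR : y ≤ R)
    (hRN : R ^ 16 ≤ N) (hP : ∀ p ∈ P, p.Prime ∧ H < p ∧ p ≤ y ∧ ¬ p ∣ M)
    (hz : ∀ p ∈ P, ‖z p‖ ≤ 1) (hE : 0 ≤ E)
    (hap : ∀ S ⊆ T, ∀ r b : ℕ, 1 ≤ r → r ≤ R ^ 3 →
      ‖∑ j ∈ (range N).filter (fun j => j % r = b), psi T S t c M j‖ ≤ E * ((N : ℝ) / r)) :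
    ‖∑ j ∈ range N, ∏ h ∈ T, (if s h then ((c + h + M * j : ℕ) : ℂ) ^ ((t : ℂ) * Complex.I) *
          GP P z (c + h + M * j)
        else (starRingEnd ℂ) (((c + h + M * j : ℕ) : ℂ) ^ ((t : ℂ) * Complex.I) *
          GP P z (c + h + M * j)))‖ ≤
      C * N * (Real.log y / Real.log R + E * (1 + Real.log R) ^ m) := by
  set k := T.card with hk
  have hk1 : 1 ≤ k := hTne.card_pos
  have hkH : k ≤ H := by
    have := card_le_card hT
    rwa [card_range] at this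
  set e : Fin k ≃ ↥T := T.equivFin.symm with he
  have heH : ∀ i : Fin k, ((e i : ↥T) : ℕ) < H := fun i => mem_range.mp (hT (e i).2)
  set zz : Fin k → ℕ → ℂ := fun i p => if s (e i : ℕ) then z p else (starRingEnd ℂ) (z p) with hzz
  have hzz1 : ∀ i, ∀ p ∈ P, ‖zz i p‖ ≤ 1 := by
    intro i p hp
    simp only [hzz]
    split_ifs
    · exact hz p hp
    · rw [RCLike.norm_conj]
      exact hz p hp
  have hadm : Adm P k M (fun i : Fin k => c + (e i : ℕ)) := by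
    refine ⟨fun p hp => (hP p hp).1, fun p hp => lt_of_le_of_lt hkH (hP p hp).2.1,
      fun p hp => (hP p hp).2.2.2, ?_⟩
    intro p hp i i' hii hmod
    apply hii
    have h1 : (e i : ℕ) ≡ (e i' : ℕ) [MOD p] := Nat.ModEq.add_left_cancel' c hmod
    have h2 : (e i : ℕ) = (e i' : ℕ) :=
      Nat.ModEq.eq_of_lt_of_lt h1 (lt_trans (heH i) (hP p hp).2.1)
        (lt_trans (heH i') (hP p hp).2.1)
    exact e.injective (Subtype.ext h2)
  have hprod : ∀ j, ∏ h ∈ T, (if s h then GP P z (c + h + M * j)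
        else (starRingEnd ℂ) (GP P z (c + h + M * j))) =
      ∏ i : Fin k, GP P (zz i) (c + (e i : ℕ) + M * j) := by
    intro j
    rw [← Finset.prod_coe_sort T, ← Equiv.prod_comp e]
    apply Finset.prod_congr rfl
    intro i _
    by_cases hs : s (e i : ℕ)
    · have : zz i = z := by
        funext p
        simp only [hzz, hs, if_true]
      rw [if_pos hs, this]
    · have : zz i = fun p => (starRingEnd ℂ) (z p) := by
        funext p
        simp only [hzz, hs]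
        simp
      rw [if_neg hs, LDClass2_conj, this]
  have h1 := hcorr k hk1 hkH P M (fun i : Fin k => c + (e i : ℕ)) hadm y N R hy
    (fun p hp => (hP p hp).2.2.1) hyR hRN zz hzz1
    (fun j => psi T (T.filter fun h => s h = true) t c M j) E
    (fun j _ => LDClass2_psi_norm T _ t c M j hc) hE (hap _ (filter_subset _ _))
  have h2 : ∀ j ∈ range N, ∏ h ∈ T,
      (if s h then ((c + h + M * j : ℕ) : ℂ) ^ ((t : ℂ) * Complex.I) * GP P z (c + h + M * j)
        else (starRingEnd ℂ) (((c + h + M * j : ℕ) : ℂ) ^ ((t : ℂ) * Complex.I) *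
          GP P z (c + h + M * j))) =
      psi T (T.filter fun h => s h = true) t c M j *
        ∏ i : Fin k, GP P (zz i) (c + (e i : ℕ) + M * j) := by
    intro j _
    rw [LDClass2_prod, hprod]
  rw [sum_congr rfl h2]
  exact h1

/-- The error term tends to zero. -/
private theorem LDClass2_lim (A c0 η : ℝ) (m : ℕ) (hc0 : 0 < c0) (hη : 0 < η) :
    ∃ n0 : ℕ, ∀ n : ℕ, n0 ≤ n → A * (n : ℝ) ^ (-c0) * (1 + Real.log n) ^ m ≤ η := by
  have h1 : Filter.Tendsto (fun x : ℝ => (1 + Real.log x) ^ m / x ^ c0) Filter.atTop (nhds 0) := by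
    have h2 : (fun x : ℝ => (1 + Real.log x) ^ m) =o[Filter.atTop] fun x : ℝ => x ^ c0 := by
      have h3 := isLittleO_log_rpow_rpow_atTop (s := c0) (m : ℝ) hc0
      have h4 : (fun x : ℝ => (1 + Real.log x) ^ m) =O[Filter.atTop]
          fun x : ℝ => Real.log x ^ (m : ℝ) := by
        refine Asymptotics.IsBigO.of_bound (2 ^ m) ?_
        filter_upwards [Filter.eventually_ge_atTop (Real.exp 1)] with x hx
        have hx0 : 0 < x := (Real.exp_pos 1).trans_le hx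
        have h5 : 1 ≤ Real.log x := by
          rw [Real.le_log_iff_exp_le hx0]
          exact hx
        rw [Real.rpow_natCast, Real.norm_of_nonneg (by positivity),
          Real.norm_of_nonneg (by positivity), ← mul_pow]
        exact pow_le_pow_left₀ (by positivity) (by linarith) m
      exact h4.trans_isLittleO h3
    exact h2.tendsto_div_nhds_zero
  have h2 : Filter.Tendsto (fun x : ℝ => A * ((1 + Real.log x) ^ m / x ^ c0)) Filter.atTop
      (nhds 0) := by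
    have := h1.const_mul A
    rwa [mul_zero] at this
  have h3 := (h2.eventually (Iic_mem_nhds hη)).and (Filter.eventually_gt_atTop 0)
  obtain ⟨x0, hx0⟩ := Filter.eventually_atTop.1 h3
  obtain ⟨n0, hn0⟩ := exists_nat_ge x0
  refine ⟨n0, fun n hn => ?_⟩
  have h4 := hx0 (n : ℝ) (hn0.trans (by exact_mod_cast hn))
  have h5 : A * (n : ℝ) ^ (-c0) * (1 + Real.log n) ^ m =
      A * ((1 + Real.log n) ^ m / (n : ℝ) ^ c0) := by
    rw [Real.rpow_neg h4.2.le]
    ring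
  rw [h5]
  exact h4.1

/-- A natural number between the 16th roots. -/
private theorem LDClass2_root (N : ℕ) : ∃ R : ℕ, R ^ 16 ≤ N ∧ N < (R + 1) ^ 16 := by
  have h1 : ∃ n : ℕ, N < (n + 1) ^ 16 :=
    ⟨N, lt_of_lt_of_le (Nat.lt_succ_self N) (Nat.le_self_pow (by norm_num) _)⟩
  classical
  refine ⟨Nat.find h1, ?_, Nat.find_spec h1⟩
  rcases Nat.eq_zero_or_pos (Nat.find h1) with h2 | h2
  · rw [h2]
    simp
  · have h3 := Nat.find_min h1 (m := Nat.find h1 - 1) (by omega)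
    rw [not_lt, Nat.sub_add_cancel h2] at h3
    exact h3

open Classical in
theorem ld_class2 (H : ℕ) (hH : 1 ≤ H) (ε δ : ℝ) (hε0 : 0 < ε) (hε1 : ε ≤ 1) (hδ : 0 < δ) :
    ∃ B : ℕ, 2 ≤ B ∧ ∀ K : ℕ, ∃ y0 : ℕ, ∀ (P : Finset ℕ) (M c y N : ℕ) (z u : ℕ → ℂ) (t : ℝ),
      y0 ≤ y → 2 ≤ y → y ^ B ≤ N → 1 ≤ c → c ≤ M → ((M : ℝ) * N) ^ B ≤ |t| → |t| ≤ (y : ℝ) ^ K →
      (∀ p ∈ P, p.Prime ∧ H < p ∧ p ≤ y ∧ ¬ p ∣ M) → (∀ p ∈ P, ‖z p‖ ≤ 1) →
      (∀ h < H, ‖u h‖ ≤ 1) →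
      (((range N).filter (fun j => ε * H < ‖∑ h ∈ range H, u h *
          (((c + h + M * j : ℕ) : ℂ) ^ ((t : ℂ) * Complex.I) * GP P z (c + h + M * j))‖)).card : ℝ) ≤
        4 * N * (Real.exp (-(ε ^ 2 * H / 4)) + δ) := by
  obtain ⟨C, m, hC, hcorr⟩ := LDClass2_unif H
  set δ' : ℝ := δ * Real.exp (-(H : ℝ)) with hδ'
  have hδ'0 : 0 < δ' := mul_pos hδ (Real.exp_pos _)
  obtain ⟨B0, hB0⟩ := exists_nat_ge (64 * C / δ')
  obtain ⟨B, hB32, hBH, hBB0⟩ : ∃ B : ℕ, 32 ≤ B ∧ 2 * H + 4 ≤ B ∧ B0 ≤ B :=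
    ⟨max 32 (max (2 * H + 4) B0), le_max_left _ _, (le_max_left _ _).trans (le_max_right _ _),
      (le_max_right _ _).trans (le_max_right _ _)⟩
  refine ⟨B, by omega, ?_⟩
  intro K
  obtain ⟨C', c', hC', hc', hpsi⟩ := psi_ap H K
  obtain ⟨n0, hn0⟩ := LDClass2_lim (C * C') c' (δ' / 2) m hc' (by linarith)
  refine ⟨n0, ?_⟩
  intro P M c y N z u t hy0 hy hyB hc hcM ht1 ht2 hP hz hu
  -- sizes
  have hBpos : 0 < B := by omega
  have hyN : y ≤ N := (Nat.le_self_pow (by omega) y).trans hyB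
  have hN2 : 2 ≤ N := hy.trans hyN
  obtain ⟨R, hRN, hNR⟩ := LDClass2_root N
  have h32 : y ^ 32 ≤ N := (Nat.pow_le_pow_right (by omega) hB32).trans hyB
  have hy2R : y ^ 2 < R + 1 := by
    have h1 : (y ^ 2) ^ 16 < (R + 1) ^ 16 := by
      rw [← pow_mul]
      exact h32.trans_lt hNR
    exact lt_of_pow_lt_pow_left₀ 16 (Nat.zero_le _) h1
  have hyR : y ≤ R := by
    have h1 : y ≤ y ^ 2 := Nat.le_self_pow (by norm_num) y
    omega
  have hR2 : 2 ≤ R := hy.trans hyR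
  have hyr : (2 : ℝ) ≤ y := by exact_mod_cast hy
  have hRr : (2 : ℝ) ≤ R := by exact_mod_cast hR2
  have hNr : (2 : ℝ) ≤ N := by exact_mod_cast hN2
  have hlogy : 0 < Real.log y := Real.log_pos (by linarith)
  have hlogR : 0 < Real.log R := Real.log_pos (by linarith)
  have hRleN : R ≤ N := (Nat.le_self_pow (by norm_num) R).trans hRN
  have hlogRN : Real.log R ≤ Real.log N :=
    Real.log_le_log (by linarith) (by exact_mod_cast hRleN)
  have hlog : Real.log y / Real.log R ≤ 32 / B := by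
    rw [div_le_div_iff₀ hlogR (by exact_mod_cast hBpos)]
    have h1 : y ^ B ≤ R ^ 32 := by
      refine hyB.trans (hNR.le.trans ?_)
      have h2 : R + 1 ≤ R ^ 2 := by
        calc R + 1 ≤ 2 * R := by omega
          _ ≤ R * R := Nat.mul_le_mul_right R hR2
          _ = R ^ 2 := (pow_two R).symm
      calc (R + 1) ^ 16 ≤ (R ^ 2) ^ 16 := Nat.pow_le_pow_left h2 16
        _ = R ^ 32 := by rw [← pow_mul]
    have h2 : ((y : ℝ)) ^ B ≤ (R : ℝ) ^ 32 := by exact_mod_cast h1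
    have h3 := Real.log_le_log (by positivity) h2
    rw [Real.log_pow, Real.log_pow] at h3
    push_cast at h3
    linarith
  -- the hypotheses of `psi_ap`
  have hM1 : 1 ≤ M := hc.trans hcM
  have hMr : (1 : ℝ) ≤ M := by exact_mod_cast hM1
  have hMN : (2 : ℝ) ≤ (M : ℝ) * N := by
    have h1 : (1 : ℝ) * N ≤ (M : ℝ) * N := mul_le_mul_of_nonneg_right hMr (by linarith)
    linarith
  have ht1' : (2 * (M : ℝ) * N) ^ (H + 2) ≤ |t| := by
    refine le_trans ?_ ht1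
    have h1 : 2 * (M : ℝ) * N ≤ ((M : ℝ) * N) ^ 2 := by
      rw [mul_assoc, pow_two]
      exact mul_le_mul_of_nonneg_right hMN (by linarith)
    calc (2 * (M : ℝ) * N) ^ (H + 2) ≤ (((M : ℝ) * N) ^ 2) ^ (H + 2) :=
          pow_le_pow_left₀ (by positivity) h1 _
      _ = ((M : ℝ) * N) ^ (2 * H + 4) := by
          rw [← pow_mul]
          congr 1
      _ ≤ ((M : ℝ) * N) ^ B := pow_le_pow_right₀ (by linarith) hBH
  have ht2' : |t| ≤ (N : ℝ) ^ K :=
    ht2.trans (pow_le_pow_left₀ (by positivity) (by exact_mod_cast hyN) K)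
  have hE0 : 0 ≤ C' * (N : ℝ) ^ (-c') := by positivity
  have hmain := large_dev H N
    (fun h j => ((c + h + M * j : ℕ) : ℂ) ^ ((t : ℂ) * Complex.I) * GP P z (c + h + M * j))
    (fun h _ j _ => by
      rw [norm_mul, norm_natpow_it _ (by omega) t, one_mul]
      exact GP_norm_le P z hz _) δ' hδ'0.le ?_ u hu ε hε0 hε1
  · have h1 : δ' * Real.exp H = δ := by
      rw [hδ', mul_assoc, ← Real.exp_add, neg_add_cancel, Real.exp_zero, mul_one]
    rw [h1] at hmain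
    exact hmain
  · intro T hT hTne s
    have h1 := LDClass2_corr H C m hcorr T hT hTne s P M c y N R z t (C' * (N : ℝ) ^ (-c')) hy hc
      hyR hRN hP hz hE0 (fun S hS r b hr1 hr2 => hpsi T S hT hTne hS t c M N r b hc hcM
        (by omega) hr1 (by
          calc r ^ 2 ≤ (R ^ 3) ^ 2 := Nat.pow_le_pow_left hr2 2
            _ = R ^ 6 := by rw [← pow_mul]
            _ ≤ R ^ 16 := Nat.pow_le_pow_right (by omega) (by norm_num)
            _ ≤ N := hRN) ht1' ht2')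
    refine h1.trans ?_
    have h2 : C * (Real.log y / Real.log R) ≤ δ' / 2 := by
      have h3 : C * (Real.log y / Real.log R) ≤ C * (32 / B) :=
        mul_le_mul_of_nonneg_left hlog hC.le
      have hBr : (0 : ℝ) < B := by exact_mod_cast hBpos
      have h4 : 64 * C / δ' ≤ (B : ℝ) := hB0.trans (by exact_mod_cast hBB0)
      have h5 : C * (32 / B) ≤ δ' / 2 := by
        rw [← mul_div_assoc, div_le_iff₀ hBr]
        rw [div_le_iff₀ hδ'0] at h4
        linarith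
      exact h3.trans h5
    have h3 : C * (C' * (N : ℝ) ^ (-c') * (1 + Real.log R) ^ m) ≤ δ' / 2 := by
      refine le_trans ?_ (hn0 N (hy0.trans hyN))
      have h4 : (1 + Real.log R) ^ m ≤ (1 + Real.log N) ^ m :=
        pow_le_pow_left₀ (by linarith) (by linarith) m
      have h5 : 0 ≤ C * C' * (N : ℝ) ^ (-c') := by positivity
      calc C * (C' * (N : ℝ) ^ (-c') * (1 + Real.log R) ^ m) =
            (C * C' * (N : ℝ) ^ (-c')) * (1 + Real.log R) ^ m := by ring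
        _ ≤ (C * C' * (N : ℝ) ^ (-c')) * (1 + Real.log N) ^ m :=
            mul_le_mul_of_nonneg_left h4 h5
    have h6 : C * N * (Real.log y / Real.log R + C' * (N : ℝ) ^ (-c') * (1 + Real.log R) ^ m) =
        (C * (Real.log y / Real.log R) + C * (C' * (N : ℝ) ^ (-c') * (1 + Real.log R) ^ m)) * N := by
      ring
    rw [h6]
    exact mul_le_mul_of_nonneg_right (by linarith) (Nat.cast_nonneg N)

end Pool.Agent.H87T
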