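import Pool.Agent.H87T.Defs

/-!
Windows on which `f` is very close to `χ(n) n^(it)`, with `|t|` a large power of the scale.

PROOF PLAN.  `Q, C` from `ArchPret`.  For `m >= 1` let `N = m^2 (C + 1)` (number of windows) and
`K m = 2 m (2 m^2)^N` (any such bound).  Take `T0` huge (below) and the data `q, χ, t` with `|t| >= T0`.
Let `X 0` be the natural number with `(X 0)^m <= |t| < (X 0 + 1)^m` and `X (i+1)` the natural number with
`X (i+1)^(m^2) <= X i < (X (i+1) + 1)^(m^2)`.  For `T0` large all `X i`, `i <= N`, are at least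
`max 2 Q (Y m)`, and `X i <= X (i+1)^(2 m^2)`, `|t| <= (X 0)^(2m)`, so `|t| <= X (i+1)^(K m)`.  The windows
`(X (i+1), X i]`, `i < N`, are disjoint and contained in `(0, X 0]`, `X 0 <= |t|`, and their primes are `> Q >= q`,
so do not divide `q`: the total sum is at most `C`, and one of the windows has sum at most
`C/N <= 1/m^2`.  Take `y0 = X (i+1)`, `x1 = X i` for it (`x1^m <= (X 0)^m <= |t|`).
-/

namespace Pool.Agent.H87T

open Finset Pool.Agent.H87S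

private lemma Pigeon_root (E n : ℕ) (hE : 1 ≤ E) : ∃ y : ℕ, y ^ E ≤ n ∧ n < (y + 1) ^ E := by
  classical
  set y := Nat.findGreatest (fun k => k ^ E ≤ n) n with hy
  refine ⟨y, ?_, ?_⟩
  · have h0 : (0 : ℕ) ^ E ≤ n := by
      rw [zero_pow (by omega)]
      exact Nat.zero_le n
    exact Nat.findGreatest_spec (P := fun k => k ^ E ≤ n) (Nat.zero_le n) h0
  · by_contra hlt
    push Not at hlt
    have h1 : y + 1 ≤ n := by
      calc y + 1 = (y + 1) ^ 1 := (pow_one _).symm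
        _ ≤ (y + 1) ^ E := Nat.pow_le_pow_right (Nat.succ_pos y) hE
        _ ≤ n := hlt
    have h2 : y + 1 ≤ y := Nat.le_findGreatest (P := fun k => k ^ E ≤ n) h1 hlt
    omega

private lemma Pigeon_disj (z : ℕ → ℕ) (hz : Monotone z) (s : Finset ℕ) :
    (s : Set ℕ).PairwiseDisjoint fun i => pr (z i) (z (i + 1)) := by
  intro i _ j _ hij
  rw [Function.onFun, Finset.disjoint_left]
  intro p hp hp'
  rw [mem_pr] at hp hp'
  rcases lt_or_gt_of_ne hij with h | h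
  · have h1 : z (i + 1) ≤ z j := hz h
    omega
  · have h1 : z (j + 1) ≤ z i := hz h
    omega

theorem pigeon (f : ℕ → ℂ) (hf : MultD f) (h : ArchPret f) : ∃ K : ℕ → ℕ, ∀ Y : ℕ → ℕ,
    ∀ m : ℕ, 1 ≤ m → ∃ (q : ℕ) (χ : DirichletCharacter ℂ q) (t : ℝ) (y0 x1 : ℕ),
      1 ≤ q ∧ q ≤ y0 ∧ Y m ≤ y0 ∧ 2 ≤ y0 ∧ y0 ^ (m ^ 2) ≤ x1 ∧ (x1 : ℝ) ^ m ≤ |t| ∧
      |t| ≤ (y0 : ℝ) ^ (K m) ∧
      ∑ p ∈ pr y0 x1, (1 - (zf f χ t p).re) / p ≤ 1 / (m : ℝ) ^ 2 := by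
  classical
  obtain ⟨Q, C, hQC⟩ := h
  refine ⟨fun m => 2 * (m * (m ^ 2) ^ (m ^ 2 * (C + 1))), fun Y m hm => ?_⟩
  set r : ℕ := m ^ 2 with hr
  set N : ℕ := r * (C + 1) with hN
  set E : ℕ := m * r ^ N with hE
  have hr1 : 1 ≤ r := Nat.one_le_pow _ _ hm
  have hN1 : 1 ≤ N := Nat.mul_pos hr1 (Nat.succ_pos C)
  have hE1 : 1 ≤ E := Nat.mul_pos hm (Nat.one_le_pow _ _ hr1)
  set B : ℕ := 2 + Q + Y m with hB
  obtain ⟨q, χ, t, hq1, hqQ, htT, hsum⟩ := hQC (((B + 1) ^ E : ℕ) : ℝ)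
  obtain ⟨y, hy1, hy2⟩ := Pigeon_root E ⌊|t|⌋₊ hE1
  have hBE : (B + 1) ^ E ≤ ⌊|t|⌋₊ := Nat.le_floor htT
  have hyB : B ≤ y := by
    have h1 : (B + 1) ^ E < (y + 1) ^ E := lt_of_le_of_lt hBE hy2
    have h2 : B + 1 < y + 1 := lt_of_pow_lt_pow_left₀ E (Nat.zero_le _) h1
    omega
  have hy2' : 2 ≤ y := by omega
  have hy1' : 1 ≤ y := by omega
  -- the windows
  set z : ℕ → ℕ := fun i => y ^ (r ^ i) with hz
  have hzmono : Monotone z := by
    intro i j hij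
    exact Nat.pow_le_pow_right hy1' (Nat.pow_le_pow_right hr1 hij)
  have hyz : ∀ i, y ≤ z i := fun i => by
    calc y = y ^ 1 := (pow_one y).symm
      _ ≤ y ^ (r ^ i) := Nat.pow_le_pow_right hy1' (Nat.one_le_pow _ _ hr1)
  have hzs : ∀ i, z (i + 1) = z i ^ r := fun i => by
    have h1 : r ^ (i + 1) = r ^ i * r := pow_succ r i
    change y ^ (r ^ (i + 1)) = (y ^ (r ^ i)) ^ r
    rw [h1, pow_mul]
  have hzN : z N ^ m ≤ ⌊|t|⌋₊ := by
    have : z N ^ m = y ^ E := by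
      change (y ^ (r ^ N)) ^ m = y ^ (m * r ^ N)
      rw [← pow_mul, mul_comm]
    rw [this]
    exact hy1
  have hfl : ((⌊|t|⌋₊ : ℕ) : ℝ) ≤ |t| := Nat.floor_le (abs_nonneg t)
  have hzNt : (z N : ℝ) ≤ |t| := by
    have h1 : z N ≤ z N ^ m := Nat.le_self_pow (by omega) _
    have h2 : ((z N : ℕ) : ℝ) ≤ ((⌊|t|⌋₊ : ℕ) : ℝ) := by exact_mod_cast h1.trans hzN
    exact h2.trans hfl
  have hnn : ∀ p : ℕ, 0 ≤ (1 - (zf f χ t p).re) / (p : ℝ) := by
    intro p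
    rcases Nat.eq_zero_or_pos p with h0 | h0
    · rw [h0]
      simp
    · exact div_nonneg (zf_re_le hf χ t p h0) (Nat.cast_nonneg p)
  -- the total sum
  have htot : ∑ i ∈ range N, ∑ p ∈ pr (z i) (z (i + 1)), (1 - (zf f χ t p).re) / (p : ℝ) ≤ C := by
    rw [← Finset.sum_biUnion (Pigeon_disj z hzmono (range N))]
    refine le_trans (Finset.sum_le_sum_of_subset_of_nonneg ?_ fun p _ _ => hnn p)
      (hsum (z N) hzNt)
    intro p hp
    rw [mem_biUnion] at hp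
    obtain ⟨i, hi, hp⟩ := hp
    rw [mem_pr] at hp
    have hiN : i + 1 ≤ N := by
      have := mem_range.1 hi
      omega
    have h1 : z (i + 1) ≤ z N := hzmono hiN
    have h2 := hyz i
    rw [mem_filter, mem_pr]
    refine ⟨⟨⟨by omega, by omega⟩, hp.2⟩, fun hdvd => ?_⟩
    have h3 : p ≤ q := Nat.le_of_dvd hq1 hdvd
    omega
  -- the pigeonhole principle
  have hrpos : (0 : ℝ) < r := by exact_mod_cast hr1
  obtain ⟨i, hi, hS⟩ : ∃ i < N, ∑ p ∈ pr (z i) (z (i + 1)), (1 - (zf f χ t p).re) / (p : ℝ) ≤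
      1 / (r : ℝ) := by
    by_contra hcon
    push Not at hcon
    have h1 : ∑ i ∈ range N, (1 / (r : ℝ)) ≤
        ∑ i ∈ range N, ∑ p ∈ pr (z i) (z (i + 1)), (1 - (zf f χ t p).re) / (p : ℝ) :=
      Finset.sum_le_sum fun i hi => (hcon i (mem_range.1 hi)).le
    rw [Finset.sum_const, card_range, nsmul_eq_mul] at h1
    have h2 : (N : ℝ) * (1 / (r : ℝ)) = C + 1 := by
      rw [hN]
      push_cast
      field_simp
    linarith
  refine ⟨q, χ, t, z i, z (i + 1), hq1, ?_, ?_, ?_, ?_, ?_, ?_, ?_⟩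
  · have := hyz i
    omega
  · have := hyz i
    omega
  · have := hyz i
    omega
  · rw [hzs]
  · have h1 : z (i + 1) ^ m ≤ z N ^ m := Nat.pow_le_pow_left (hzmono hi) m
    have h2 : ((z (i + 1) ^ m : ℕ) : ℝ) ≤ ((⌊|t|⌋₊ : ℕ) : ℝ) := by
      exact_mod_cast h1.trans hzN
    have h3 : ((z (i + 1) : ℕ) : ℝ) ^ m = ((z (i + 1) ^ m : ℕ) : ℝ) := by push_cast; rfl
    rw [h3]
    exact h2.trans hfl
  · have h1 : |t| ≤ (((y + 1) ^ E : ℕ) : ℝ) := by
      have h2 : |t| < (⌊|t|⌋₊ : ℝ) + 1 := Nat.lt_floor_add_one _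
      have h3 : ((⌊|t|⌋₊ : ℕ) : ℝ) + 1 ≤ (((y + 1) ^ E : ℕ) : ℝ) := by exact_mod_cast hy2
      linarith
    have h4 : (y + 1) ^ E ≤ z i ^ (2 * E) := by
      have h5 : y + 1 ≤ z i ^ 2 := by
        have h6 := hyz i
        have h7 : y * y ≤ z i * z i := Nat.mul_le_mul h6 h6
        have h8 : 2 * y ≤ y * y := Nat.mul_le_mul_right y hy2'
        rw [pow_two]
        omega
      calc (y + 1) ^ E ≤ (z i ^ 2) ^ E := Nat.pow_le_pow_left h5 E
        _ = z i ^ (2 * E) := by rw [← pow_mul]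
    calc |t| ≤ (((y + 1) ^ E : ℕ) : ℝ) := h1
      _ ≤ ((z i ^ (2 * E) : ℕ) : ℝ) := by exact_mod_cast h4
      _ = ((z i : ℕ) : ℝ) ^ (2 * E) := by push_cast; rfl
  · have h1 : (1 : ℝ) / (m : ℝ) ^ 2 = 1 / (r : ℝ) := by
      rw [hr]
      push_cast
      rfl
    rw [h1]
    exact hS

end Pool.Agent.H87T
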