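import Pool.Agent.H87T.Finitary2
import Pool.Agent.H87T.Pigeon
import Pool.Agent.H87S.LogDens
import Pool.Agent.H87S.PrimeSums

/-!
Orthogonality along a set of upper logarithmic density 1, second case.

PROOF PLAN.  `K` from `pigeon`, `Y` from `finitary2 K`, for every `m >= 1` the data `q, χ, t, y0, x1` of
`pigeon` with this `Y`; `lo m = y0^m`, `hi m = x1` (index shifted by one: `m = j + 1`).
`log (lo m)/log (hi m) <= 1/m`, `hi m >= 2^(m^2)`.  Given `a` and `ε`, take `B, m0, η` from `finitary2`.  For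
`lo m <= x <= hi m` and `m >= max m0 B`, let `y` be the natural number with `y^B <= x < (y+1)^B`: `y >= y0`
because `y0^B <= y0^m <= x`.  `x^B <= (x1)^m <= |t|`, `|t| <= y0^(K m) <= y^(K m)`, `q <= y0 <= y`,
`Y m <= y0 <= y`.  The sum `∑_{y < p <= x} |1 - z|/p` is at most `(2/m^2)^(1/2) (C (1 + log (2B)))^(1/2)` by
Cauchy-Schwarz as in `Main_window` of `Pool/Agent/H87S/Main.lean` (private there: copy it), which is `<= η`
for large `m`.  Each interval is finite, so `x → ∞` in the union forces `m → ∞` (as in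
`Pool.Agent.H87S.main`, copy the structure of that proof).
-/

namespace Pool.Agent.H87T

open Finset Filter Topology Pool.Agent.H87S

/-- the logarithmic sizes of the windows -/
private theorem Main2_ratio (y0 x1 : ℕ → ℕ) (hy : ∀ j, 2 ≤ y0 j)
    (hv : ∀ j, y0 j ^ ((j + 1) ^ 2) ≤ x1 j) :
    Tendsto (fun j : ℕ => Real.log ((y0 j ^ (j + 1) : ℕ) : ℝ) / Real.log (x1 j)) atTop (𝓝 0) := by
  have hlim : Tendsto (fun j : ℕ => 1 / ((j : ℝ) + 1)) atTop (𝓝 0) :=
    tendsto_one_div_add_atTop_nhds_zero_nat (𝕜 := ℝ)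
  refine squeeze_zero (fun j => ?_) (fun j => ?_) hlim
  · exact div_nonneg (Real.log_natCast_nonneg _) (Real.log_natCast_nonneg _)
  · have hyj : (2 : ℝ) ≤ y0 j := by exact_mod_cast hy j
    have hL : 0 < Real.log (y0 j) := Real.log_pos (by linarith)
    have hj0 : (0 : ℝ) ≤ j := Nat.cast_nonneg j
    have h4 : Real.log ((y0 j ^ (j + 1) : ℕ) : ℝ) = ((j : ℝ) + 1) * Real.log (y0 j) := by
      push_cast
      rw [Real.log_pow]
      push_cast
      ring
    have h5 : ((j : ℝ) + 1) ^ 2 * Real.log (y0 j) ≤ Real.log (x1 j) := by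
      have h6 : (0 : ℝ) < (y0 j : ℝ) ^ ((j + 1) ^ 2) := by positivity
      have h7 : (y0 j : ℝ) ^ ((j + 1) ^ 2) ≤ x1 j := by exact_mod_cast hv j
      have := Real.log_le_log h6 h7
      rw [Real.log_pow] at this
      push_cast at this
      exact this
    have h6 : 0 < ((j : ℝ) + 1) ^ 2 * Real.log (y0 j) := by positivity
    rw [div_le_iff₀ (h6.trans_le h5), h4]
    have h7 : 1 / ((j : ℝ) + 1) * (((j : ℝ) + 1) ^ 2 * Real.log (y0 j)) ≤
        1 / ((j : ℝ) + 1) * Real.log (x1 j) :=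
      mul_le_mul_of_nonneg_left h5 (by positivity)
    refine le_trans (le_of_eq ?_) h7
    have h8 : ((j : ℝ) + 1) ≠ 0 := by positivity
    field_simp

/-- The sum over the primes in the window. -/
private theorem Main2_window (f : ℕ → ℂ) (hf : MultD f) {q : ℕ} (χ : DirichletCharacter ℂ q)
    (t : ℝ) {C : ℝ} (hC : ∀ y x : ℕ, 2 ≤ y → y ≤ x →
      ∑ p ∈ pr y x, (1 : ℝ) / p ≤ C * (1 + Real.log (Real.log x / Real.log y)))
    (hC0 : 0 < C) {u v y x B : ℕ} (hB : 2 ≤ B) (hy : 2 ≤ y) (huy : u ≤ y) (hxv : x ≤ v)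
    (hyx : y ^ B ≤ x) (hxy : x < (y + 1) ^ B) {δ η : ℝ} (hη : 0 < η)
    (hw : ∑ p ∈ pr u v, (1 - (zf f χ t p).re) / p ≤ δ)
    (hδ : 2 * δ * (C * (1 + Real.log (2 * B))) ≤ η ^ 2) (hδ0 : 0 ≤ δ) :
    ∑ p ∈ pr y x, ‖1 - zf f χ t p‖ / p ≤ η := by
  have hp : ∀ p ∈ pr y x, (0 : ℝ) < p ∧ 1 ≤ p := by
    intro p hp
    have := (mem_pr.1 hp).2.one_le
    exact ⟨by exact_mod_cast this, this⟩
  have hyx' : y ≤ x := (Nat.le_self_pow (by omega) y).trans hyx
  -- Cauchy-Schwarz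
  have hCS := Finset.sum_mul_sq_le_sq_mul_sq (pr y x)
    (fun p => ‖1 - zf f χ t p‖ / Real.sqrt p) (fun p => 1 / Real.sqrt p)
  have e1 : ∑ p ∈ pr y x, ‖1 - zf f χ t p‖ / Real.sqrt p * (1 / Real.sqrt p) =
      ∑ p ∈ pr y x, ‖1 - zf f χ t p‖ / p := by
    refine sum_congr rfl fun p h => ?_
    rw [div_mul_div_comm, mul_one, Real.mul_self_sqrt (hp p h).1.le]
  have e2 : ∑ p ∈ pr y x, (‖1 - zf f χ t p‖ / Real.sqrt p) ^ 2 ≤ 2 * δ := by
    have h1 : ∀ p ∈ pr y x, (‖1 - zf f χ t p‖ / Real.sqrt p) ^ 2 ≤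
        2 * ((1 - (zf f χ t p).re) / p) := by
      intro p h
      rw [div_pow, Real.sq_sqrt (hp p h).1.le, mul_div_assoc']
      refine div_le_div_of_nonneg_right ?_ (hp p h).1.le
      have h2 : ‖1 - zf f χ t p‖ ^ 2 = 1 - 2 * (zf f χ t p).re + ‖zf f χ t p‖ ^ 2 := by
        rw [← Complex.normSq_eq_norm_sq, ← Complex.normSq_eq_norm_sq, Complex.normSq_sub]
        simp
        ring
      have h3 := zf_norm_le hf χ t p (hp p h).2
      have h4 : ‖zf f χ t p‖ ^ 2 ≤ 1 := pow_le_one₀ (norm_nonneg _) h3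
      rw [h2]
      linarith
    calc _ ≤ ∑ p ∈ pr y x, 2 * ((1 - (zf f χ t p).re) / p) := sum_le_sum h1
      _ = 2 * ∑ p ∈ pr y x, (1 - (zf f χ t p).re) / p := by rw [mul_sum]
      _ ≤ 2 * ∑ p ∈ pr u v, (1 - (zf f χ t p).re) / p := by
          refine mul_le_mul_of_nonneg_left ?_ (by norm_num)
          refine sum_le_sum_of_subset_of_nonneg ?_ ?_
          · intro p h
            rw [mem_pr] at h ⊢
            exact ⟨⟨lt_of_le_of_lt huy h.1.1, h.1.2.trans hxv⟩, h.2⟩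
          · intro p h _
            exact div_nonneg (zf_re_le hf χ t p (mem_pr.1 h).2.one_le) (Nat.cast_nonneg p)
      _ ≤ 2 * δ := by linarith
  have hlog : Real.log (Real.log x / Real.log y) ≤ Real.log (2 * B) := by
    have hy0 : (0 : ℝ) < y := by exact_mod_cast (by omega : 0 < y)
    have hy2 : (2 : ℝ) ≤ y := by exact_mod_cast hy
    have hly : 0 < Real.log y := Real.log_pos (by linarith)
    have hx0 : (0 : ℝ) < x := lt_of_lt_of_le hy0 (by exact_mod_cast hyx')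
    have hlx : 0 < Real.log x := Real.log_pos (by
      have : (y : ℝ) ≤ x := by exact_mod_cast hyx'
      linarith)
    refine Real.log_le_log (by positivity) ?_
    rw [div_le_iff₀ hly]
    have h1 : Real.log x ≤ B * Real.log ((y : ℝ) + 1) := by
      have h2 : (x : ℝ) ≤ ((y : ℝ) + 1) ^ B := by exact_mod_cast hxy.le
      have h3 := Real.log_le_log hx0 h2
      rwa [Real.log_pow] at h3
    have h2 : Real.log ((y : ℝ) + 1) ≤ 2 * Real.log y := by
      have h3 : (y : ℝ) + 1 ≤ (y : ℝ) ^ 2 := by nlinarith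
      have h4 := Real.log_le_log (by linarith) h3
      rw [Real.log_pow] at h4
      exact_mod_cast h4
    have h3 : (B : ℝ) * Real.log ((y : ℝ) + 1) ≤ B * (2 * Real.log y) :=
      mul_le_mul_of_nonneg_left h2 (Nat.cast_nonneg B)
    linarith
  have e3 : ∑ p ∈ pr y x, (1 / Real.sqrt p) ^ 2 ≤ C * (1 + Real.log (2 * B)) := by
    have h1 : ∀ p ∈ pr y x, (1 / Real.sqrt p) ^ 2 = (1 : ℝ) / p := by
      intro p h
      rw [div_pow, one_pow, Real.sq_sqrt (hp p h).1.le]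
    rw [sum_congr rfl h1]
    refine (hC y x hy hyx').trans ?_
    exact mul_le_mul_of_nonneg_left (by linarith) hC0.le
  rw [e1] at hCS
  have h0 : 0 ≤ ∑ p ∈ pr y x, (1 / Real.sqrt p) ^ 2 := sum_nonneg fun p _ => sq_nonneg _
  have h1 : (∑ p ∈ pr y x, ‖1 - zf f χ t p‖ / p) ^ 2 ≤ η ^ 2 :=
    hCS.trans ((mul_le_mul e2 e3 h0 (by linarith)).trans hδ)
  exact le_of_sq_le_sq h1 hη.le

theorem main2 (f : ℕ → ℂ) (hf : MultD f) (h : ArchPret f) :
    ∃ X : Set ℕ, upperLogDensity X = 1 ∧ ∀ a : ℕ → ℂ, Deterministic a →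
      Tendsto (fun x : ℕ => (∑ n ∈ Icc 1 x, f n * a n) / x) (atTop ⊓ 𝓟 X) (𝓝 0) := by
  obtain ⟨K, hK⟩ := pigeon f hf h
  obtain ⟨Y, hY⟩ := finitary2 K
  have hW' := fun j : ℕ => hK Y (j + 1) (by omega)
  choose q χ t y0 x1 hq hqy hYy hy2 hyx hxt hty hwin using hW'
  have hj0 : ∀ j : ℕ, (0 : ℝ) ≤ j := fun j => Nat.cast_nonneg j
  have hlohi : ∀ j, y0 j ^ (j + 1) ≤ x1 j := by
    intro j
    refine le_trans (Nat.pow_le_pow_right (by have := hy2 j; omega) ?_) (hyx j)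
    exact Nat.le_self_pow (by norm_num) _
  have hvj : ∀ j, j ≤ x1 j := by
    intro j
    have h1 : j < 2 ^ j := Nat.lt_two_pow_self
    have h2 : 2 ^ j ≤ 2 ^ (j + 1) := Nat.pow_le_pow_right (by norm_num) (by omega)
    have h3 : 2 ^ (j + 1) ≤ y0 j ^ (j + 1) := Nat.pow_le_pow_left (hy2 j) _
    have h4 := hlohi j
    omega
  refine ⟨⋃ j, Set.Icc (y0 j ^ (j + 1)) (x1 j), ?_, ?_⟩
  · refine upperLogDensity_union _ _ (fun j => ?_) hlohi ?_ (Main2_ratio y0 x1 hy2 hyx)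
    · exact Nat.one_le_pow _ _ (by have := hy2 j; omega)
    · exact tendsto_atTop_mono hvj tendsto_id
  · intro a ha
    rw [Metric.tendsto_nhds]
    intro ε hε
    obtain ⟨B, m0, η, hB, hη, hfin⟩ := hY a ha (ε / 2) (by linarith)
    obtain ⟨C, hC0, hC⟩ := mertens_diff
    obtain ⟨J, hJ⟩ := exists_nat_ge
      (max (max (B : ℝ) m0) (2 * (C * (1 + Real.log (2 * B))) / η ^ 2))
    have hJ1 : (B : ℝ) ≤ J := ((le_max_left _ _).trans (le_max_left _ _)).trans hJ
    have hJ2 : (m0 : ℝ) ≤ J := ((le_max_right _ _).trans (le_max_left _ _)).trans hJ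
    have hJ4 : 2 * (C * (1 + Real.log (2 * B))) / η ^ 2 ≤ J := (le_max_right _ _).trans hJ
    rw [eventually_inf_principal]
    filter_upwards [eventually_gt_atTop (∑ j ∈ range J, x1 j)] with x hx hxX
    obtain ⟨j, hj1, hj2⟩ := Set.mem_iUnion.1 hxX
    have hjJ : J ≤ j := by
      by_contra hlt
      push Not at hlt
      have := single_le_sum (f := x1) (fun _ _ => Nat.zero_le _) (mem_range.2 hlt)
      omega
    have hjJ' : (J : ℝ) ≤ j := by exact_mod_cast hjJ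
    have hsq : (j : ℝ) ≤ ((j : ℝ) + 1) ^ 2 := by nlinarith [hj0 j]
    have hBj : B ≤ j + 1 := by
      have h1 : (B : ℝ) ≤ j := hJ1.trans hjJ'
      have h2 : B ≤ j := by exact_mod_cast h1
      omega
    have hmj : m0 ≤ j + 1 := by
      have h1 : (m0 : ℝ) ≤ j := hJ2.trans hjJ'
      have h2 : m0 ≤ j := by exact_mod_cast h1
      omega
    -- the number `y`
    have hx1 : 1 ≤ x := by
      have h1 : 1 ≤ y0 j ^ (j + 1) := Nat.one_le_pow _ _ (by have := hy2 j; omega)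
      exact h1.trans hj1
    obtain ⟨y, hy1, hyB⟩ : ∃ y : ℕ, y ^ B ≤ x ∧ x < (y + 1) ^ B := by
      classical
      refine ⟨Nat.findGreatest (fun y => y ^ B ≤ x) x, ?_, ?_⟩
      · exact Nat.findGreatest_spec (P := fun y => y ^ B ≤ x) (Nat.zero_le x)
          (by rw [zero_pow (by omega)]; exact Nat.zero_le x)
      · by_contra hcon
        push Not at hcon
        have h1 : Nat.findGreatest (fun y => y ^ B ≤ x) x + 1 ≤ x :=
          (Nat.le_self_pow (by omega) _).trans hcon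
        exact Nat.findGreatest_is_greatest (P := fun y => y ^ B ≤ x) (Nat.lt_succ_self _) h1 hcon
    have hyy : y0 j ≤ y := by
      have h2 : y0 j ^ B ≤ x :=
        (Nat.pow_le_pow_right (by have := hy2 j; omega) hBj).trans hj1
      have h3 : y0 j ^ B < (y + 1) ^ B := lt_of_le_of_lt h2 hyB
      have h4 := lt_of_pow_lt_pow_left₀ B (Nat.zero_le _) h3
      omega
    have hy2' : 2 ≤ y := (hy2 j).trans hyy
    have hyyR : (y0 j : ℝ) ≤ y := by exact_mod_cast hyy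
    have hxt' : (x : ℝ) ^ B ≤ |t j| := by
      have h1 : (x : ℝ) ≤ x1 j := by exact_mod_cast hj2
      have h2 : (1 : ℝ) ≤ x := by exact_mod_cast hx1
      calc (x : ℝ) ^ B ≤ (x : ℝ) ^ (j + 1) := pow_le_pow_right₀ h2 hBj
        _ ≤ (x1 j : ℝ) ^ (j + 1) := pow_le_pow_left₀ (by linarith) h1 _
        _ ≤ |t j| := hxt j
    have hty' : |t j| ≤ (y : ℝ) ^ (K (j + 1)) :=
      (hty j).trans (pow_le_pow_left₀ (Nat.cast_nonneg _) hyyR _)
    have hb : (((j + 1 : ℕ)) : ℝ) ^ 2 = ((j : ℝ) + 1) ^ 2 := by push_cast; ring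
    have hbp : (0 : ℝ) < ((j : ℝ) + 1) ^ 2 := by nlinarith [hj0 j]
    have hs1 : ∑ p ∈ pr y x, ‖1 - zf f (χ j) (t j) p‖ / p ≤ η := by
      refine Main2_window f hf (χ j) (t j) hC hC0 hB hy2' hyy hj2 hy1 hyB hη (hwin j) ?_
        (by positivity)
      rw [hb]
      have h1 : 2 * (C * (1 + Real.log (2 * B))) ≤ ((j : ℝ) + 1) ^ 2 * η ^ 2 := by
        have h2 : 2 * (C * (1 + Real.log (2 * B))) / η ^ 2 ≤ ((j : ℝ) + 1) ^ 2 := by linarith
        rwa [div_le_iff₀ (by positivity)] at h2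
      have h2 : 2 * (1 / ((j : ℝ) + 1) ^ 2) * (C * (1 + Real.log (2 * B))) =
          2 * (C * (1 + Real.log (2 * B))) / ((j : ℝ) + 1) ^ 2 := by ring
      rw [h2, div_le_iff₀ hbp]
      linarith
    have hfinal := hfin (j + 1) y x hmj ((hYy j).trans hyy) hy2' hy1 f hf (q j) (χ j) (t j) (hq j)
      ((hqy j).trans hyy) hxt' hty' hs1
    have hx0 : (0 : ℝ) < x := by exact_mod_cast hx1
    rw [dist_zero_right, norm_div, Complex.norm_natCast, div_lt_iff₀ hx0]
    have : ε / 2 * x < ε * x := by nlinarith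
    linarith

end Pool.Agent.H87T
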