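import Pool.Agent.H87T.TaylorPow

/-!
Size of `∑_h e h/(x + h)^K`.

PROOF PLAN.  For `x >= H`, `u = h/x ∈ [0,1]`: `(x+h)^(-K) = x^(-K) (1 + h/x)^(-K)`.  By `taylor_pow` and the
vanishing moments `∑_h e h/(x+h)^K = x^(-K-r) (c r s_r + O(1/x))` with `s_r = ∑ e h h^r ≠ 0`, error
at most `C ∑ |e h| h^(r+1)/x`.  Take `σ` the sign of `c r s_r`, `c1 = |c r s_r|/2`,
`c2 = 2 |c r s_r|`, `x0` large.
-/

namespace Pool.Agent.H87T

open Finset

/-- main asymptotic bound -/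
private lemma PowSum_main (H K r : ℕ) (e : ℕ → ℤ)
    (hm : ∀ m < r, ∑ h ∈ range H, e h * (h : ℤ) ^ m = 0)
    (c : ℕ → ℝ) (C : ℝ)
    (hT : ∀ u : ℝ, 0 ≤ u → u ≤ 1 →
      |((1 + u) ^ K)⁻¹ - ∑ m ∈ range (r + 1), c m * u ^ m| ≤ C * u ^ (r + 1))
    (x : ℝ) (hx1 : 1 ≤ x) (hxH : (H : ℝ) ≤ x) :
    |x ^ (K + r) * ∑ h ∈ range H, (e h : ℝ) / (x + h) ^ K -
      c r * ((∑ h ∈ range H, e h * (h : ℤ) ^ r : ℤ) : ℝ)| ≤
      (C * ∑ h ∈ range H, |(e h : ℝ)| * (h : ℝ) ^ (r + 1)) / x := by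
  have hx0 : 0 < x := by linarith
  have hxne : x ≠ 0 := ne_of_gt hx0
  -- moments over ℝ
  have hmR : ∀ m < r, ∑ h ∈ range H, (e h : ℝ) * (h : ℝ) ^ m = 0 := by
    intro m hmr
    have := hm m hmr
    exact_mod_cast congrArg (fun z : ℤ => (z : ℝ)) this
  have hsum : ∑ h ∈ range H, (e h : ℝ) * ∑ m ∈ range (r + 1), c m * ((h : ℝ) / x) ^ m =
      c r * ((∑ h ∈ range H, e h * (h : ℤ) ^ r : ℤ) : ℝ) / x ^ r := by
    calc ∑ h ∈ range H, (e h : ℝ) * ∑ m ∈ range (r + 1), c m * ((h : ℝ) / x) ^ m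
        = ∑ m ∈ range (r + 1), ∑ h ∈ range H, (e h : ℝ) * (c m * ((h : ℝ) / x) ^ m) := by
          rw [Finset.sum_comm]
          exact Finset.sum_congr rfl (fun h _ => by rw [Finset.mul_sum])
      _ = ∑ m ∈ range (r + 1), c m / x ^ m * ∑ h ∈ range H, (e h : ℝ) * (h : ℝ) ^ m := by
          refine Finset.sum_congr rfl (fun m _ => ?_)
          rw [Finset.mul_sum]
          refine Finset.sum_congr rfl (fun h _ => ?_)
          rw [div_pow]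
          ring
      _ = c r / x ^ r * ∑ h ∈ range H, (e h : ℝ) * (h : ℝ) ^ r := by
          rw [Finset.sum_range_succ]
          rw [Finset.sum_eq_zero (fun m hm' => by
            rw [hmR m (Finset.mem_range.mp hm'), mul_zero]), zero_add]
      _ = c r * ((∑ h ∈ range H, e h * (h : ℤ) ^ r : ℤ) : ℝ) / x ^ r := by
          push_cast
          ring
  have hpt : ∀ h ∈ range H, (e h : ℝ) / (x + h) ^ K =
      (1 / x ^ K) * ((e h : ℝ) * ((1 + (h : ℝ) / x) ^ K)⁻¹) := by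
    intro h _
    have h1 : x + (h : ℝ) = x * (1 + (h : ℝ) / x) := by
      field_simp
    have h2 : (1 + (h : ℝ) / x) ≠ 0 := by positivity
    rw [h1, mul_pow]
    field_simp
  have hS : x ^ (K + r) * ∑ h ∈ range H, (e h : ℝ) / (x + h) ^ K =
      x ^ r * ∑ h ∈ range H, (e h : ℝ) * ((1 + (h : ℝ) / x) ^ K)⁻¹ := by
    rw [Finset.sum_congr rfl hpt, ← Finset.mul_sum, pow_add]
    field_simp
  have hA : c r * ((∑ h ∈ range H, e h * (h : ℤ) ^ r : ℤ) : ℝ) =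
      x ^ r * ∑ h ∈ range H, (e h : ℝ) * ∑ m ∈ range (r + 1), c m * ((h : ℝ) / x) ^ m := by
    rw [hsum]
    field_simp
  rw [hS, hA, ← mul_sub, ← Finset.sum_sub_distrib, abs_mul, abs_of_pos (pow_pos hx0 r)]
  have hE : |∑ h ∈ range H, ((e h : ℝ) * ((1 + (h : ℝ) / x) ^ K)⁻¹ -
      (e h : ℝ) * ∑ m ∈ range (r + 1), c m * ((h : ℝ) / x) ^ m)| ≤
      ∑ h ∈ range H, |(e h : ℝ)| * (C * ((h : ℝ) / x) ^ (r + 1)) := by
    refine (Finset.abs_sum_le_sum_abs _ _).trans (Finset.sum_le_sum (fun h hh => ?_))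
    rw [← mul_sub, abs_mul]
    refine mul_le_mul_of_nonneg_left (hT _ (by positivity) ?_) (abs_nonneg _)
    rw [div_le_one hx0]
    have : (h : ℝ) ≤ H := by exact_mod_cast (Finset.mem_range.mp hh).le
    linarith
  calc x ^ r * |∑ h ∈ range H, ((e h : ℝ) * ((1 + (h : ℝ) / x) ^ K)⁻¹ -
      (e h : ℝ) * ∑ m ∈ range (r + 1), c m * ((h : ℝ) / x) ^ m)|
      ≤ x ^ r * ∑ h ∈ range H, |(e h : ℝ)| * (C * ((h : ℝ) / x) ^ (r + 1)) :=
        mul_le_mul_of_nonneg_left hE (pow_nonneg hx0.le r)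
    _ = (C * ∑ h ∈ range H, |(e h : ℝ)| * (h : ℝ) ^ (r + 1)) / x := by
        rw [Finset.mul_sum, Finset.mul_sum, Finset.sum_div]
        refine Finset.sum_congr rfl (fun h _ => ?_)
        have h3 : x ^ (r + 1) = x ^ r * x := pow_succ x r
        have h4 : x ^ r ≠ 0 := pow_ne_zero r hxne
        rw [div_pow, h3]
        field_simp

theorem pow_sum (H K r : ℕ) (hK : 1 ≤ K) (e : ℕ → ℤ)
    (hr : (∑ h ∈ range H, e h * (h : ℤ) ^ r) ≠ 0)
    (hm : ∀ m < r, ∑ h ∈ range H, e h * (h : ℤ) ^ m = 0) :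
    ∃ σ c1 c2 x0 : ℝ, (σ = 1 ∨ σ = -1) ∧ 0 < c1 ∧ 0 < c2 ∧ 1 ≤ x0 ∧ ∀ x : ℝ, x0 ≤ x →
      c1 / x ^ (K + r) ≤ σ * ∑ h ∈ range H, (e h : ℝ) / (x + h) ^ K ∧
      σ * ∑ h ∈ range H, (e h : ℝ) / (x + h) ^ K ≤ c2 / x ^ (K + r) := by
  obtain ⟨c, C, hcr, hC0, hT⟩ := taylor_pow K r hK
  set A : ℝ := c r * ((∑ h ∈ range H, e h * (h : ℤ) ^ r : ℤ) : ℝ) with hAdef
  have hA0 : A ≠ 0 := mul_ne_zero hcr (by exact_mod_cast hr)
  set D : ℝ := C * ∑ h ∈ range H, |(e h : ℝ)| * (h : ℝ) ^ (r + 1) with hDdef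
  have hD0 : 0 ≤ D := mul_nonneg hC0 (Finset.sum_nonneg (fun h _ => by positivity))
  have hAp : 0 < |A| := abs_pos.mpr hA0
  obtain ⟨σ, hσ, hσA⟩ : ∃ σ : ℝ, (σ = 1 ∨ σ = -1) ∧ σ * A = |A| := by
    rcases le_or_gt 0 A with h | h
    · exact ⟨1, Or.inl rfl, by rw [one_mul, abs_of_nonneg h]⟩
    · exact ⟨-1, Or.inr rfl, by rw [neg_one_mul, abs_of_neg h]⟩
  have hσ1 : |σ| = 1 := by rcases hσ with h | h <;> simp [h]
  refine ⟨σ, |A| / 2, 2 * |A|, max (max 1 (H : ℝ)) (2 * D / |A|), hσ, by positivity,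
    by positivity, le_trans (le_max_left _ _) (le_max_left _ _), fun x hx => ?_⟩
  have hx1 : 1 ≤ x := ((le_max_left _ _).trans (le_max_left _ _)).trans hx
  have hxH : (H : ℝ) ≤ x := ((le_max_right _ _).trans (le_max_left _ _)).trans hx
  have hxD : 2 * D / |A| ≤ x := (le_max_right _ _).trans hx
  have hx0 : 0 < x := by linarith
  have hDx : D / x ≤ |A| / 2 := by
    rw [div_le_iff₀ hAp] at hxD
    rw [div_le_iff₀ hx0]
    linarith
  have hmain := PowSum_main H K r e hm c C hT x hx1 hxH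
  rw [← hAdef, ← hDdef] at hmain
  have hxp : 0 < x ^ (K + r) := pow_pos hx0 _
  set S : ℝ := ∑ h ∈ range H, (e h : ℝ) / (x + h) ^ K with hSdef
  have h1 : abs (x ^ (K + r) * (σ * S) - abs A) ≤ abs A / 2 := by
    have h2 : x ^ (K + r) * (σ * S) - abs A = σ * (x ^ (K + r) * S - A) := by
      rw [← hσA]; ring
    rw [h2, abs_mul, hσ1, one_mul]
    exact hmain.trans hDx
  rw [abs_le] at h1
  constructor
  · rw [div_le_iff₀ hxp]
    nlinarith [h1.1]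
  · rw [le_div_iff₀ hxp]
    nlinarith [h1.2]

end Pool.Agent.H87T
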