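import Pool.Agent.H87T.SelW
import Pool.Agent.H87T.GLow2
import Pool.Agent.H87T.ClsSum

/-!
A majorant for the numbers with a given assignment.

PROOF PLAN.  `P' = {p ∈ P : τ p = none}` (as a `Finset ℕ`), `g p = k/p ∈ (0,1)`, `ρ` from `sel_weights` for `P'`, `R`.
`Λ j = 1[τ-class] (∑_{A ⊆ P', every p ∈ A divides some c i + M j} ρ A)^2`, where the τ-class condition is
`∀ p i, τ p = some i → p ∣ c i + M j`.  If `act j = τ` then it holds and no `p ∈ P'` divides any `c i + M j`,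
so `Λ j = 1`.  Expanding the square, `∑_j Λ j ψ j = ∑_{A,B ⊆ P'} ρ A ρ B S(A ∪ B)`, `S(W)` the sum in
`cls_sum`.  `ψ = 1`: each residue class modulo `r` contains `N/r + O(1)` of the `j < N` (error at most `1`), so
by `cls_sum` (`s = N/r`, `err = 1`)
`∑ Λ <= (N/D) ∑ ρ A ρ B ∏_{A ∪ B} (k/p) + ∑_{∏_A, ∏_B <= R} k^|A ∪ B|`, `D = Dd τ`.  The first part is
`(N/D)/G` with `G V' >= 1 - δ`, `V' = ∏_{P'} (1 - k/p) = D nu τ` (`g_low2`); the second at most
`(∑_{∏_A <= R} ∏_A p)^2 <= R^4` (`k <= p`; distinct `A` have distinct products).  For `ψ`: `cls_sum` with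
`s = 0`, `err = E N/r` (`r = D ∏_{A ∪ B} p <= D R^2` when `ρ A ρ B ≠ 0`):
`E (N/D) ∑_{A,B ⊆ P'} ∏_{A ∪ B} (k/p) = E (N/D) ∏_{P'} (1 + 3k/p)`.
-/

namespace Pool.Agent.H87T

open Finset Pool.Agent.H87S

/-- the free primes -/
private def TauBound_free {P : Finset ℕ} {k : ℕ} (τ : Asg P k) : Finset ℕ :=
  (Finset.univ.filter (fun p : ↥P => τ p = none)).map (Function.Embedding.subtype _)

private theorem TauBound_mem_free {P : Finset ℕ} {k : ℕ} (τ : Asg P k) (p : ℕ) :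
    p ∈ TauBound_free τ ↔ ∃ h : p ∈ P, τ ⟨p, h⟩ = none := by
  unfold TauBound_free
  simp

private theorem TauBound_prod_free {P : Finset ℕ} {k : ℕ} (τ : Asg P k) (f : ℕ → ℝ) :
    ∏ p ∈ TauBound_free τ, f p = ∏ p : ↥P, (match τ p with
      | none => f p
      | some _ => 1) := by
  unfold TauBound_free
  rw [Finset.prod_map, Finset.prod_filter]
  refine Finset.prod_congr rfl fun p _ => ?_
  rcases h : τ p with _ | i <;> simp

private theorem TauBound_Dd_pos {P : Finset ℕ} {k : ℕ} (hP : ∀ p ∈ P, p.Prime) (τ : Asg P k) :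
    1 ≤ Dd τ := by
  unfold Dd
  refine Nat.one_le_iff_ne_zero.2 (Finset.prod_ne_zero_iff.2 fun p _ => ?_)
  rcases h : τ p with _ | i
  · simp
  · simpa using (hP p p.2).ne_zero

private theorem TauBound_nu {P : Finset ℕ} {k : ℕ} (hP : ∀ p ∈ P, p.Prime) (τ : Asg P k) :
    ∏ p ∈ TauBound_free τ, (1 - (k : ℝ) / p) = nu τ * Dd τ := by
  rw [TauBound_prod_free τ (fun p => 1 - (k : ℝ) / p)]
  unfold nu Dd
  push_cast
  rw [← Finset.prod_mul_distrib]
  refine Finset.prod_congr rfl fun p _ => ?_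
  have hp : ((p : ℕ) : ℝ) ≠ 0 := by exact_mod_cast (hP p p.2).ne_zero
  rcases h : τ p with _ | i
  · simp
  · simp only
    field_simp

private theorem TauBound_union (s : Finset ℕ) (g : ℕ → ℝ) :
    ∑ A ∈ s.powerset, ∑ B ∈ s.powerset, ∏ p ∈ A ∪ B, g p = ∏ p ∈ s, (1 + 3 * g p) := by
  induction s using Finset.induction_on with
  | empty => simp
  | insert a s ha ih =>
    rw [Finset.sum_powerset_insert ha, Finset.prod_insert ha, ← ih]
    have key : ∀ A ∈ s.powerset, ∀ B ∈ s.powerset,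
        ∏ p ∈ insert a (A ∪ B), g p = g a * ∏ p ∈ A ∪ B, g p := by
      intro A hA B hB
      rw [Finset.prod_insert]
      intro h
      rcases Finset.mem_union.1 h with h | h
      · exact ha (Finset.mem_powerset.1 hA h)
      · exact ha (Finset.mem_powerset.1 hB h)
    have h1 : ∀ A ∈ s.powerset, ∑ B ∈ (insert a s).powerset, ∏ p ∈ A ∪ B, g p =
        (1 + g a) * ∑ B ∈ s.powerset, ∏ p ∈ A ∪ B, g p := by
      intro A hA
      rw [Finset.sum_powerset_insert ha, add_mul, one_mul, Finset.mul_sum]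
      congr 1
      refine Finset.sum_congr rfl fun B hB => ?_
      rw [Finset.union_insert, key A hA B hB]
    have h2 : ∀ A ∈ s.powerset, ∑ B ∈ (insert a s).powerset, ∏ p ∈ insert a A ∪ B, g p =
        (2 * g a) * ∑ B ∈ s.powerset, ∏ p ∈ A ∪ B, g p := by
      intro A hA
      rw [Finset.sum_powerset_insert ha, ← Finset.sum_add_distrib, Finset.mul_sum]
      refine Finset.sum_congr rfl fun B hB => ?_
      rw [Finset.union_insert, Finset.insert_union, Finset.insert_idem, key A hA B hB]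
      ring
    rw [Finset.sum_congr rfl h1, Finset.sum_congr rfl h2, ← Finset.mul_sum, ← Finset.mul_sum]
    ring

private theorem TauBound_prod_inj {s A B : Finset ℕ} (hs : ∀ p ∈ s, p.Prime) (hA : A ⊆ s)
    (hB : B ⊆ s) (h : ∏ p ∈ A, p = ∏ p ∈ B, p) : A = B := by
  have key : ∀ A' B' : Finset ℕ, A' ⊆ s → B' ⊆ s → ∏ p ∈ A', p = ∏ p ∈ B', p → A' ⊆ B' := by
    intro A' B' hA' hB' h' p hp
    have h1 : p ∣ ∏ q ∈ B', q := h' ▸ Finset.dvd_prod_of_mem (fun q => q) hp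
    obtain ⟨q, hq, hpq⟩ := ((hs p (hA' hp)).prime.dvd_finsetProd_iff _).1 h1
    rwa [(Nat.prime_dvd_prime_iff_eq (hs p (hA' hp)) (hs q (hB' hq))).1 hpq]
  exact Finset.Subset.antisymm (key A B hA hB h) (key B A hB hA h.symm)

private theorem TauBound_count (N r b : ℕ) (hr : 1 ≤ r) (hb : b < r) :
    ‖∑ j ∈ (range N).filter (fun j => j % r = b), (1 : ℂ) - ((N : ℝ) / r : ℝ)‖ ≤ 1 := by
  have h0 : (0 : ℝ) < r := by exact_mod_cast hr
  have h1 : ((range N).filter (fun j => j % r = b)).card = N / r + if b % r < N % r then 1 else 0 := by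
    rw [← Nat.count_modEq_card N hr b, Nat.count_eq_card_filter_range]
    congr 1
    ext j
    simp only [Finset.mem_filter, Nat.ModEq, Nat.mod_eq_of_lt hb]
  have h2 : (N : ℝ) / r = ((N / r : ℕ) : ℝ) + ((N % r : ℕ) : ℝ) / r := by
    have h3 : (N : ℝ) = ((r * (N / r) + N % r : ℕ) : ℝ) := by rw [Nat.div_add_mod]
    rw [h3]
    push_cast
    rw [add_div, mul_div_cancel_left₀ _ h0.ne']
  have h3 : (0 : ℝ) ≤ ((N % r : ℕ) : ℝ) / r := by positivity
  have h4 : ((N % r : ℕ) : ℝ) / r ≤ 1 := by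
    rw [div_le_one h0]
    exact_mod_cast (Nat.mod_lt N hr).le
  have h6 : (if b % r < N % r then 1 else 0 : ℕ) ≤ 1 := by split_ifs <;> omega
  rw [Finset.sum_const, h1, nsmul_eq_mul, mul_one, h2]
  generalize (if b % r < N % r then 1 else 0 : ℕ) = e at h6
  have h7 : (e : ℝ) ≤ 1 := by exact_mod_cast h6
  have h8 : (0 : ℝ) ≤ e := Nat.cast_nonneg e
  have h5 : ((N / r + e : ℕ) : ℂ) -
      (((N / r : ℕ) : ℝ) + ((N % r : ℕ) : ℝ) / r : ℝ) =
      (((e : ℝ) - ((N % r : ℕ) : ℝ) / r : ℝ) : ℂ) := by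
    push_cast
    ring
  rw [h5, Complex.norm_real, Real.norm_eq_abs, abs_le]
  constructor <;> linarith

open Classical in
private noncomputable def TauBound_Lam (s : Finset ℕ) (cond : ℕ → Prop) (cw : ℕ → ℕ → Prop)
    (ρ : Finset ℕ → ℝ) (j : ℕ) : ℝ :=
  if cond j then (∑ A ∈ s.powerset, if ∀ p ∈ A, cw p j then ρ A else 0) ^ 2 else 0

open Classical in
private noncomputable def TauBound_S (N : ℕ) (cond : ℕ → Prop) (cw : ℕ → ℕ → Prop)
    (W : Finset ℕ) (ψ : ℕ → ℂ) : ℂ :=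
  ∑ j ∈ (range N).filter (fun j => cond j ∧ ∀ p ∈ W, cw p j), ψ j

private theorem TauBound_Lam_nonneg (s : Finset ℕ) (cond : ℕ → Prop) (cw : ℕ → ℕ → Prop)
    (ρ : Finset ℕ → ℝ) (j : ℕ) : 0 ≤ TauBound_Lam s cond cw ρ j := by
  unfold TauBound_Lam
  split_ifs
  · positivity
  · exact le_rfl

private theorem TauBound_Lam_one (s : Finset ℕ) (cond : ℕ → Prop) (cw : ℕ → ℕ → Prop)
    (ρ : Finset ℕ → ℝ) (hρ : ρ ∅ = 1) (j : ℕ) (h1 : cond j) (h2 : ∀ p ∈ s, ¬ cw p j) :
    1 ≤ TauBound_Lam s cond cw ρ j := by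
  classical
  unfold TauBound_Lam
  rw [if_pos h1, Finset.sum_eq_single ∅]
  · simp [hρ]
  · intro A hA' hne
    obtain ⟨p, hp⟩ := Finset.nonempty_iff_ne_empty.2 hne
    rw [if_neg]
    intro h
    exact h2 p (Finset.mem_powerset.1 hA' hp) (h p hp)
  · intro h
    exact absurd (Finset.empty_mem_powerset s) h

private theorem TauBound_expand {s : Finset ℕ} (N : ℕ) (cond : ℕ → Prop) (cw : ℕ → ℕ → Prop)
    (ρ : Finset ℕ → ℝ) (ψ : ℕ → ℂ) :
    ∑ j ∈ range N, (TauBound_Lam s cond cw ρ j : ℂ) * ψ j =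
    ∑ A ∈ s.powerset, ∑ B ∈ s.powerset, ((ρ A * ρ B : ℝ) : ℂ) *
      TauBound_S N cond cw (A ∪ B) ψ := by
  classical
  unfold TauBound_Lam TauBound_S
  have h1 : ∀ A ∈ s.powerset, ∀ B ∈ s.powerset, ((ρ A * ρ B : ℝ) : ℂ) *
      ∑ j ∈ (range N).filter (fun j => cond j ∧ ∀ p ∈ A ∪ B, cw p j), ψ j =
      ∑ j ∈ range N, ((ρ A * ρ B : ℝ) : ℂ) * (if cond j ∧ ∀ p ∈ A ∪ B, cw p j then ψ j else 0) := by
    intro A _ B _
    rw [Finset.sum_filter, Finset.mul_sum]
  rw [Finset.sum_congr rfl fun A hA => Finset.sum_congr rfl (h1 A hA)]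
  have h2 : ∀ A ∈ s.powerset, ∑ B ∈ s.powerset, ∑ j ∈ range N, ((ρ A * ρ B : ℝ) : ℂ) *
      (if cond j ∧ ∀ p ∈ A ∪ B, cw p j then ψ j else 0) = ∑ j ∈ range N, ∑ B ∈ s.powerset,
      ((ρ A * ρ B : ℝ) : ℂ) * (if cond j ∧ ∀ p ∈ A ∪ B, cw p j then ψ j else 0) :=
    fun A _ => Finset.sum_comm
  rw [Finset.sum_congr rfl h2, Finset.sum_comm]
  refine Finset.sum_congr rfl fun j _ => ?_
  by_cases hc : cond j
  · rw [if_pos hc, sq, Finset.sum_mul_sum]
    push_cast
    rw [Finset.sum_mul]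
    refine Finset.sum_congr rfl fun A _ => ?_
    rw [Finset.sum_mul]
    refine Finset.sum_congr rfl fun B _ => ?_
    by_cases h3 : ∀ p ∈ A, cw p j
    · by_cases h4 : ∀ p ∈ B, cw p j
      · have h5 : cond j ∧ ∀ p ∈ A ∪ B, cw p j := ⟨hc, fun p hp =>
          (Finset.mem_union.1 hp).elim (h3 p) (h4 p)⟩
        rw [if_pos h3, if_pos h4, if_pos h5]
      · have h5 : ¬ (cond j ∧ ∀ p ∈ A ∪ B, cw p j) := fun h => h4 fun p hp =>
          h.2 p (Finset.mem_union_right _ hp)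
        rw [if_neg h4, if_neg h5]
        simp
    · have h5 : ¬ (cond j ∧ ∀ p ∈ A ∪ B, cw p j) := fun h => h3 fun p hp =>
        h.2 p (Finset.mem_union_left _ hp)
      rw [if_neg h3, if_neg h5]
      simp
  · rw [if_neg hc]
    have : ∀ A ∈ s.powerset, ∑ B ∈ s.powerset, ((ρ A * ρ B : ℝ) : ℂ) *
        (if cond j ∧ ∀ p ∈ A ∪ B, cw p j then ψ j else 0) = 0 := by
      intro A _
      refine Finset.sum_eq_zero fun B _ => ?_
      rw [if_neg fun h => hc h.1, mul_zero]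
    rw [Finset.sum_eq_zero this]
    simp

theorem tau_bound {P : Finset ℕ} {k M : ℕ} {c : Fin k → ℕ} (hk : 1 ≤ k) (hA : Adm P k M c)
    (τ : Asg P k) (N R : ℕ) (hR : 2 ≤ R) (ψ : ℕ → ℂ) (E δ : ℝ) (hE : 0 ≤ E) (hδ1 : δ < 1)
    (hδ : (k : ℝ) * ∑ p ∈ P, Real.log p / p ≤ δ * Real.log R)
    (hψ : ∀ r b : ℕ, 1 ≤ r → r ≤ Dd τ * R ^ 2 →
      ‖∑ j ∈ (range N).filter (fun j => j % r = b), ψ j‖ ≤ E * ((N : ℝ) / r)) :
    ∃ Λ : ℕ → ℝ, (∀ j, 0 ≤ Λ j) ∧ (∀ j, act P k c M j = τ → 1 ≤ Λ j) ∧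
      ∑ j ∈ range N, Λ j ≤ N * nu τ / (1 - δ) + (R : ℝ) ^ 4 ∧
      ‖∑ j ∈ range N, (Λ j : ℂ) * ψ j‖ ≤
        E * N / Dd τ * ∏ p ∈ P, (1 + 3 * (k : ℝ) / p) := by
  classical
  set s : Finset ℕ := TauBound_free τ with hs
  have hsP : s ⊆ P := fun p hp => ((TauBound_mem_free τ p).1 hp).1
  have hsprime : ∀ p ∈ s, p.Prime := fun p hp => hA.prime p (hsP hp)
  set g : ℕ → ℝ := fun p => (k : ℝ) / p with hg
  have hk' : (0 : ℝ) < k := by exact_mod_cast hk
  have hg01 : ∀ p ∈ s, 0 < g p ∧ g p < 1 := by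
    intro p hp
    have h1 : (k : ℝ) < p := by exact_mod_cast hA.lt p (hsP hp)
    have h2 : (0 : ℝ) < p := hk'.trans h1
    exact ⟨div_pos hk' h2, (div_lt_one h2).2 h1⟩
  have hs1 : ∀ p ∈ s, 1 ≤ p := fun p hp => (hsprime p hp).one_lt.le
  obtain ⟨ρ, hρ0, hρ1, hρR, hQ⟩ := sel_weights s hs1 g hg01 R (by omega)
  have hlow := g_low2 s hs1 g hg01 R hR
  set G : ℝ := ∑ A ∈ s.powerset.filter (fun A => ∏ p ∈ A, p ≤ R), ∏ p ∈ A, (g p / (1 - g p))
    with hG
  set QF : ℝ := ∑ A ∈ s.powerset, ∑ B ∈ s.powerset, ρ A * ρ B * ∏ p ∈ A ∪ B, g p with hQF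
  have hD1 : 1 ≤ Dd τ := TauBound_Dd_pos hA.prime τ
  have hD0 : (0 : ℝ) < Dd τ := by exact_mod_cast hD1
  set V : ℝ := ∏ p ∈ s, (1 - g p) with hV
  have hVpos : 0 < V := Finset.prod_pos fun p hp => by linarith [(hg01 p hp).2]
  have hVnu : V = nu τ * Dd τ := TauBound_nu hA.prime τ
  have hlogR : 0 < Real.log R := Real.log_pos (by exact_mod_cast hR)
  have hVG : 1 - δ ≤ V * G := by
    refine le_trans ?_ hlow
    have h1 : ∑ p ∈ s, g p * Real.log p ≤ δ * Real.log R := by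
      refine le_trans ?_ hδ
      rw [Finset.mul_sum]
      refine le_trans (Finset.sum_le_sum_of_subset_of_nonneg hsP ?_) ?_
      · intro p hp _
        have : 0 ≤ Real.log p := Real.log_natCast_nonneg p
        positivity
      · refine Finset.sum_le_sum fun p _ => le_of_eq ?_
        simp only [hg]; ring
    have h2 : (∑ p ∈ s, g p * Real.log p) / Real.log R ≤ δ := by
      rwa [div_le_iff₀ hlogR]
    linarith
  have hGpos : 0 < G := by
    by_contra h
    have : V * G ≤ 0 := mul_nonpos_of_nonneg_of_nonpos hVpos.le (not_lt.1 h)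
    linarith
  have hQle : QF ≤ V / (1 - δ) := by
    rw [le_div_iff₀ (by linarith)]
    have h1 : QF = 1 / G := by
      rw [eq_div_iff hGpos.ne']; exact hQ
    rw [h1, one_div, inv_mul_le_iff₀ hGpos]
    linarith [hVG, mul_comm G V]
  set cond : ℕ → Prop := fun j => ∀ (p : ↥P) (i : Fin k), τ p = some i → (p : ℕ) ∣ c i + M * j
    with hcond
  set cw : ℕ → ℕ → Prop := fun p j => ∃ i : Fin k, p ∣ c i + M * j with hcw
  -- the expansion
  have hexp : ∀ ψ : ℕ → ℂ, ∑ j ∈ range N, (TauBound_Lam s cond cw ρ j : ℂ) * ψ j =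
      ∑ A ∈ s.powerset, ∑ B ∈ s.powerset, ((ρ A * ρ B : ℝ) : ℂ) *
      TauBound_S N cond cw (A ∪ B) ψ :=
    fun ψ => TauBound_expand N cond cw ρ ψ
  have hWs : ∀ A ∈ s.powerset, ∀ B ∈ s.powerset, A ∪ B ⊆ s := fun A hA' B hB' =>
    Finset.union_subset (Finset.mem_powerset.1 hA') (Finset.mem_powerset.1 hB')
  have hprodpos : ∀ W ⊆ s, 1 ≤ ∏ p ∈ W, p := fun W hW =>
    Nat.one_le_iff_ne_zero.2 (Finset.prod_ne_zero_iff.2 fun p hp => (hsprime p (hW hp)).ne_zero)
  have hcls : ∀ W ⊆ s, ∀ (ψ : ℕ → ℂ) (t : ℂ) (err : ℝ),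
      (∀ b : ℕ, b < Dd τ * ∏ p ∈ W, p →
        ‖∑ j ∈ (range N).filter (fun j => j % (Dd τ * ∏ p ∈ W, p) = b), ψ j - t‖ ≤ err) →
      ‖TauBound_S N cond cw W ψ - (k : ℂ) ^ W.card * t‖ ≤ (k : ℝ) ^ W.card * err := by
    intro W hW ψ t err h
    have h0 := cls_sum hA τ W (hW.trans hsP) (fun p hp => by
      obtain ⟨_, h2⟩ := (TauBound_mem_free τ p).1 (hW hp)
      exact h2) ψ N t err h
    refine le_trans (le_of_eq ?_) h0
    refine congrArg (fun z => ‖z - (k : ℂ) ^ W.card * t‖) ?_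
    unfold TauBound_S
    refine Finset.sum_congr ?_ fun _ _ => rfl
    ext j
    simp only [Finset.mem_filter, hcond, hcw]
  have hprodk : ∀ W ⊆ s, (k : ℝ) ^ W.card / ((∏ p ∈ W, p : ℕ) : ℝ) = ∏ p ∈ W, g p := by
    intro W hW
    simp only [hg]
    rw [Finset.prod_div_distrib, Finset.prod_const]
    push_cast
    rfl
  have hunion : ∀ A ∈ s.powerset, ∀ B ∈ s.powerset,
      ∏ p ∈ A ∪ B, p ≤ (∏ p ∈ A, p) * ∏ p ∈ B, p := by
    intro A hA' B hB'
    rw [← Finset.prod_union_inter]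
    exact Nat.le_mul_of_pos_right _ (hprodpos _ (Finset.inter_subset_left.trans
      (Finset.mem_powerset.1 hA')))
  refine ⟨TauBound_Lam s cond cw ρ, fun j => TauBound_Lam_nonneg _ _ _ _ _, ?_, ?_, ?_⟩
  · intro j hj
    have h1 : cond j := by
      intro p i hi
      rw [← hj] at hi
      unfold act at hi
      split_ifs at hi with h
      rw [Option.some_inj] at hi
      rw [← hi]
      exact h.choose_spec
    have h2 : ∀ p ∈ s, ¬ cw p j := by
      intro p hp h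
      obtain ⟨h3, h4⟩ := (TauBound_mem_free τ p).1 hp
      rw [← hj] at h4
      unfold act at h4
      rw [dif_pos h] at h4
      simp at h4
    exact TauBound_Lam_one s cond cw ρ hρ0 j h1 h2
  · have hX : ((∑ j ∈ range N, TauBound_Lam s cond cw ρ j : ℝ) : ℂ) =
        ∑ A ∈ s.powerset, ∑ B ∈ s.powerset, ((ρ A * ρ B : ℝ) : ℂ) *
          TauBound_S N cond cw (A ∪ B) fun _ => 1 := by
      rw [← hexp, Complex.ofReal_sum]
      exact Finset.sum_congr rfl fun j _ => (mul_one _).symm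
    have hY : (((N : ℝ) / Dd τ * QF : ℝ) : ℂ) =
        ∑ A ∈ s.powerset, ∑ B ∈ s.powerset, ((ρ A * ρ B : ℝ) : ℂ) *
          ((k : ℂ) ^ (A ∪ B).card *
            (((N : ℝ) / ((Dd τ * ∏ p ∈ A ∪ B, p : ℕ) : ℝ) : ℝ) : ℂ)) := by
      rw [hQF, Finset.mul_sum, Complex.ofReal_sum]
      refine Finset.sum_congr rfl fun A hA' => ?_
      rw [Finset.mul_sum, Complex.ofReal_sum]
      refine Finset.sum_congr rfl fun B hB' => ?_
      rw [← hprodk _ (hWs A hA' B hB')]
      have h1 : (((k : ℂ) ^ (A ∪ B).card) : ℂ) = (((k : ℝ) ^ (A ∪ B).card : ℝ) : ℂ) := by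
        push_cast; rfl
      rw [h1, ← Complex.ofReal_mul, ← Complex.ofReal_mul]
      congr 1
      have h2 : ((∏ p ∈ A ∪ B, p : ℕ) : ℝ) ≠ 0 := by
        have := hprodpos _ (hWs A hA' B hB')
        exact_mod_cast (by omega : (∏ p ∈ A ∪ B, p : ℕ) ≠ 0)
      rw [Nat.cast_mul]
      field_simp
    have hdiff : ‖((∑ j ∈ range N, TauBound_Lam s cond cw ρ j : ℝ) : ℂ) -
        (((N : ℝ) / Dd τ * QF : ℝ) : ℂ)‖ ≤ (R : ℝ) ^ 4 := by
      rw [hX, hY, ← Finset.sum_sub_distrib]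
      have hterm : ∀ A ∈ s.powerset, ∀ B ∈ s.powerset,
          ‖((ρ A * ρ B : ℝ) : ℂ) * TauBound_S N cond cw (A ∪ B) (fun _ => 1) -
            ((ρ A * ρ B : ℝ) : ℂ) * ((k : ℂ) ^ (A ∪ B).card *
            (((N : ℝ) / ((Dd τ * ∏ p ∈ A ∪ B, p : ℕ) : ℝ) : ℝ) : ℂ))‖ ≤
          (if ∏ p ∈ A, p ≤ R then (R : ℝ) else 0) * (if ∏ p ∈ B, p ≤ R then (R : ℝ) else 0) := by
        intro A hA' B hB'
        have hAs := Finset.mem_powerset.1 hA'
        have hBs := Finset.mem_powerset.1 hB'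
        rw [← mul_sub, norm_mul, Complex.norm_real, Real.norm_eq_abs, abs_mul]
        by_cases hAR : ∏ p ∈ A, p ≤ R
        · by_cases hBR : ∏ p ∈ B, p ≤ R
          · rw [if_pos hAR, if_pos hBR]
            have h1 := hcls (A ∪ B) (hWs A hA' B hB') (fun _ => 1)
              (((N : ℝ) / ((Dd τ * ∏ p ∈ A ∪ B, p : ℕ) : ℝ) : ℝ) : ℂ) 1
              (fun b hb => TauBound_count N _ b (by omega) hb)
            have hkp : ∀ C ⊆ s, (k : ℝ) ^ C.card ≤ ((∏ p ∈ C, p : ℕ) : ℝ) := by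
              intro C hC
              have : k ^ C.card ≤ ∏ p ∈ C, p :=
                Finset.pow_card_le_prod _ _ _ fun p hp => (hA.lt p (hsP (hC hp))).le
              exact_mod_cast this
            have h2 : (k : ℝ) ^ (A ∪ B).card ≤ (R : ℝ) * R := by
              refine (hkp _ (hWs A hA' B hB')).trans ?_
              have h3 := (hunion A hA' B hB').trans (Nat.mul_le_mul hAR hBR)
              exact_mod_cast h3
            rw [mul_one] at h1
            calc |ρ A| * |ρ B| * _ ≤ 1 * 1 * ((R : ℝ) * R) := by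
                  refine mul_le_mul (mul_le_mul (hρ1 A hAs) (hρ1 B hBs) (abs_nonneg _) zero_le_one)
                    (h1.trans h2) (norm_nonneg _) (by norm_num)
              _ = (R : ℝ) * R := by ring
          · rw [hρR B hBs (not_le.1 hBR), if_neg hBR]
            simp
        · rw [hρR A hAs (not_le.1 hAR), if_neg hAR]
          simp
      have hcard : ∑ A ∈ s.powerset, (if ∏ p ∈ A, p ≤ R then (R : ℝ) else 0) ≤ (R : ℝ) * R := by
        rw [← Finset.sum_filter, Finset.sum_const, nsmul_eq_mul]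
        refine mul_le_mul_of_nonneg_right ?_ (Nat.cast_nonneg R)
        have h1 : (s.powerset.filter fun A => ∏ p ∈ A, p ≤ R).card ≤ (Finset.Icc 1 R).card := by
          refine Finset.card_le_card_of_injOn (fun A => ∏ p ∈ A, p) ?_ ?_
          · intro A hA'
            have h2 := Finset.mem_filter.1 (Finset.mem_coe.1 hA')
            exact Finset.mem_coe.2 (Finset.mem_Icc.2
              ⟨hprodpos A (Finset.mem_powerset.1 h2.1), h2.2⟩)
          · intro A hA' B hB' h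
            have h2 := Finset.mem_filter.1 (Finset.mem_coe.1 hA')
            have h3 := Finset.mem_filter.1 (Finset.mem_coe.1 hB')
            exact TauBound_prod_inj hsprime (Finset.mem_powerset.1 h2.1)
              (Finset.mem_powerset.1 h3.1) h
        rw [Nat.card_Icc] at h1
        exact_mod_cast (by omega : (s.powerset.filter fun A => ∏ p ∈ A, p ≤ R).card ≤ R)
      have hnn : 0 ≤ ∑ A ∈ s.powerset, (if ∏ p ∈ A, p ≤ R then (R : ℝ) else 0) := by
        refine Finset.sum_nonneg fun A _ => ?_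
        split_ifs <;> positivity
      calc _ ≤ ∑ A ∈ s.powerset, ‖∑ B ∈ s.powerset, ((ρ A * ρ B : ℝ) : ℂ) *
            TauBound_S N cond cw (A ∪ B) (fun _ => 1) -
            ∑ B ∈ s.powerset, ((ρ A * ρ B : ℝ) : ℂ) * ((k : ℂ) ^ (A ∪ B).card *
            (((N : ℝ) / ((Dd τ * ∏ p ∈ A ∪ B, p : ℕ) : ℝ) : ℝ) : ℂ))‖ := norm_sum_le _ _
        _ ≤ ∑ A ∈ s.powerset, ∑ B ∈ s.powerset, (if ∏ p ∈ A, p ≤ R then (R : ℝ) else 0) *
            (if ∏ p ∈ B, p ≤ R then (R : ℝ) else 0) := by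
          refine Finset.sum_le_sum fun A hA' => ?_
          rw [← Finset.sum_sub_distrib]
          exact (norm_sum_le _ _).trans (Finset.sum_le_sum fun B hB' => hterm A hA' B hB')
        _ = (∑ A ∈ s.powerset, (if ∏ p ∈ A, p ≤ R then (R : ℝ) else 0)) *
            ∑ A ∈ s.powerset, (if ∏ p ∈ A, p ≤ R then (R : ℝ) else 0) := by
          rw [Finset.sum_mul_sum]
        _ ≤ ((R : ℝ) * R) * ((R : ℝ) * R) := mul_le_mul hcard hcard hnn (by positivity)
        _ = (R : ℝ) ^ 4 := by ring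
    rw [← Complex.ofReal_sub, Complex.norm_real, Real.norm_eq_abs] at hdiff
    have h1 := (abs_le.1 hdiff).2
    have h2 : (N : ℝ) / Dd τ * QF ≤ N * nu τ / (1 - δ) := by
      calc (N : ℝ) / Dd τ * QF ≤ (N : ℝ) / Dd τ * (V / (1 - δ)) :=
            mul_le_mul_of_nonneg_left hQle (by positivity)
        _ = N * nu τ / (1 - δ) := by
            rw [hVnu]
            field_simp
    linarith
  · rw [hexp]
    have hbase : (0 : ℝ) ≤ E * N / Dd τ := by positivity
    have hgnn : ∀ W ⊆ s, 0 ≤ ∏ p ∈ W, g p := fun W hW =>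
      Finset.prod_nonneg fun p hp => (hg01 p (hW hp)).1.le
    have hterm : ∀ A ∈ s.powerset, ∀ B ∈ s.powerset,
        ‖((ρ A * ρ B : ℝ) : ℂ) * TauBound_S N cond cw (A ∪ B) ψ‖ ≤
          E * N / Dd τ * ∏ p ∈ A ∪ B, g p := by
      intro A hA' B hB'
      have hAs := Finset.mem_powerset.1 hA'
      have hBs := Finset.mem_powerset.1 hB'
      have hW := hWs A hA' B hB'
      rw [norm_mul, Complex.norm_real, Real.norm_eq_abs, abs_mul]
      by_cases hAR : ∏ p ∈ A, p ≤ R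
      · by_cases hBR : ∏ p ∈ B, p ≤ R
        · have hr1 : 1 ≤ Dd τ * ∏ p ∈ A ∪ B, p := Nat.mul_pos hD1 (hprodpos _ hW)
          have hr2 : Dd τ * ∏ p ∈ A ∪ B, p ≤ Dd τ * R ^ 2 := by
            refine Nat.mul_le_mul_left _ ?_
            rw [sq]
            exact (hunion A hA' B hB').trans (Nat.mul_le_mul hAR hBR)
          have h1 := hcls (A ∪ B) hW ψ 0 (E * ((N : ℝ) / ((Dd τ * ∏ p ∈ A ∪ B, p : ℕ) : ℝ)))
            (fun b _ => by rw [sub_zero]; exact hψ _ b hr1 hr2)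
          rw [mul_zero, sub_zero] at h1
          have h2 : (k : ℝ) ^ (A ∪ B).card * (E * ((N : ℝ) / ((Dd τ * ∏ p ∈ A ∪ B, p : ℕ) : ℝ))) =
              E * N / Dd τ * ∏ p ∈ A ∪ B, g p := by
            rw [← hprodk _ hW, Nat.cast_mul]
            have h3 : ((∏ p ∈ A ∪ B, p : ℕ) : ℝ) ≠ 0 := by
              have := hprodpos _ hW
              exact_mod_cast (by omega : (∏ p ∈ A ∪ B, p : ℕ) ≠ 0)
            field_simp
          rw [h2] at h1
          calc |ρ A| * |ρ B| * _ ≤ 1 * 1 * (E * N / Dd τ * ∏ p ∈ A ∪ B, g p) :=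
                mul_le_mul (mul_le_mul (hρ1 A hAs) (hρ1 B hBs) (abs_nonneg _) zero_le_one)
                  h1 (norm_nonneg _) (by norm_num)
            _ = _ := by ring
        · rw [hρR B hBs (not_le.1 hBR), abs_zero, mul_zero, zero_mul]
          exact mul_nonneg hbase (hgnn _ hW)
      · rw [hρR A hAs (not_le.1 hAR), abs_zero, zero_mul, zero_mul]
        exact mul_nonneg hbase (hgnn _ hW)
    calc _ ≤ ∑ A ∈ s.powerset, ∑ B ∈ s.powerset, E * N / Dd τ * ∏ p ∈ A ∪ B, g p := by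
          refine (norm_sum_le _ _).trans (Finset.sum_le_sum fun A hA' => ?_)
          exact (norm_sum_le _ _).trans (Finset.sum_le_sum fun B hB' => hterm A hA' B hB')
      _ = E * N / Dd τ * ∏ p ∈ s, (1 + 3 * g p) := by
          rw [← TauBound_union s g, Finset.mul_sum]
          refine Finset.sum_congr rfl fun A _ => ?_
          rw [Finset.mul_sum]
      _ ≤ E * N / Dd τ * ∏ p ∈ P, (1 + 3 * (k : ℝ) / p) := by
          refine mul_le_mul_of_nonneg_left ?_ hbase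
          have e1 : ∏ p ∈ s, (1 + 3 * g p) = ∏ p ∈ s, (1 + 3 * (k : ℝ) / p) := by
            refine Finset.prod_congr rfl fun p _ => ?_
            simp only [hg]
            rw [mul_div_assoc]
          rw [e1, ← Finset.prod_sdiff hsP]
          refine le_mul_of_one_le_left ?_ ?_
          · exact Finset.prod_nonneg fun p _ => by positivity
          · refine Finset.prod_induction _ (fun x : ℝ => 1 ≤ x)
              (fun a b ha hb => one_le_mul_of_one_le_of_one_le ha hb) le_rfl fun p _ => ?_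
            have : (0 : ℝ) ≤ 3 * (k : ℝ) / p := by positivity
            linarith

end Pool.Agent.H87T
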