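import Pool.Agent.H87T.Defs

/-!
Taylor expansion of `(1 + u)^(-K)`.

PROOF PLAN.  `c m = (-1)^m (K+m-1 choose m)`.  Either Taylor's theorem with Lagrange remainder on `[0,1]`, or
induction on `K`: multiply the expansion of `(1+u)^(-K)` by `(1+u)^(-1) = ∑_{m <= r} (-u)^m + (-u)^(r+1)/(1+u)`
and collect (terms of degree `> r` go to the error; `0 <= u <= 1`).  Hockey stick identity for the
coefficients.
-/

namespace Pool.Agent.H87T

open Finset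

private theorem TaylorPow_tel (a : ℕ → ℝ) (u : ℝ) (r : ℕ) :
    (1 + u) * ∑ m ∈ range (r + 1), (-1) ^ m * (∑ j ∈ range (m + 1), a j) * u ^ m =
      ∑ m ∈ range (r + 1), (-1) ^ m * a m * u ^ m +
        (-1) ^ r * (∑ j ∈ range (r + 1), a j) * u ^ (r + 1) := by
  induction r with
  | zero =>
    simp
    ring
  | succ r ih =>
    rw [sum_range_succ, mul_add, ih, sum_range_succ (fun m => (-1) ^ m * a m * u ^ m) (r + 1),
      sum_range_succ a (r + 1)]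
    ring

/-- the expansion with coefficients `(-1)^m a m` -/
private def TaylorPow_S (K : ℕ) (a : ℕ → ℝ) : Prop :=
  (∀ m, 0 ≤ a m) ∧ 1 ≤ a 0 ∧ ∀ r : ℕ, ∃ C : ℝ, 0 ≤ C ∧ ∀ u : ℝ, 0 ≤ u → u ≤ 1 →
    |((1 + u) ^ K)⁻¹ - ∑ m ∈ range (r + 1), (-1) ^ m * a m * u ^ m| ≤ C * u ^ (r + 1)

private theorem TaylorPow_zero : TaylorPow_S 0 (fun m => if m = 0 then 1 else 0) := by
  refine ⟨fun m => ?_, le_of_eq (if_pos rfl).symm, fun r => ⟨0, le_rfl, fun u _ _ => ?_⟩⟩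
  · show (0 : ℝ) ≤ if m = 0 then 1 else 0
    split_ifs <;> norm_num
  · have h : ∑ m ∈ range (r + 1), (-1 : ℝ) ^ m * (if m = 0 then 1 else 0) * u ^ m = 1 := by
      rw [sum_eq_single 0]
      · simp
      · intro m _ hm
        rw [if_neg hm]
        ring
      · intro h
        exact absurd (mem_range.2 (Nat.succ_pos r)) h
    rw [h]
    simp

private theorem TaylorPow_ge {K : ℕ} {a : ℕ → ℝ} (h : TaylorPow_S K a) (m : ℕ) :
    1 ≤ ∑ j ∈ range (m + 1), a j :=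
  h.2.1.trans (single_le_sum (f := a) (fun j _ => h.1 j) (mem_range.2 (Nat.succ_pos m)))

private theorem TaylorPow_step {K : ℕ} {a : ℕ → ℝ} (h : TaylorPow_S K a) :
    TaylorPow_S (K + 1) (fun m => ∑ j ∈ range (m + 1), a j) := by
  refine ⟨fun m => ?_, TaylorPow_ge h 0, fun r => ?_⟩
  · exact zero_le_one.trans (TaylorPow_ge h m)
  · obtain ⟨C, hC, hb⟩ := h.2.2 r
    have hge := TaylorPow_ge h r
    refine ⟨C + ∑ j ∈ range (r + 1), a j, by linarith, fun u h0 h1 => ?_⟩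
    have hu : 0 < 1 + u := by linarith
    have e1 := TaylorPow_tel a u r
    obtain ⟨S, hS⟩ : ∃ S : ℝ, S = ∑ m ∈ range (r + 1), (-1) ^ m * (∑ j ∈ range (m + 1), a j) *
      u ^ m := ⟨_, rfl⟩
    obtain ⟨b, hb'⟩ : ∃ b : ℝ, b = ∑ j ∈ range (r + 1), a j := ⟨_, rfl⟩
    obtain ⟨T, hT⟩ : ∃ T : ℝ, T = ∑ m ∈ range (r + 1), (-1) ^ m * a m * u ^ m := ⟨_, rfl⟩
    rw [← hS, ← hb', ← hT] at e1
    rw [← hb'] at hge
    show |((1 + u) ^ (K + 1))⁻¹ - ∑ m ∈ range (r + 1), (-1) ^ m *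
      (∑ j ∈ range (m + 1), a j) * u ^ m| ≤ (C + ∑ j ∈ range (r + 1), a j) * u ^ (r + 1)
    rw [← hS, ← hb']
    have hb2 := hb u h0 h1
    rw [← hT] at hb2
    have e2 : ((1 + u) ^ (K + 1))⁻¹ - S =
        (((1 + u) ^ K)⁻¹ - T - (-1) ^ r * b * u ^ (r + 1)) / (1 + u) := by
      rw [eq_div_iff hu.ne', sub_mul, pow_succ, mul_inv, mul_assoc, inv_mul_cancel₀ hu.ne',
        mul_one, mul_comm S, e1]
      ring
    rw [e2, abs_div, abs_of_pos hu, div_le_iff₀ hu]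
    have h3 : |(-1) ^ r * b * u ^ (r + 1)| = b * u ^ (r + 1) := by
      rw [abs_mul, abs_mul, abs_pow, abs_neg, abs_one, one_pow, one_mul,
        abs_of_nonneg (by linarith : 0 ≤ b), abs_of_nonneg (pow_nonneg h0 _)]
    have h4 := abs_sub (((1 + u) ^ K)⁻¹ - T) ((-1) ^ r * b * u ^ (r + 1))
    rw [h3] at h4
    have h5 : 0 ≤ (C + b) * u ^ (r + 1) := mul_nonneg (by linarith) (pow_nonneg h0 _)
    have h6 : (C + b) * u ^ (r + 1) ≤ (C + b) * u ^ (r + 1) * (1 + u) :=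
      le_mul_of_one_le_right h5 (by linarith)
    linarith

private theorem TaylorPow_all (K : ℕ) : ∃ a, TaylorPow_S K a := by
  induction K with
  | zero => exact ⟨_, TaylorPow_zero⟩
  | succ K ih =>
    obtain ⟨a, ha⟩ := ih
    exact ⟨_, TaylorPow_step ha⟩

theorem taylor_pow (K r : ℕ) (hK : 1 ≤ K) : ∃ (c : ℕ → ℝ) (C : ℝ), c r ≠ 0 ∧ 0 ≤ C ∧
    ∀ u : ℝ, 0 ≤ u → u ≤ 1 →
      |((1 + u) ^ K)⁻¹ - ∑ m ∈ range (r + 1), c m * u ^ m| ≤ C * u ^ (r + 1) := by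
  obtain ⟨K, rfl⟩ : ∃ k, K = k + 1 := ⟨K - 1, by omega⟩
  obtain ⟨a, ha⟩ := TaylorPow_all K
  obtain ⟨C, hC, h⟩ := (TaylorPow_step ha).2.2 r
  have hge := TaylorPow_ge ha r
  refine ⟨fun m => (-1) ^ m * ∑ j ∈ range (m + 1), a j, C, ?_, hC, h⟩
  exact mul_ne_zero (pow_ne_zero _ (by norm_num)) (by linarith)

end Pool.Agent.H87T
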